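import Pool.Agent.H35.P4J.EndS

/-!
# P4J with static ties in the group: the statements of the inputs

`VCellS2`: as `VCellS`, the slow coordinates have twice the margin, the samples have affine closed
frames at the constant `C₀`. `GfS2`: the labels with gain as known covectors, the event is given by
the statement.
-/

set_option autoImplicit false

namespace Pool.P4J

open Finset Real MvPolynomial Matrix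
open Pool.Agent.H49.Ent Pool.Agent.H32.Dense Pool.STK Pool.STAT Pool.MIC.Frm Pool.MIC7 Pool.FRM
open Pool.GSD
open Pool.BFL (Pb)
open Pool.P4 hiding Stp Plc Geo LinStmt OwnStmt DepStmt GeoStmt Hyp EntOf H0Stmt H2Stmt YFStmt
  TFStmt NFStmt HsStmt enum_ex VOutD VCellS GfS
  P4XT dig_cell p4x_of lab_cell

/-- **(VCELL)**, second form. -/
def VCellS2 : Prop :=
  ∀ (n K B : ℕ) (gt gam : ℕ → ℝ) (th C₁ Cs CL h : ℝ) (c k : ℕ) (ys : Fin k → ℕ)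
    (gs : Fin c → ℕ) (n₀ : Fin c), 1 ≤ n → 1 ≤ B → Kd n gt gam th → 1 ≤ C₁ → 0 < h → h ≤ 1 →
    (∀ a, sl gam n (ys a)) → Function.Injective ys → (∀ l, sl gam n l → ∃ a, ys a = l) →
    (∀ u, gp gam n (gs u)) → StrictMono gs → (∀ l, gp gam n l → ∃ u, gs u = l) →
    gs n₀ = n → ∀ F : ℕ → ℝ → ℝ,
    ∃ (K' : ℕ) (C₀ C : ℝ), 1 ≤ K' ∧ 1 ≤ C₀ ∧ C₀ ≤ C ∧ F K' C₀ ≤ C ∧ ∀ η : ℝ, 0 < η →
    ∃ s : ℝ, 0 < s ∧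
    ∀ (B' U₀ y₀ : ℕ) (io δ : ℝ), 1 ≤ B' → 0 < io → 0 < δ → 4 * δ ≤ io → 8 * B * δ ≤ h →
    ∃ U y r r' r'' a i j : ℕ, 1 ≤ U ∧ U₀ ≤ U ∧ y₀ ≤ y ∧
    (∀ l, sl gam n l → gt l * r + 2 * y ≤ r) ∧ ∀ M₀ : ℕ, ∃ M : ℕ, M₀ ≤ M ∧
    ∀ e : ℝ, 0 < e → ∃ (M₂ : ℕ) (κ : ℝ) (z₀ : ℕ), M ≤ M₂ ∧ 0 < κ ∧
    ∀ (lam : ℕ → ℝ) (J a₀ w₀ z : ℕ) (D : NDat2) (q : D.Ω → ℝ) (ϖ : ℝ),
      (∀ l, 1 ≤ l → l ≤ n → lam l = 1) → z₀ ≤ z → ϖ ≤ 1 →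
      D.Ok2 n K J a₀ w₀ z M₂ lam gt κ C₁ q → D.DMA z M₂ κ q → LLC D n z M₂ CL q →
      D.TmU J w₀ z κ q → D.Strt → D.Slp n J z M₂ q → D.NoSl n J w₀ z M₂ 1 Cs κ q →
      D.NF n z M₂ B gt h C₁ ϖ q → NFc D n z M₂ B gt (h + δ) C₁ q →
      ∃ (w : ℕ) (E : D.Ω → Prop) (P : D.Γ × D.Γ → ℕ → PN) (S : D.Ω → ℕ → ℕ → ℝ),
        Pb q (fun ω => ¬ E ω) ≤ e ∧ (∀ ω, E ω → FraC D n 1 M z C₀ ω) ∧
        VOutD D n K K' J a₀ w₀ z M w i j r r' r'' a y (B * U * z) lam gt gam κ C₁ C₀ C q E P S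
          ys gs n₀ B' (h / (4 * B)) io s η

open Classical in
/-- **(GF)**, static ties in the group. -/
def GfS2 : Prop :=
  ∀ (n K K' c k : ℕ) (C₀ C₁ : ℝ) (gt gam : ℕ → ℝ), 1 ≤ K' → 0 ≤ C₀ → 0 ≤ C₁ →
    ∃ F : ℝ, 0 ≤ F ∧ ∀ C : ℝ, F ≤ C → ∃ C₂ : ℝ, 1 ≤ C₂ ∧
    ∀ (M : ℕ) (e : ℝ), 0 < e → ∃ (κ₀ : ℝ) (z₀ : ℕ), 0 < κ₀ ∧
    ∀ (D : NDat2) (U : GnL D) (R : ℕ → Prop) (J a₀ w₀ z w i j r r' r'' a y X Q : ℕ)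
      (lam : ℕ → ℝ) (κ κ' : ℝ) (q : D.Ω → ℝ) (E : D.Ω → Prop) (P : D.Γ × D.Γ → ℕ → PN)
      (S : D.Ω → ℕ → ℕ → ℝ) (ys : Fin k → ℕ) (gs : Fin c → ℕ),
      z₀ ≤ z → κ' ≤ κ₀ → D.TmU J w₀ z κ' q →
      Hyp D n K K' J a₀ w₀ z M w i j r r' r'' y X lam gt gam κ C₁ C q E P S ys gs →
      Plc n gt gam y r r' r'' a M i j → (∀ l, sl gam n l → gt l * r + 2 * y ≤ r) →
      Geo D n K' J w₀ z i j r r' r'' gam C₀ (exp (C₀ * z) / 2 ^ (y * z)) q E P S →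
      (∀ ω, E ω → 0 < q ω ∧ GoodS D n K' w₀ z M C₀ ω ∧
        FrP D n K' z i j r C₀ (P (bb D i j r ω)) ω) →
      (∀ ω, E ω → FraC D n 1 M z C₀ ω) →
      U.Ok n K J a₀ w₀ z M Q R C₁ q → ∀ Fz : Finset (Fin c),
      (∀ g, g ∈ Fz ↔ gs g < n ∧ ¬ R (gs g)) →
      ∃ (Eg : D.Ω → Prop) (fD : D.Ξ → Fin c → Fin c → ℝ) (fL : LT D → Fin c → Fin c → ℝ)
        (p0 p1 : LT D → Fin c → Fin k → ℝ),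
        (∀ ω, Eg ω → E ω) ∧ Pb q (fun ω => E ω ∧ ¬ Eg ω) ≤ e ∧
        GfOut D U n J a₀ w₀ z M w i j r a Q R C₂
          (exp (C₂ * z) * (1 / 2 ^ (y * z) + 1 / 2 ^ (Q * z))) q E Eg P S ys gs Fz fD fL p0 p1

end Pool.P4J
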