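import Pool.Agent.H25.P4I.LinA
import Pool.Agent.H37.AF.Let
import Pool.Agent.H35.P4J.Stm

/-!
# P4J, lines over an affine closed frame: levels

As `Pool.Agent.H25.P4I.LinA`; the difference of two systems is an affine polynomial, there are no
quadratic terms.
-/

set_option autoImplicit false

namespace Pool.P4JL

open Finset Real MvPolynomial
open Pool.Agent.H49.Ent Pool.Agent.H32.Dense Pool.STK
open Pool.STAT Pool.MIC.Frm Pool.FRM Pool.P4L
open Pool.P4 (t0 rt pp PthC thd sl gr bb ze zt z0 be)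

/-- **Levels** at the base place (`g`), the place `L` (`gL`), `L₃` (`g3`), `L''` (`gM`), the coarser
place (`g1`: a longer window), for the three kinds of coordinates. -/
structure Lv4 (n c y z r : ℕ) (sl gp ab : ℕ → Prop) (g gL g3 gM g1 : ℕ → ℕ) : Prop where
  kinds : ∀ l, 1 ≤ l → l ≤ n → sl l ∨ gp l ∨ ab l
  o1 : ∀ l, 1 ≤ l → l ≤ n → sl l → g l + y * z ≤ g1 l + r * z + c * z
  l1 : ∀ l, 1 ≤ l → l ≤ n → sl l → g l + y * z ≤ gL l + c * z
  l2 : ∀ l, 1 ≤ l → l ≤ n → gp l → g l + y * z ≤ gL l + r * z + c * z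
  l3 : ∀ l, 1 ≤ l → l ≤ n → ¬ ab l → g l + y * z ≤ g3 l + c * z
  m1 : ∀ l, 1 ≤ l → l ≤ n → g l + y * z ≤ gM l + c * z
  s1 : ∀ l k, 1 ≤ l → l ≤ n → 1 ≤ k → k ≤ n → sl l → ¬ sl k →
    g1 k + g l + y * z ≤ g k + g1 l + c * z
  s3 : ∀ l k, 1 ≤ l → l ≤ n → 1 ≤ k → k ≤ n → ¬ ab l → ab k →
    g1 k + g l + y * z ≤ g k + g1 l + c * z

/-- A monomial of degree at most one with the coordinate `k`. -/
theorem eq_single {α : ℕ →₀ ℕ} {k : ℕ} (h : α.degree ≤ 1) (hk : α k ≠ 0) :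
    α = Finsupp.single k 1 := by
  have hle : Finsupp.single k 1 ≤ α := by
    rw [Finsupp.single_le_iff]
    omega
  obtain ⟨γ, hγ⟩ := exists_add_of_le hle
  have h2 : α.degree = 1 + γ.degree := by
    rw [hγ, map_add, Finsupp.degree_single]
  have h3 : γ.degree = 0 := by omega
  have h4 : γ = 0 := (Finsupp.degree_eq_zero_iff _).1 h3
  rw [hγ, h4, add_zero]

section

variable {n c y z r : ℕ} {sl gp ab : ℕ → Prop} {g gL g3 gM g1 : ℕ → ℕ}

/-- Small coefficients, common form: `vs` the visible (small) coordinates. -/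
theorem Lv4.sm_gen (_ : Lv4 n c y z r sl gp ab g gL g3 gM g1) {F : PN} {l N : ℕ} {S : ℝ}
    (hS : 0 ≤ S) (ln : l ≤ n) (hF : F.totalDegree ≤ 1) {vs : ℕ → Prop}
    (hs : ∀ k, 1 ≤ k → k ≤ n → ¬ vs k → g1 k + g l + y * z ≤ g k + g1 l + c * z)
    (h1 : nrm g1 (1 / 2) F ≤ S / 2 ^ g1 l) {α : ℕ →₀ ℕ} (hα : α ∈ exs l N)
    (ha : ∃ k, 1 ≤ k ∧ α k ≠ 0) (hn : ∀ k, 1 ≤ k → α k ≠ 0 → ¬ vs k) :
    Sm g l F (S * 2 ^ (c * z)) (1 / 2 ^ (y * z)) α := by
  by_cases h0 : coeff α F = 0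
  · unfold Sm
    rw [h0, abs_zero, zero_mul]
    positivity
  · obtain ⟨k, k1, hk⟩ := ha
    have hkl := exs_lt hα (Finsupp.mem_support_iff.2 hk)
    have h3 : α.degree ≤ 1 := (le_totalDegree (mem_support_iff.2 h0)).trans hF
    have e := eq_single h3 hk
    have h4 := hs k k1 (by omega) (hn k k1 hk)
    rw [e]
    refine sm_of hS h1 ?_
    rw [Finsupp.weight_single, Finsupp.weight_single, one_smul, one_smul]
    exact h4

/-- A slow label: the coefficients without slow coordinates are small. -/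
theorem Lv4.sm_slow (h : Lv4 n c y z r sl gp ab g gL g3 gM g1) {F : PN} {l N : ℕ} {S : ℝ}
    (hS : 0 ≤ S) (l1 : 1 ≤ l) (ln : l ≤ n) (hF : F.totalDegree ≤ 1) (hl : sl l)
    (h1 : nrm g1 (1 / 2) F ≤ S / 2 ^ g1 l) {α : ℕ →₀ ℕ} (hα : α ∈ exs l N)
    (ha : ∃ k, 1 ≤ k ∧ α k ≠ 0) (hn : ∀ k, 1 ≤ k → α k ≠ 0 → ¬ sl k) :
    Sm g l F (S * 2 ^ (c * z)) (1 / 2 ^ (y * z)) α :=
  h.sm_gen hS ln hF (fun k k1 kn hk => h.s1 l k l1 ln k1 kn hl hk) h1 hα ha hn

/-- A label which is not above: the coefficients with only coordinates above are small. -/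
theorem Lv4.sm_abv (h : Lv4 n c y z r sl gp ab g gL g3 gM g1) {F : PN} {l N : ℕ} {S : ℝ}
    (hS : 0 ≤ S) (l1 : 1 ≤ l) (ln : l ≤ n) (hF : F.totalDegree ≤ 1) (hl : ¬ ab l)
    (h1 : nrm g1 (1 / 2) F ≤ S / 2 ^ g1 l) {α : ℕ →₀ ℕ} (hα : α ∈ exs l N)
    (ha : ∃ k, 1 ≤ k ∧ α k ≠ 0) (hn : ∀ k, 1 ≤ k → α k ≠ 0 → ¬ ¬ ab k) :
    Sm g l F (S * 2 ^ (c * z)) (1 / 2 ^ (y * z)) α :=
  h.sm_gen hS ln hF (vs := fun k => ¬ ab k)
    (fun k k1 kn hk => h.s3 l k l1 ln k1 kn hl (not_not.1 hk)) h1 hα ha hn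

/-- A label of the proper group. -/
theorem Lv4.sm_grp (h : Lv4 n c y z r sl gp ab g gL g3 gM g1) {F : PN} {l N : ℕ} {S : ℝ}
    (hS : 0 ≤ S) (l1 : 1 ≤ l) (ln : l ≤ n) (hF : F.totalDegree ≤ 1) (hl' : ¬ ab l)
    (h1 : nrm g1 (1 / 2) F ≤ S / 2 ^ g1 l) {α : ℕ →₀ ℕ} (hα : α ∈ exs l N)
    (ha : ∃ k, 1 ≤ k ∧ α k ≠ 0) (hn : ∀ k, 1 ≤ k → α k ≠ 0 → ¬ sl k) :
    Sm g l F (S * 2 ^ (c * z)) (1 / 2 ^ (y * z)) α ∨
      ∃ k, 1 ≤ k ∧ gp k ∧ α = Finsupp.single k 1 := by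
  by_cases h0 : coeff α F = 0
  · left
    unfold Sm
    rw [h0, abs_zero, zero_mul]
    positivity
  · obtain ⟨k, k1, hk⟩ := ha
    have hkl := exs_lt hα (Finsupp.mem_support_iff.2 hk)
    have hkg : ¬ sl k := hn k k1 hk
    have h3 : α.degree ≤ 1 := (le_totalDegree (mem_support_iff.2 h0)).trans hF
    have e := eq_single h3 hk
    rcases (h.kinds k k1 (by omega)).resolve_left hkg with hkp | hka
    · exact Or.inr ⟨k, k1, hkp, e⟩
    · left
      have h4 := h.s3 l k l1 ln k1 (by omega) hl' hka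
      rw [e]
      refine sm_of hS h1 ?_
      rw [Finsupp.weight_single, Finsupp.weight_single, one_smul, one_smul]
      exact h4

end

section

variable {D : NDat2} {n K J a₀ w₀ z M : ℕ} {lam gt gam : ℕ → ℝ} {κ C₁ : ℝ} {q : D.Ω → ℝ}

theorem lv_of (hO : D.Ok2 n K J a₀ w₀ z M lam gt κ C₁ q)
    (hlam : ∀ l, 1 ≤ l → l ≤ n → lam l = 1) (hgn : gam n < 1 + thd gam n) (hC₁ : 0 ≤ C₁) {c : ℕ}
    (hc : 4 * C₁ + 1 ≤ c) {y r r' r'' a i j : ℕ} (hP : Pool.P4J.Plc n gt gam y r r' r'' a M i j) :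
    Lv4 n c y z r (sl gam n) (Pool.P4J.gp gam n) (Pool.P4J.ab gam n) (D.g i j)
      (D.g (i + r') (j - r)) (D.g (i + (r + r')) (j - r)) (D.g (i + r'') (j - r))
      (D.g (i - 1) (j - r)) := by
  have hz0 : (0 : ℝ) ≤ z := Nat.cast_nonneg z
  have hS := hP.stp
  have i2 := hP.i2
  have j1 := hP.j1
  have j2 := hP.j2
  have a1 := hP.a1
  have r1 : r' ≤ r'' := hS.s5
  have r2 : r + r' ≤ r'' := hS.s7
  have hcz' : (4 * C₁ + 1) * z ≤ c * z := mul_le_mul_of_nonneg_right hc hz0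
  have hcz : 4 * C₁ * z + z ≤ c * z := by linarith
  have hi1 : 1 ≤ i := by
    have h1 := hP.y1
    have h2 := hS.s6
    omega
  have hCz : 0 ≤ C₁ * z := mul_nonneg hC₁ hz0
  have ejr : ((j - r : ℕ) : ℝ) = j - r := by rw [Nat.cast_sub j1]
  have ei1 : ((i - 1 : ℕ) : ℝ) = i - 1 := by rw [Nat.cast_sub hi1, Nat.cast_one]
  -- comparison with the places
  have L0 : ∀ l, 1 ≤ l → l ≤ n → ∀ s : ℕ, i + s ≤ M →
      |(D.g i j l : ℝ) - D.g (i + s) (j - r) l - (-(s : ℝ) + gt l * r) * z| ≤ 2 * C₁ * z := by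
    intro l l1 ln s hs
    have h := lv_ok hO hlam (i₁ := i) (j₁ := j) (i₂ := i + s) (j₂ := j - r) (by omega) (by omega)
      hs (by omega) l1 ln
    rw [ejr] at h
    push_cast at h
    rw [show (i : ℝ) - (i + s) + gt l * (j - (j - r)) = -(s : ℝ) + gt l * r by ring] at h
    exact h
  have L1 : ∀ l, 1 ≤ l → l ≤ n →
      |(D.g i j l : ℝ) - D.g (i - 1) (j - r) l - (1 + gt l * r) * z| ≤ 2 * C₁ * z := by
    intro l l1 ln
    have h := lv_ok hO hlam (i₁ := i) (j₁ := j) (i₂ := i - 1) (j₂ := j - r) (by omega) (by omega)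
      (by omega) (by omega) l1 ln
    rw [ejr, ei1] at h
    rw [show (i : ℝ) - (i - 1) + gt l * (j - (j - r)) = 1 + gt l * r by ring] at h
    exact h
  have mz : ∀ {x y : ℝ}, x ≤ y → x * z ≤ y * z := fun h => mul_le_mul_of_nonneg_right h hz0
  have hy0 : (0 : ℝ) ≤ y := Nat.cast_nonneg y
  have hr0 : (0 : ℝ) ≤ r := Nat.cast_nonneg r
  have grn : ∀ k, 1 ≤ k → k ≤ n → ¬ sl gam n k → gr gam n k := by
    intro k k1 kn hk
    refine ⟨k1, kn, ?_⟩
    by_contra h4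
    rw [not_le] at h4
    refine hk ⟨k1, lt_of_le_of_ne kn ?_, h4⟩
    rintro rfl
    exact absurd h4 (not_lt.2 (min_le_left _ _))
  constructor
  · intro l l1 ln
    exact Pool.P4J.kinds hgn l1 ln
  · -- o1
    intro l l1 ln hl
    have e1 := (abs_le.1 (L1 l l1 ln)).2
    have e2 : (gt l * r + y) * z ≤ r * z := mz (hS.s1' l hl)
    have e3 : (D.g i j l : ℝ) + y * z ≤ D.g (i - 1) (j - r) l + r * z + c * z := by linarith
    exact_mod_cast e3
  · -- l1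
    intro l l1 ln hl
    have e1 := (abs_le.1 (L0 l l1 ln r' (by omega))).2
    have e2 : (gt l * r + y) * z ≤ r' * z := mz (hS.s1 l hl)
    have e3 : (D.g i j l : ℝ) + y * z ≤ D.g (i + r') (j - r) l + c * z := by linarith
    exact_mod_cast e3
  · -- l2
    intro l l1 ln hl
    have e1 := (abs_le.1 (L0 l l1 ln r' (by omega))).2
    have e2 : (gt l * r + y) * z ≤ (r' + r) * z := mz (by
      have := hS.s3 l hl
      have h5 : (gt l - 1) * r = gt l * r - r := by ring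
      linarith)
    have e3 : (D.g i j l : ℝ) + y * z ≤ D.g (i + r') (j - r) l + r * z + c * z := by linarith
    exact_mod_cast e3
  · -- l3
    intro l l1 ln hl
    have e1 := (abs_le.1 (L0 l l1 ln (r + r') (by omega))).2
    have e2 : (gt l * r + y) * z ≤ ((r + r' : ℕ) : ℝ) * z := mz (hS.t1 l1 ln hgn hl)
    have e3 : (D.g i j l : ℝ) + y * z ≤ D.g (i + (r + r')) (j - r) l + c * z := by linarith
    exact_mod_cast e3
  · -- m1
    intro l l1 ln
    have e1 := (abs_le.1 (L0 l l1 ln r'' (by omega))).2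
    have e2 : (gt l * r + y) * z ≤ r'' * z := mz (by
      have h4 := hS.s4 l l1 ln
      have h5 : 0 ≤ gt l * r := mul_nonneg (hO.gam_ge l) (Nat.cast_nonneg r)
      linarith)
    have e3 : (D.g i j l : ℝ) + y * z ≤ D.g (i + r'') (j - r) l + c * z := by linarith
    exact_mod_cast e3
  · -- s1
    intro l k l1 ln k1 kn hl hk
    have e1 := (abs_le.1 (L1 l l1 ln)).2
    have e2 := (abs_le.1 (L1 k k1 kn)).1
    have e3 : (gt l * r + y) * z ≤ (gt k * r) * z := mz (by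
      linarith [hS.s1 l hl, hS.s2 k (grn k k1 kn hk)])
    have e4 : (D.g (i - 1) (j - r) k : ℝ) + D.g i j l + y * z ≤
        D.g i j k + D.g (i - 1) (j - r) l + c * z := by linarith
    exact_mod_cast e4
  · -- s3
    intro l k l1 ln k1 kn hl hk
    have e1 := (abs_le.1 (L1 l l1 ln)).2
    have e2 := (abs_le.1 (L1 k k1 kn)).1
    have e3 : (gt l * r + y) * z ≤ (gt k * r) * z := mz (by
      have h3 := hS.t1 l1 ln hgn hl
      have h4 := hS.t2 k hk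
      linarith)
    have e4 : (D.g (i - 1) (j - r) k : ℝ) + D.g i j l + y * z ≤
        D.g i j k + D.g (i - 1) (j - r) l + c * z := by linarith
    exact_mod_cast e4

end

end Pool.P4JL
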