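import Pool.Agent.H25.P4.Lin
import Pool.Agent.H25.P4J.LinA

/-!
# P4J: the lines over an affine closed frame, (LIN)
-/

set_option autoImplicit false

namespace Pool.P4JL

open Finset Real MvPolynomial
open Pool.Agent.H49.Ent Pool.Agent.H32.Dense Pool.STK
open Pool.STAT Pool.MIC.Frm Pool.FRM
open Pool.P4 (t0 rt pp PthC FraC thd sl gr bb ze zt z0 be nn GoodS FrP)
open Pool.P4J (LinStmt gp ab Plc)
open Pool.P4IL (core_twoG)
open Pool.P4L
open Pool.SYS35 (nrm_nonneg')

/-- **(LIN)** -/
theorem lin_stmt : LinStmt := by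
  classical
  intro n K K' lam gt gam C₁ C hn hC₁ hC hlam hgn
  obtain ⟨K₂, hK₂⟩ : ∃ K₂, K₂ = K + K' + 1 := ⟨_, rfl⟩
  obtain ⟨N, hN⟩ : ∃ N, N = K₂ * (K₂ + 1) ^ n := ⟨_, rfl⟩
  obtain ⟨Ct, hCt1, hCt⟩ := tay ((K₂ + 1) * (K + 1))
  obtain ⟨Cs, Ns, hCs, hsys⟩ := sys_near K₂ (n + 1)
  obtain ⟨c, hc⟩ := exists_nat_ge (4 * C₁ + 1)
  obtain ⟨C₀, hC₀⟩ : ∃ C₀ : ℝ, C₀ = C + 1 + c := ⟨_, rfl⟩
  have hc0 : (0 : ℝ) ≤ c := Nat.cast_nonneg c
  obtain ⟨e, he⟩ : ∃ e, e = dd N n := ⟨_, rfl⟩
  obtain ⟨Cd, hCd1, hCd⟩ : ∃ Cd : ℝ, 1 ≤ Cd ∧ ∀ l ≤ n, ((exs l N).card : ℝ) ≤ Cd := by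
    refine ⟨1 + ∑ l ∈ range (n + 1), ((exs l N).card : ℝ), ?_, fun l hl => ?_⟩
    · have : 0 ≤ ∑ l ∈ range (n + 1), ((exs l N).card : ℝ) :=
        Finset.sum_nonneg fun _ _ => Nat.cast_nonneg _
      linarith only [this]
    · have := Finset.single_le_sum (f := fun l => ((exs l N).card : ℝ))
        (fun _ _ => Nat.cast_nonneg _) (mem_range.2 (Nat.lt_succ_of_le hl))
      linarith only [this]
  obtain ⟨C', hC', hnum⟩ := nums n N e Ns Ct Cs Cd C₀ hCt1 hCs hCd1 (by rw [hC₀]; positivity)
  refine ⟨C', hC', fun y r r' r'' a M => ⟨1, ?_⟩⟩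
  intro J a₀ w₀ z i j D q κ hz hPl hO hSt P ω hω hG hFra hFP hP1
  have hzr : (1 : ℝ) ≤ z := by exact_mod_cast hz
  have hz0 : (0 : ℝ) ≤ z := by linarith only [hzr]
  have hS := hPl.stp
  have i2 := hPl.i2
  have j1 := hPl.j1
  have j2 := hPl.j2
  have a1 := hPl.a1
  have rr : r' ≤ r'' := hS.s5
  have rr2 : r + r' ≤ r'' := hS.s7
  -- sizes
  exact by
   obtain ⟨E, hE⟩ : ∃ E : ℝ, E = exp (C₀ * z) := ⟨_, rfl⟩
   have hE1 : exp z ≤ E := by
     rw [hE]
     refine exp_le_exp.2 (le_mul_of_one_le_left hz0 ?_)
     rw [hC₀]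
     linarith only [hC₁, hC, hc]
   have hE2 : exp (C * z) ≤ E := by
     rw [hE]
     refine exp_le_exp.2 (mul_le_mul_of_nonneg_right ?_ hz0)
     rw [hC₀]
     linarith only [hC₁, hc]
   have hE3 : (2 : ℝ) ^ (c * z) ≤ E := by
     refine (two_pow_le c z).trans ?_
     rw [hE]
     refine exp_le_exp.2 (mul_le_mul_of_nonneg_right ?_ hz0)
     rw [hC₀]
     linarith only [hC]
   have hEone : 1 ≤ E := (one_le_exp hz0).trans hE1
   have hE0 : 0 < E := by linarith only [hEone]
   obtain ⟨A, hA⟩ : ∃ A : ℝ, A = (4 * E) ^ e := ⟨_, rfl⟩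
   have hA1 : 1 ≤ A := by
     rw [hA]
     exact one_le_pow₀ (by linarith only [hEone])
   obtain ⟨B, hB⟩ : ∃ B : ℝ, B = Ct * (4 * E) ^ e * E := ⟨_, rfl⟩
   have hBA : B = Ct * A * E := by rw [hB, hA]
   have hAE : A * E ≤ B := by
     rw [hBA]
     have : 0 ≤ A * E := by positivity
     nlinarith only [hCt1, this]
   have hAB : A ≤ B := (le_mul_of_one_le_right (by linarith only [hA1]) hEone).trans hAE
   exact by
    have hB1 : 1 ≤ B := hA1.trans hAB
    obtain ⟨S, hSd⟩ : ∃ S : ℝ, S = Cs * E ^ Ns := ⟨_, rfl⟩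
    have hS0 : 0 ≤ S := by rw [hSd]; positivity
    obtain ⟨S', hS'⟩ : ∃ S' : ℝ, S' = Cs * E ^ Ns * E ^ (n * N + 3) := ⟨_, rfl⟩
    have hSS : S ≤ S' := by
      rw [hS', ← hSd]
      exact le_mul_of_one_le_right hS0 (one_le_pow₀ hEone)
    have hS'0 : 0 ≤ S' := hS0.trans hSS
    have hSp : S * 2 ^ (c * z) ≤ S' := by
      rw [hS', ← hSd]
      refine mul_le_mul_of_nonneg_left ?_ hS0
      refine hE3.trans ?_
      calc E = E ^ 1 := (pow_one E).symm
        _ ≤ E ^ (n * N + 3) := pow_le_pow_right₀ hEone (by omega)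
    obtain ⟨Z, hZ⟩ : ∃ Z : ℝ, Z = 2 * B + Cd * (4 * B ^ (n * N + 1) * S') := ⟨_, rfl⟩
    have hfin : 2 * Z ≤ exp (C' * z) := by
      rw [hZ, hS']
      exact hnum z hz E B hE hB
    have hZB : 2 * B ≤ Z := by
      rw [hZ]
      have : 0 ≤ Cd * (4 * B ^ (n * N + 1) * S') := by positivity
      linarith only [this]
    have hZ0 : 0 ≤ Z := by linarith only [hA1, hAB, hZB]
    obtain ⟨δ, hδ⟩ : ∃ δ : ℝ, δ = 1 / 2 ^ (y * z) := ⟨_, rfl⟩
    have hδ0 : 0 ≤ δ := by rw [hδ]; positivity
    have eδ : exp (C' * z) / 2 ^ (y * z) = exp (C' * z) * δ := by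
      rw [hδ, mul_one_div]
    rw [eδ]
    have fin1 : ∀ x : ℝ, x ≤ Z * δ → x ≤ exp (C' * z) * δ := fun x hx =>
      hx.trans (mul_le_mul_of_nonneg_right (by linarith only [hA1, hAB, hfin, hZB]) hδ0)
    have fin2 : ∀ x : ℝ, x ≤ 2 * Z * δ → x ≤ exp (C' * z) * δ := fun x hx =>
      hx.trans (mul_le_mul_of_nonneg_right hfin hδ0)
    exact by
     have finA : ∀ x : ℝ, x ≤ 2 * A → x ≤ exp (C' * z) := fun x hx => by linarith only [hA1, hAB, hfin, hZB, hx]
     -- the systems
     have hK1 : K ≤ K₂ := by omega
     have dP : ∀ l, (P l).totalDegree ≤ K₂ := fun l => (hFP.deg l).trans (by omega)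
     have hP := hFP.tri
     have nP : ∀ i' ≤ i, ∀ l ≤ n,
         nrm (D.g i' j) (1 / 2) (chr P (D.Φ i' j ω l - P l)) ≤ E / 2 ^ D.g i' j l ∧
         nrm (D.g (i' - 1) (j - r)) (1 / 2) (chr P (D.Φ (i' - 1) (j - r) ω l - P l)) ≤
           E / 2 ^ D.g (i' - 1) (j - r) l := fun i' hi' l hl =>
       ⟨(hFP.near i' hi' l hl).1.trans (div_le_div_of_nonneg_right hE2 (by positivity)),
         (hFP.near i' hi' l hl).2.trans (div_le_div_of_nonneg_right hE2 (by positivity))⟩
     obtain ⟨Q, hQ, dQ1, -, nQ'⟩ := hFra
     have dQ : ∀ l, (Q l).totalDegree ≤ K₂ := fun l => (dQ1 l).trans (by omega)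
     have nQ : ∀ i' < M, ∀ j' < M, ∀ l ≤ n,
         nrm (D.g i' j') (1 / 2) (chr Q (D.Φ i' j' ω l - Q l)) ≤ E / 2 ^ D.g i' j' l :=
       fun i' hi' j' hj' l hl => (nQ' i' hi' j' hj' l hl).trans
         (div_le_div_of_nonneg_right hE2 (by positivity))
     have hLv := lv_of hO hlam hgn (by linarith only [hC₁]) hc hPl
     -- the difference of the systems
     have sys : ∀ i' j' : ℕ, i' < M → j' < M → (∀ l ≤ n,
         nrm (D.g i' j') (1 / 2) (chr P (D.Φ i' j' ω l - P l)) ≤ E / 2 ^ D.g i' j' l) →
         ∀ l ≤ n, nrm (D.g i' j') (1 / 2) (chr Q (P l - Q l)) ≤ S / 2 ^ D.g i' j' l := by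
       intro i' j' hi' hj' h l hl
       rw [hSd]
       exact hsys (D.g i' j') (D.Φ i' j' ω) P Q E (hO.P_tri i' j' _) hP hQ
         (fun l => (hO.P_deg i' j' _ l).trans hK1) dP dQ hEone (fun l hl => h l (by omega))
         (fun l hl => nQ i' hi' j' hj' l (by omega)) l (by omega)
     have W0 := sys i j (by omega) (by omega) (fun l hl => (nP i le_rfl l hl).1)
     have W1 := sys (i - 1) (j - r) (by omega) (by omega) (fun l hl => (nP i le_rfl l hl).2)
     exact by
      have vF : ∀ l, (chr Q (P l - Q l)).vars ⊆ range l := fun l =>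
        chr_vars hQ (AdxRow.vars_sub_le (hP l) (hQ l))
      have dF1 : ∀ l, (chr Q (P l - Q l)).totalDegree ≤ 1 := fun l =>
        Pool.AF37.chr_aff hQ dQ1 ((totalDegree_sub _ _).trans (max_le (hP1 l) (dQ1 l)))
      have dF : ∀ l ≤ n, (chr Q (P l - Q l)).totalDegree ≤ N := fun l hl => by
        refine (chr_deg (K := K₂) (K' := K₂) hQ (fun k _ => dQ k)
          (AdxRow.vars_sub_le (hP l) (hQ l)) ((totalDegree_sub _ _).trans
            (max_le (dP l) (dQ l)))).trans ?_
        rw [hN]
        exact Nat.mul_le_mul_left _ (Nat.pow_le_pow_right (by omega) hl)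
      -- one sample
      have bx : ∀ t : ℝ, |t - D.X ω 0| ≤ 1 / 2 ^ (w₀ + j * z) → ∀ l ≤ n,
          |zt D i j r (fun _ => P) t ω l| ≤ A := by
        intro t ht l hl
        have h := in_box hO hK1 hP dP (i := i) (j := j) (by omega) (by omega) hE1 hG.pc
          (fun l hl => (nP i le_rfl l hl).1) ht l hl
        rw [← hN, ← he, ← hA] at h
        have h2 : |zs P (pp D (D.ln ω) t) l| ≤ A * 1 / 2 ^ D.g i j l := by rwa [mul_one]
        have h3 := up h2
        rw [mul_one] at h3
        exact h3
      have hze : ∀ l ≤ n, ze D i j r (fun _ => P) ω l = zt D i j r (fun _ => P) (D.X ω 0) ω l := by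
        intro l hl
        unfold ze zt
        rw [nat_eq, nat_eq, zs_congr (m := n + 1) hP (fun k hk => X_pp hO hω (by omega)) (by omega)]
      refine ⟨fun l _ hl => ?_, ?_⟩
      · rw [hze l hl]
        refine finA _ ((bx _ ?_ l hl).trans (by linarith only [hA1]))
        rw [sub_self, abs_zero]
        positivity
      intro w hw1 hw2
      have hwJ : w ≤ J := by
        have e1 := hO.top
        have e2 := hO.thin
        have e3 : (j + 1) * z ≤ (M + 1) * z := Nat.mul_le_mul_right z (by omega)
        omega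
      exact by
       obtain ⟨r0, r1, rX⟩ := tms hO hwJ ω
       have hpw : (1 : ℝ) / 2 ^ w ≤ 1 / 2 ^ (w₀ + j * z) :=
         one_div_le_one_div_of_le (by positivity) (pow_le_pow_right₀ one_le_two hw1)
       have hpw0 : (0 : ℝ) < 1 / 2 ^ w := by positivity
       have hr1 : rt D J w ω * (1 / 2 ^ w) ≤ 1 / 2 ^ w := by
         calc rt D J w ω * (1 / 2 ^ w) ≤ 1 * (1 / 2 ^ w) := mul_le_mul_of_nonneg_right r1 hpw0.le
           _ = 1 / 2 ^ w := one_mul _
       have hr0 : 0 ≤ rt D J w ω * (1 / 2 ^ w) := by positivity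
       have b0 : ∀ l ≤ n, |z0 D J w i j r (fun _ => P) ω l| ≤ A := fun l hl => by
         unfold z0
         refine bx _ ?_ l hl
         rw [abs_le]
         constructor <;> linarith
       have bt1 : ∀ l ≤ n, |zt D i j r (fun _ => P) (t0 D J w ω + 1 / 2 ^ w) ω l| ≤ A := fun l hl => by
         refine bx _ ?_ l hl
         rw [abs_le]
         constructor <;> linarith
       refine ⟨fun l _ hl => ⟨finA _ ((b0 l hl).trans (by linarith only [hA1])), ?_⟩, ?_⟩
       · unfold be
         refine finA _ ((abs_sub _ _).trans ?_)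
         have := b0 l hl
         have := bt1 l hl
         linarith
       -- the long window
       have hj1w : w₀ + (j - r) * z ≤ w := by
         have : (j - r) * z ≤ j * z := Nat.mul_le_mul_right z (Nat.sub_le _ _)
         omega
       have hrz : r * z ≤ w - (w₀ + (j - r) * z) := by
         have : (j - r) * z + r * z = j * z := by
           rw [← add_mul]
           congr 1
           omega
         omega
       exact by
        have hwe : (1 : ℝ) / 2 ^ (w - (w₀ + (j - r) * z)) ≤ 1 / 2 ^ (r * z) :=
          one_div_le_one_div_of_le (by positivity) (pow_le_pow_right₀ one_le_two hrz)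
        have hCtA : 0 ≤ Ct * A := by positivity
        have df : ∀ l ≤ n, _ := fun l hl => dif_box hO hK1 hP dP (i := i - 1) (j := j - r) (by omega)
          (by omega) hE1 hCt hG.pc (fun l hl => (nP i le_rfl l hl).2) hwJ hj1w hl r0 r1
        refine ⟨fun l hl => ?_, fun l hl => ?_, ?_⟩
        · have h1 := (df l hl.2.1.le).1
          rw [← rX, ← hN, ← he, ← hA, ← mul_div_assoc Ct A] at h1
          have h2 := h1.trans (pw1 (u := D.g i j l) (p := y * z) (s := c * z) hCtA hwe hE3
            (by have := hLv.o1 l hl.1 hl.2.1.le hl; omega))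
          rw [← hBA, ← hδ] at h2
          have h3 := up h2
          rw [hze l hl.2.1.le]
          refine fin1 _ ((le_of_eq ?_).trans (h3.trans (mul_le_mul_of_nonneg_right (by linarith only [hA1, hAB, hZB]) hδ0)))
          unfold z0 zt
          rw [nat_eq, nat_eq, mul_sub]
        · have e2 : ze D i j r (fun _ => P) ω l = z0 D J w i j r (fun _ => P) ω l +
              rt D J w ω * be D J w i j r (fun _ => P) ω l := by
            rw [hze l hl.1.2.1]
            unfold be z0 zt
            rw [nat_eq, nat_eq, nat_eq, Pool.AF37.zs_seg hSt hP hP1 (D.X ω 0),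
              Pool.AF37.zs_seg hSt hP hP1 (t0 D J w ω),
              Pool.AF37.zs_seg hSt hP hP1 (t0 D J w ω + 1 / 2 ^ w), rX]
            ring
          rw [e2, sub_self, abs_zero]
          positivity
        -- two samples
        exact by
         intro ω' hω' hG' hbb hT
         have ec : D.c i j ω' = D.c i j ω := (congrArg Prod.fst hbb).symm
         have et : t0 D J w ω' = t0 D J w ω := (t0_congr hT).symm
         have eΦ : D.Φ i j ω' = D.Φ i j ω := by
           unfold NDat2.Φ
           rw [ec]
         have gen : ∀ i₁ j₁ : ℕ, i₁ < M → j₁ < M → w₀ + j₁ * z ≤ w → ∀ υ : D.Ω,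
             PthC D n w₀ z M 1 υ → D.Φ i₁ j₁ υ = D.Φ i₁ j₁ ω → t0 D J w υ = t0 D J w ω →
             (∀ l ≤ n, |zs Q (pp D (D.ln υ) (t0 D J w ω)) l| ≤ A / 2 ^ D.g i₁ j₁ l) ∧
             (∀ l ≤ n, |zs Q (pp D (D.ln υ) (t0 D J w ω + 1 / 2 ^ w)) l| ≤ A / 2 ^ D.g i₁ j₁ l) ∧
             ∀ l ≤ n, |zs Q (pp D (D.ln υ) (t0 D J w ω + 1 / 2 ^ w)) l -
               zs Q (pp D (D.ln υ) (t0 D J w ω)) l| ≤
                 Ct * A / 2 ^ D.g i₁ j₁ l * (1 / 2 ^ (w - (w₀ + j₁ * z))) := by
           intro i₁ j₁ hi₁ hj₁ hjw υ hυ e1 e2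
           have nr : ∀ l ≤ n, nrm (D.g i₁ j₁) (1 / 2) (chr Q (D.Φ i₁ j₁ υ l - Q l)) ≤
               E / 2 ^ D.g i₁ j₁ l := fun l hl => by
             rw [e1]
             exact nQ i₁ hi₁ j₁ hj₁ l hl
           obtain ⟨s0, s1, sX⟩ := tms hO hwJ υ
           rw [e2] at sX
           have hq1 : (1 : ℝ) / 2 ^ w ≤ 1 / 2 ^ (w₀ + j₁ * z) :=
             one_div_le_one_div_of_le (by positivity) (pow_le_pow_right₀ one_le_two hjw)
           have hs1 : rt D J w υ * (1 / 2 ^ w) ≤ 1 / 2 ^ w := by
             calc rt D J w υ * (1 / 2 ^ w) ≤ 1 * (1 / 2 ^ w) := mul_le_mul_of_nonneg_right s1 hpw0.le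
               _ = 1 / 2 ^ w := one_mul _
           have hs0 : 0 ≤ rt D J w υ * (1 / 2 ^ w) := by positivity
           refine ⟨fun l hl => ?_, fun l hl => ?_, fun l hl => ?_⟩
           · have h := in_box hO hK1 hQ dQ (i := i₁) (j := j₁) hi₁.le hj₁.le hE1 hυ nr
               (t := t0 D J w ω) (by
                 rw [abs_le]
                 constructor <;> linarith) l hl
             rw [← hN, ← he, ← hA] at h
             exact h
           · have h := in_box hO hK1 hQ dQ (i := i₁) (j := j₁) hi₁.le hj₁.le hE1 hυ nr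
               (t := t0 D J w ω + 1 / 2 ^ w) (by
                 rw [abs_le]
                 constructor <;> linarith) l hl
             rw [← hN, ← he, ← hA] at h
             exact h
           · have h := (dif_box hO hK1 hQ dQ (i := i₁) (j := j₁) hi₁.le hj₁.le hE1 hCt hυ nr hwJ hjw hl
               zero_le_one le_rfl).1
             rw [← hN, ← he, ← hA, one_mul, e2, ← mul_div_assoc Ct A] at h
             exact h
         exact by
          obtain ⟨g1, g2, -⟩ := gen i j (by omega) (by omega) hw1 ω hG.pc rfl rfl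
          obtain ⟨g1', g2', -⟩ := gen i j (by omega) (by omega) hw1 ω' hG'.pc eΦ et
          have wk : ∀ {x : ℝ} {g : ℕ}, |x| ≤ A / 2 ^ g → |x| ≤ B / 2 ^ g := fun h =>
            h.trans (div_le_div_of_nonneg_right hAB (by positivity))
          have c0 : ∀ t, zs Q (pp D (D.ln ω) t) 0 = zs Q (pp D (D.ln ω') t) 0 := fun t =>
            zs_congr (m := 1) hQ (fun k hk => by
              have : k = 0 := by omega
              rw [this, pp_zero, pp_zero]) one_pos
          have Zle : ∀ l ≤ n, (2 * B + (exs l N).card * (4 * B ^ (l * N + 1) * S')) ≤ Z := by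
            intro l hl
            rw [hZ]
            have h1 : B ^ (l * N + 1) ≤ B ^ (n * N + 1) := by
              refine pow_le_pow_right₀ hB1 ?_
              have : l * N ≤ n * N := Nat.mul_le_mul_right N hl
              omega
            have h2 : ((exs l N).card : ℝ) * (4 * B ^ (l * N + 1) * S') ≤
                Cd * (4 * B ^ (n * N + 1) * S') := by
              refine mul_le_mul (hCd l hl) ?_ (by positivity) (by linarith only [hCd1])
              exact mul_le_mul_of_nonneg_right (mul_le_mul_of_nonneg_left h1 (by norm_num)) hS'0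
            linarith only [h2]
          have Zle' : ∀ l ≤ n, (2 * B + (exs l N).card * (2 * B ^ (l * N) * S')) ≤ Z := by
            intro l hl
            refine le_trans ?_ (Zle l hl)
            have h1 : B ^ (l * N) ≤ B ^ (l * N + 1) := pow_le_pow_right₀ hB1 (Nat.le_succ _)
            have h0 : 0 ≤ B ^ (l * N) := by positivity
            have h2 : 2 * B ^ (l * N) * S' ≤ 4 * B ^ (l * N + 1) * S' :=
              mul_le_mul_of_nonneg_right (by linarith only [h1, h0]) hS'0
            have h3 := mul_le_mul_of_nonneg_left h2 (Nat.cast_nonneg (α := ℝ) (exs l N).card)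
            linarith only [h3]
          have hFn : ∀ l ≤ n, ∀ α, Sm (D.g i j) l (chr Q (P l - Q l)) S' 1 α := fun l hl α =>
            sm_nat (W0 l hl) hSS α
          exact by
           have z0d : ∀ l, z0 D J w i j r (fun _ => P) ω l - z0 D J w i j r (fun _ => P) ω' l =
               2 ^ D.g i j l * (zs P (pp D (D.ln ω) (t0 D J w ω)) l -
                 zs P (pp D (D.ln ω') (t0 D J w ω)) l) := fun l => by
             unfold z0 zt
             rw [nat_eq, nat_eq, et, mul_sub]
           have bed : ∀ l, be D J w i j r (fun _ => P) ω l - be D J w i j r (fun _ => P) ω' l =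
               2 ^ D.g i j l * ((zs P (pp D (D.ln ω) (t0 D J w ω + 1 / 2 ^ w)) l -
                 zs P (pp D (D.ln ω) (t0 D J w ω)) l) -
                 (zs P (pp D (D.ln ω') (t0 D J w ω + 1 / 2 ^ w)) l -
                   zs P (pp D (D.ln ω') (t0 D J w ω)) l)) := fun l => by
             unfold be z0 zt
             rw [nat_eq, nat_eq, nat_eq, nat_eq, et]
             ring
           refine ⟨fun hL => ?_, fun h3L => ?_, fun hM => ?_⟩
           · -- the place `L`
             have eL : D.Φ (i + r') (j - r) ω' = D.Φ (i + r') (j - r) ω := by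
               unfold NDat2.Φ
               rw [hL]
             obtain ⟨p1, p2, p3⟩ := gen (i + r') (j - r) (by omega) (by omega) hj1w ω hG.pc rfl rfl
             obtain ⟨p1', p2', p3'⟩ := gen (i + r') (j - r) (by omega) (by omega) hj1w ω' hG'.pc eL et
             have sm : ∀ {x : ℝ} {k : ℕ}, k ≤ n → sl gam n k → |x| ≤ A / 2 ^ D.g (i + r') (j - r) k →
                 |x| ≤ B * δ / 2 ^ D.g i j k := by
               intro x k hk hs h
               refine h.trans ((pw0 (u := D.g i j k) (p := y * z) (s := c * z) (by linarith only [hA1]) hE3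
                 (hLv.l1 k hs.1 hk hs)).trans ?_)
               rw [hδ]
               exact div_le_div_of_nonneg_right (mul_le_mul_of_nonneg_right hAE (by positivity))
                 (by positivity)
             have sd : ∀ {x : ℝ} {k : ℕ}, 1 ≤ k → k ≤ n → gp gam n k →
                 |x| ≤ Ct * A / 2 ^ D.g (i + r') (j - r) k * (1 / 2 ^ (w - (w₀ + (j - r) * z))) →
                 |x| ≤ B * δ / 2 ^ D.g i j k := by
               intro x k k1 hk hg h
               refine h.trans ((pw1 (u := D.g i j k) (p := y * z) (s := c * z) hCtA hwe hE3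
                 (hLv.l2 k k1 hk hg)).trans (le_of_eq ?_))
               rw [hδ, hBA]
             constructor
             · intro l hl
               have hln : l ≤ n := hl.2.1.le
               have h := core_one (sl := sl gam n) hQ (vF l) (dF l hln) hB1 hS'0 hδ0 (hFn l hln)
                 (fun α hα h1 h2 => by
                   rw [hδ]
                   exact (hLv.sm_slow hS0 hl.1 hln (dF1 l) hl (W1 l hln) hα h1 h2).mono hSp
                     (by positivity))
                 (x := pp D (D.ln ω) (t0 D J w ω)) (x' := pp D (D.ln ω') (t0 D J w ω))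
                 (fun k hk => wk (g1 k (by omega))) (fun k hk => wk (g1' k (by omega))) (c0 _)
                 (fun k hk hs => sm (by omega) hs (p1 k (by omega)))
                 (fun k hk hs => sm (by omega) hs (p1' k (by omega)))
                 (sm hln hl (p1 l hln)) (sm hln hl (p1' l hln))
               rw [z0d]
               exact fin1 _ ((up h).trans (mul_le_mul_of_nonneg_right (Zle' l hln) hδ0))
             · intro l hl
               have hln : l ≤ n := hl.1.2.1
               have h := core_twoG (sl := sl gam n) (ga := gp gam n) hQ (vF l) (dF l hln) hB1 hS'0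
                 hδ0 (hFn l hln)
                 (fun α hα h1 h2 => by
                   rw [hδ]
                   exact (hLv.sm_grp hS0 hl.1.1 hln (dF1 l) (fun h => Pool.P4J.ab_gp h hl)
                     (W1 l hln) hα h1 h2).imp_left fun h => h.mono hSp (by positivity))
                 (x := pp D (D.ln ω) (t0 D J w ω)) (x' := pp D (D.ln ω') (t0 D J w ω))
                 (y := pp D (D.ln ω) (t0 D J w ω + 1 / 2 ^ w))
                 (y' := pp D (D.ln ω') (t0 D J w ω + 1 / 2 ^ w))
                 (fun k hk => wk (g1 k (by omega))) (fun k hk => wk (g1' k (by omega)))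
                 (fun k hk => wk (g2 k (by omega))) (fun k hk => wk (g2' k (by omega))) (c0 _) (c0 _)
                 (fun k hk hs => sm (by omega) hs (p1 k (by omega)))
                 (fun k hk hs => sm (by omega) hs (p1' k (by omega)))
                 (fun k hk hs => sm (by omega) hs (p2 k (by omega)))
                 (fun k hk hs => sm (by omega) hs (p2' k (by omega)))
                 (fun k hk k1 hs => sd k1 (by omega) hs (p3 k (by omega)))
                 (fun k hk k1 hs => sd k1 (by omega) hs (p3' k (by omega))) hl.1.1 hl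
               rw [bed]
               exact fin1 _ ((up h).trans (mul_le_mul_of_nonneg_right (Zle l hln) hδ0))
           · -- the place `L₃`
             have e3L : D.Φ (i + (r + r')) (j - r) ω' = D.Φ (i + (r + r')) (j - r) ω := by
               unfold NDat2.Φ
               rw [h3L]
             obtain ⟨p1, p2, -⟩ := gen (i + (r + r')) (j - r) (by omega) (by omega) hj1w ω hG.pc rfl rfl
             obtain ⟨p1', p2', -⟩ := gen (i + (r + r')) (j - r) (by omega) (by omega) hj1w ω' hG'.pc e3L et
             have sm : ∀ {x : ℝ} {k : ℕ}, k ≤ n → 1 ≤ k → ¬ ab gam n k → |x| ≤ A / 2 ^ D.g (i + (r + r')) (j - r) k →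
                 |x| ≤ B * δ / 2 ^ D.g i j k := by
               intro x k hk k1 hs h
               refine h.trans ((pw0 (u := D.g i j k) (p := y * z) (s := c * z) (by linarith only [hA1]) hE3
                 (hLv.l3 k k1 hk hs)).trans ?_)
               rw [hδ]
               exact div_le_div_of_nonneg_right (mul_le_mul_of_nonneg_right hAE (by positivity))
                 (by positivity)
             intro l l1 hln hl
             have h1 := core_one (sl := fun k => 1 ≤ k ∧ ¬ ab gam n k) hQ (vF l) (dF l hln) hB1 hS'0 hδ0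
               (hFn l hln)
               (fun α hα h1 h2 => by
                 rw [hδ]
                 exact (hLv.sm_abv hS0 l1 hln (dF1 l) hl (W1 l hln) hα h1
                   (fun k k1 hk h => h2 k k1 hk ⟨k1, h⟩)).mono hSp (by positivity))
               (x := pp D (D.ln ω) (t0 D J w ω)) (x' := pp D (D.ln ω') (t0 D J w ω))
               (fun k hk => wk (g1 k (by omega))) (fun k hk => wk (g1' k (by omega))) (c0 _)
               (fun k hk hs => sm (by omega) hs.1 hs.2 (p1 k (by omega)))
               (fun k hk hs => sm (by omega) hs.1 hs.2 (p1' k (by omega)))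
               (sm hln l1 hl (p1 l hln)) (sm hln l1 hl (p1' l hln))
             have h2 := core_one (sl := fun k => 1 ≤ k ∧ ¬ ab gam n k) hQ (vF l) (dF l hln) hB1 hS'0 hδ0
               (hFn l hln)
               (fun α hα h1 h2 => by
                 rw [hδ]
                 exact (hLv.sm_abv hS0 l1 hln (dF1 l) hl (W1 l hln) hα h1
                   (fun k k1 hk h => h2 k k1 hk ⟨k1, h⟩)).mono hSp (by positivity))
               (x := pp D (D.ln ω) (t0 D J w ω + 1 / 2 ^ w))
               (x' := pp D (D.ln ω') (t0 D J w ω + 1 / 2 ^ w))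
               (fun k hk => wk (g2 k (by omega))) (fun k hk => wk (g2' k (by omega))) (c0 _)
               (fun k hk hs => sm (by omega) hs.1 hs.2 (p2 k (by omega)))
               (fun k hk hs => sm (by omega) hs.1 hs.2 (p2' k (by omega)))
               (sm hln l1 hl (p2 l hln)) (sm hln l1 hl (p2' l hln))
             have k1 := (up h1).trans (mul_le_mul_of_nonneg_right (Zle' l hln) hδ0)
             have k2 := (up h2).trans (mul_le_mul_of_nonneg_right (Zle' l hln) hδ0)
             constructor
             · rw [z0d]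
               exact fin1 _ k1
             · rw [bed]
               have e1 : 2 ^ D.g i j l * ((zs P (pp D (D.ln ω) (t0 D J w ω + 1 / 2 ^ w)) l -
                   zs P (pp D (D.ln ω) (t0 D J w ω)) l) -
                   (zs P (pp D (D.ln ω') (t0 D J w ω + 1 / 2 ^ w)) l -
                     zs P (pp D (D.ln ω') (t0 D J w ω)) l)) =
                   2 ^ D.g i j l * (zs P (pp D (D.ln ω) (t0 D J w ω + 1 / 2 ^ w)) l -
                     zs P (pp D (D.ln ω') (t0 D J w ω + 1 / 2 ^ w)) l) -
                   2 ^ D.g i j l * (zs P (pp D (D.ln ω) (t0 D J w ω)) l -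
                     zs P (pp D (D.ln ω') (t0 D J w ω)) l) := by ring
               rw [e1]
               refine fin2 _ ((abs_sub _ _).trans ?_)
               linarith only [k1, k2]

           · -- the place `L''`
             have eM : D.Φ (i + r'') (j - r) ω' = D.Φ (i + r'') (j - r) ω := by
               unfold NDat2.Φ
               rw [hM]
             obtain ⟨p1, p2, -⟩ := gen (i + r'') (j - r) (by omega) (by omega) hj1w ω hG.pc rfl rfl
             obtain ⟨p1', p2', -⟩ := gen (i + r'') (j - r) (by omega) (by omega) hj1w ω' hG'.pc eM et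
             have sm : ∀ {x : ℝ} {k : ℕ}, k ≤ n → 1 ≤ k → |x| ≤ A / 2 ^ D.g (i + r'') (j - r) k →
                 |x| ≤ B * δ / 2 ^ D.g i j k := by
               intro x k hk k1 h
               refine h.trans ((pw0 (u := D.g i j k) (p := y * z) (s := c * z) (by linarith only [hA1]) hE3
                 (hLv.m1 k k1 hk)).trans ?_)
               rw [hδ]
               exact div_le_div_of_nonneg_right (mul_le_mul_of_nonneg_right hAE (by positivity))
                 (by positivity)
             have vac : ∀ l : ℕ, ∀ α ∈ exs l N, (∃ k, 1 ≤ k ∧ α k ≠ 0) →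
                 (∀ k, 1 ≤ k → α k ≠ 0 → ¬ 1 ≤ k) → Sm (D.g i j) l (chr Q (P l - Q l)) S' δ α := by
               intro l α _ h1 h2
               obtain ⟨k, k1, hk⟩ := h1
               exact absurd k1 (h2 k k1 hk)
             intro l l1 hln
             have h1 := core_one (sl := fun k => 1 ≤ k) hQ (vF l) (dF l hln) hB1 hS'0 hδ0 (hFn l hln)
               (vac l)
               (x := pp D (D.ln ω) (t0 D J w ω)) (x' := pp D (D.ln ω') (t0 D J w ω))
               (fun k hk => wk (g1 k (by omega))) (fun k hk => wk (g1' k (by omega))) (c0 _)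
               (fun k hk hs => sm (by omega) hs (p1 k (by omega)))
               (fun k hk hs => sm (by omega) hs (p1' k (by omega)))
               (sm hln l1 (p1 l hln)) (sm hln l1 (p1' l hln))
             have h2 := core_one (sl := fun k => 1 ≤ k) hQ (vF l) (dF l hln) hB1 hS'0 hδ0 (hFn l hln)
               (vac l)
               (x := pp D (D.ln ω) (t0 D J w ω + 1 / 2 ^ w))
               (x' := pp D (D.ln ω') (t0 D J w ω + 1 / 2 ^ w))
               (fun k hk => wk (g2 k (by omega))) (fun k hk => wk (g2' k (by omega))) (c0 _)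
               (fun k hk hs => sm (by omega) hs (p2 k (by omega)))
               (fun k hk hs => sm (by omega) hs (p2' k (by omega)))
               (sm hln l1 (p2 l hln)) (sm hln l1 (p2' l hln))
             have k1 := (up h1).trans (mul_le_mul_of_nonneg_right (Zle' l hln) hδ0)
             have k2 := (up h2).trans (mul_le_mul_of_nonneg_right (Zle' l hln) hδ0)
             constructor
             · rw [z0d]
               exact fin1 _ k1
             · rw [bed]
               have e1 : 2 ^ D.g i j l * ((zs P (pp D (D.ln ω) (t0 D J w ω + 1 / 2 ^ w)) l -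
                   zs P (pp D (D.ln ω) (t0 D J w ω)) l) -
                   (zs P (pp D (D.ln ω') (t0 D J w ω + 1 / 2 ^ w)) l -
                     zs P (pp D (D.ln ω') (t0 D J w ω)) l)) =
                   2 ^ D.g i j l * (zs P (pp D (D.ln ω) (t0 D J w ω + 1 / 2 ^ w)) l -
                     zs P (pp D (D.ln ω') (t0 D J w ω + 1 / 2 ^ w)) l) -
                   2 ^ D.g i j l * (zs P (pp D (D.ln ω) (t0 D J w ω)) l -
                     zs P (pp D (D.ln ω') (t0 D J w ω)) l) := by ring
               rw [e1]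
               refine fin2 _ ((abs_sub _ _).trans ?_)
               linarith only [k1, k2]

end Pool.P4JL
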