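import Pool.Agent.H25.P4J.Kt
import Pool.Agent.H35.P4J.EndB2
import Pool.Agent.H48.P4J.VCel2

/-!
# P4J with static ties in the group: the theorem
-/

set_option autoImplicit false

namespace Pool.P4J

theorem p4jx2 : P4JX2 := p4jx2_of Pool.P4J48.vcellS2 gfS2

/-- **P4J with static ties in the group**, no hypotheses left. -/
theorem p4j2 : Pool.STAT.P4JStmt2 := p4j2_of p4jx2

end Pool.P4J
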