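import Pool.Agent.H25.TL.Leaf
import Pool.Agent.H25.P4.GfG

/-!
# Second derivatives in two affine frames

`Dj P k`: the derivative in the direction `k` of the frame `P` (`Pool.TL25`). For affine frames
`P`, `Q` the second derivatives of a polynomial in the directions of `P` are the combinations of the
ones in the directions of `Q` with the matrix `MM` of the change of the frame.
-/

set_option autoImplicit false

namespace Pool.P4J

open Finset Real MvPolynomial
open Pool.STAT Pool.MIC.Frm Pool.FRM Pool.TL25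
open Pool.P4 (Tg Sp kap MM kap_zero)

/-- Constant polynomials. -/
def IsC (F : PN) : Prop := ∃ c : ℝ, F = C c

theorem IsC.add {F G : PN} (h : IsC F) (h' : IsC G) : IsC (F + G) := by
  obtain ⟨a, rfl⟩ := h
  obtain ⟨b, rfl⟩ := h'
  exact ⟨a + b, (map_add _ _ _).symm⟩

theorem IsC.sub {F G : PN} (h : IsC F) (h' : IsC G) : IsC (F - G) := by
  obtain ⟨a, rfl⟩ := h
  obtain ⟨b, rfl⟩ := h'
  exact ⟨a - b, (map_sub _ _ _).symm⟩

theorem IsC.mul {F G : PN} (h : IsC F) (h' : IsC G) : IsC (F * G) := by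
  obtain ⟨a, rfl⟩ := h
  obtain ⟨b, rfl⟩ := h'
  exact ⟨a * b, (map_mul _ _ _).symm⟩

theorem IsC.sum {ι : Type} (s : Finset ι) {f : ι → PN} (h : ∀ i ∈ s, IsC (f i)) :
    IsC (∑ i ∈ s, f i) := by
  classical
  induction s using Finset.induction_on with
  | empty => exact ⟨0, by rw [Finset.sum_empty, map_zero]⟩
  | insert i s hi ih =>
    rw [Finset.sum_insert hi]
    exact (h i (mem_insert_self _ _)).add (ih fun k hk => h k (mem_insert_of_mem hk))

theorem IsC.eq {F : PN} (h : IsC F) (x : ℕ → ℝ) : F = C (eval x F) := by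
  obtain ⟨a, rfl⟩ := h
  rw [eval_C]

theorem isC_one : IsC (1 : PN) := ⟨1, (map_one _).symm⟩

theorem isC_zero : IsC (0 : PN) := ⟨0, (map_zero _).symm⟩

/-- The derivative of an affine polynomial is constant. -/
theorem pd_aff {F : PN} (h : F.totalDegree ≤ 1) (u : ℕ) : IsC (pderiv u F) := by
  refine ⟨coeff 0 (pderiv u F), ?_⟩
  ext α
  rw [coeff_C]
  split_ifs with h0
  · rw [h0]
  · rw [coeff_pderiv]
    have h1 : coeff (α + Finsupp.single u 1) F = 0 := by
      refine coeff_eq_zero_of_totalDegree_lt (lt_of_le_of_lt h ?_)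
      have h2 : ∀ β : ℕ →₀ ℕ, (∑ i ∈ β.support, β i) = β.degree := fun _ => rfl
      rw [h2, map_add, Finsupp.degree_single]
      have h3 : α.degree ≠ 0 := fun h => h0 ((Finsupp.degree_eq_zero_iff α).1 h).symm
      omega
    rw [h1, zero_mul]

theorem Dj_C (P : ℕ → PN) (k : ℕ) (c : ℝ) : Dj P k (C c) = 0 := (lieN (fl P k)).map_algebraMap c

theorem Dj_isC (P : ℕ → PN) (k : ℕ) {F : PN} (h : IsC F) : Dj P k F = 0 := by
  obtain ⟨a, rfl⟩ := h
  exact Dj_C P k a

theorem Dj_add (P : ℕ → PN) (k : ℕ) (F G : PN) : Dj P k (F + G) = Dj P k F + Dj P k G :=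
  map_add _ _ _

theorem Dj_sub (P : ℕ → PN) (k : ℕ) (F G : PN) : Dj P k (F - G) = Dj P k F - Dj P k G :=
  map_sub _ _ _

theorem Dj_sum' {ι : Type} (P : ℕ → PN) (k : ℕ) (s : Finset ι) (f : ι → PN) :
    Dj P k (∑ i ∈ s, f i) = ∑ i ∈ s, Dj P k (f i) := map_sum (lieN (fl P k)) f s

theorem Dj_C_mul (P : ℕ → PN) (k : ℕ) (c : ℝ) (F : PN) : Dj P k (C c * F) = C c * Dj P k F := by
  have h : Dj P k (C c * F) = C c • Dj P k F + F • Dj P k (C c) := (lieN (fl P k)).leibniz _ _
  rw [h, Dj_C, smul_zero, add_zero, smul_eq_mul]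

section

variable {P Q : ℕ → PN}

/-- The fields of an affine frame are constant. -/
theorem fl_isC (hP : TriN P) (dP : ∀ l, (P l).totalDegree ≤ 1) (k u : ℕ) : IsC (fl P k u) := by
  induction u using Nat.strong_induction_on with
  | _ u ih =>
    rw [fl_eq hP]
    split_ifs
    · exact isC_one
    · rw [Dj_sum (hP u)]
      exact IsC.sum _ fun i hi => (ih i (mem_range.1 hi)).mul (pd_aff (dP u) i)

theorem Dj_aff (hP : TriN P) (dP : ∀ l, (P l).totalDegree ≤ 1) (k : ℕ) {F : PN} {m : ℕ}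
    (hv : F.vars ⊆ range m) (hF : F.totalDegree ≤ 1) : IsC (Dj P k F) := by
  rw [Dj_sum hv]
  exact IsC.sum _ fun i _ => (fl_isC hP dP k i).mul (pd_aff hF i)

/-- The second derivative of an affine polynomial vanishes. -/
theorem Dj2_aff (hP : TriN P) (dP : ∀ l, (P l).totalDegree ≤ 1) (k v : ℕ) {F : PN} {m : ℕ}
    (hv : F.vars ⊆ range m) (hF : F.totalDegree ≤ 1) : Dj P k (Dj P v F) = 0 :=
  Dj_isC P k (Dj_aff hP dP v hv hF)

/-- The coordinate `a` of the direction `k` of `P`, in the frame `Q`. -/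
noncomputable def mu (P Q : ℕ → PN) (k a : ℕ) : ℝ := eval (fun _ => 0) (Dj P k (X a - Q a))

theorem mu_eq (hP : TriN P) (hQ : TriN Q) (dP : ∀ l, (P l).totalDegree ≤ 1)
    (dQ : ∀ l, (Q l).totalDegree ≤ 1) (k a : ℕ) :
    fl P k a - Dj P k (Q a) = C (mu P Q k a) := by
  have h1 : Dj P k (X a - Q a) = fl P k a - Dj P k (Q a) := by
    rw [Dj_sub, Dj_X]
  unfold mu
  rw [h1]
  exact ((fl_isC hP dP k a).sub (Dj_aff hP dP k (hQ a) (dQ a))).eq _

/-- **The change of the fields.** -/
theorem fl_change (hP : TriN P) (hQ : TriN Q) (dP : ∀ l, (P l).totalDegree ≤ 1)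
    (dQ : ∀ l, (Q l).totalDegree ≤ 1) (k m u : ℕ) (hu : u < m) :
    fl P k u = ∑ a ∈ range m, C (mu P Q k a) * fl Q a u := by
  induction u using Nat.strong_induction_on with
  | _ u ih =>
    have e1 : Dj P k (Q u) = ∑ a ∈ range m, C (mu P Q k a) * Dj Q a (Q u) := by
      rw [Dj_sum (hQ u)]
      have f1 : ∀ l ∈ range u, fl P k l * pderiv l (Q u) =
          ∑ a ∈ range m, C (mu P Q k a) * (fl Q a l * pderiv l (Q u)) := by
        intro l hl
        have hlu := mem_range.1 hl
        rw [ih l hlu (by omega), Finset.sum_mul]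
        exact Finset.sum_congr rfl fun a _ => by ring
      rw [Finset.sum_congr rfl f1, Finset.sum_comm]
      refine Finset.sum_congr rfl fun a _ => ?_
      rw [Dj_sum (hQ u), Finset.mul_sum]
    have e2 : fl P k u = C (mu P Q k u) + Dj P k (Q u) := by
      rw [← mu_eq hP hQ dP dQ k u, sub_add_cancel]
    have e3 : ∀ a, fl Q a u = (if a = u then 1 else 0) + Dj Q a (Q u) := by
      intro a
      by_cases h : a = u
      · rw [if_pos h, h]
        have h1 : Dj Q u (Q u) = 0 := by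
          rw [Dj_sum (hQ u)]
          refine Finset.sum_eq_zero fun i hi => ?_
          rw [fl_lt hQ (mem_range.1 hi), zero_mul]
        rw [h1, add_zero, fl_eq hQ, if_pos rfl]
      · rw [if_neg h, zero_add]
        conv_lhs => rw [fl_eq hQ, if_neg (fun h' => h h'.symm)]
    rw [e2, e1]
    have e4 : ∑ a ∈ range m, C (mu P Q k a) * fl Q a u =
        ∑ a ∈ range m, C (mu P Q k a) * (if a = u then 1 else 0) +
          ∑ a ∈ range m, C (mu P Q k a) * Dj Q a (Q u) := by
      rw [← Finset.sum_add_distrib]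
      exact Finset.sum_congr rfl fun a _ => by rw [e3 a, mul_add]
    rw [e4]
    congr 1
    rw [Finset.sum_eq_single u]
    · rw [if_pos rfl, mul_one]
    · intro a _ ha
      rw [if_neg ha, mul_zero]
    · intro h
      exact absurd (mem_range.2 hu) h

/-- **The change of a derivative.** -/
theorem Dj_change (hP : TriN P) (hQ : TriN Q) (dP : ∀ l, (P l).totalDegree ≤ 1)
    (dQ : ∀ l, (Q l).totalDegree ≤ 1) (k : ℕ) {m : ℕ} {R : PN} (hv : R.vars ⊆ range m) :
    Dj P k R = ∑ a ∈ range m, C (mu P Q k a) * Dj Q a R := by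
  rw [Dj_sum hv]
  have f1 : ∀ l ∈ range m, fl P k l * pderiv l R =
      ∑ a ∈ range m, C (mu P Q k a) * (fl Q a l * pderiv l R) := by
    intro l hl
    rw [fl_change hP hQ dP dQ k m l (mem_range.1 hl), Finset.sum_mul]
    exact Finset.sum_congr rfl fun a _ => by ring
  rw [Finset.sum_congr rfl f1, Finset.sum_comm]
  refine Finset.sum_congr rfl fun a _ => ?_
  rw [Dj_sum hv, Finset.mul_sum]

/-- **The change of a second derivative.** -/
theorem Dj2_change (hP : TriN P) (hQ : TriN Q) (dP : ∀ l, (P l).totalDegree ≤ 1)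
    (dQ : ∀ l, (Q l).totalDegree ≤ 1) (k v : ℕ) {m : ℕ} {R : PN} (hv : R.vars ⊆ range m) :
    Dj P k (Dj P v R) = ∑ b ∈ range m, ∑ a ∈ range m,
      C (mu P Q v b * mu P Q k a) * Dj Q a (Dj Q b R) := by
  rw [Dj_change hP hQ dP dQ v hv, Dj_sum']
  refine Finset.sum_congr rfl fun b _ => ?_
  rw [Dj_C_mul, Dj_change hP hQ dP dQ k (Dj_vars hQ hv b), Finset.mul_sum]
  refine Finset.sum_congr rfl fun a _ => ?_
  rw [map_mul, mul_assoc]

/-- The derivatives in the chart. -/
theorem chr_Dj (hP : TriN P) (k : ℕ) (R : PN) : chr P (Dj P k R) = pderiv k (chr P R) := by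
  unfold chr
  rw [pderiv_fr hP, pow_zero, div_one, map_one, one_mul]

/-- The matrix of the change of the frame. -/
theorem mu_MM (hP : TriN P) (hQ : TriN Q) (dP : ∀ l, (P l).totalDegree ≤ 1)
    (dQ : ∀ l, (Q l).totalDegree ≤ 1) (g : ℕ → ℕ) (k a : ℕ) :
    2 ^ g a / 2 ^ g k * mu P Q k a = MM g P Q a k := by
  have h1 : Dj P k (X a - Q a) = C (mu P Q k a) := by
    rw [Dj_sub, Dj_X]
    exact mu_eq hP hQ dP dQ k a
  have h2 : pderiv k (chr P (X a - Q a : PN)) = C (mu P Q k a) := by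
    rw [← chr_Dj hP, h1]
    unfold chr
    rw [bind₁_C_right]
  have h3 : chr P (X a - Q a : PN) = X a - chr P (Q a - P a) := by
    have e1 : (X a - Q a : PN) = (X a - P a) - (Q a - P a) := by ring
    rw [e1, chr_sub, chr_X hP]
  have h4 : mu P Q k a = (if a = k then 1 else 0) -
      coeff (Finsupp.single k 1) (chr P (Q a - P a)) := by
    have e1 := congrArg (coeff 0) h2
    rw [h3, map_sub, coeff_sub, coeff_C, if_pos rfl] at e1
    rw [← e1]
    congr 1
    · by_cases h : a = k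
      · rw [h, pderiv_X_self, if_pos rfl, coeff_one, if_pos rfl]
      · rw [pderiv_X_of_ne h, if_neg h, coeff_zero]
    · rw [coeff_pderiv, zero_add]
      simp
  unfold MM kap
  rw [h4, mul_sub]
  congr 1
  split_ifs with h
  · rw [h, mul_one, div_self (by positivity)]
  · rw [mul_zero]

/-- The value of a second derivative at a point, in the chart. -/
theorem Dj2_eval (hP : TriN P) (k v : ℕ) (R : PN) (x : ℕ → ℝ) :
    eval x (Dj P k (Dj P v R)) = eval (zs P x) (pderiv k (pderiv v (chr P R))) := by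
  rw [← chr_Dj hP, ← chr_Dj hP, chr_eval hP]

/-- The value at the centre. -/
theorem eval_ctr {F : PN} {m : ℕ} (hv : F.vars ⊆ range m) {ζ : ℕ → ℝ} (hζ : ∀ u < m, ζ u = 0) :
    eval ζ F = coeff 0 F := by
  have h1 : eval ζ F = eval (fun _ => 0) F :=
    AdxRow.evl_congr fun k hk => hζ k (mem_range.1 (hv hk))
  rw [h1, ← constantCoeff_eq]
  show eval (0 : ℕ → ℝ) F = _
  rw [eval_zero]

end

end Pool.P4J
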