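import Pool.Agent.H25.P4J.Kg

/-!
# The mixed second derivatives at the centre of an affine frame

`pt_small`: `P`, `Q` are affine frames, `U` is near to `Q` at a shorter window (`gS`), at a longer
window (`g1`) and at a larger radius (`g2`). At the centre of `Q` the derivative of `U l` in the time
and a coordinate of `P` is small in natural units.
-/

set_option autoImplicit false

namespace Pool.P4J

open Finset Real MvPolynomial
open Pool.STAT Pool.MIC.Frm Pool.FRM Pool.TL25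
open Pool.P4 (Tg Sp kap MM kap_zero MM_le nrm_dif ex_le ex_one ex_mono pw_le)

/-- The degree of an affine polynomial in an affine chart. -/
theorem chr_aff {P : ℕ → PN} (hP : TriN P) (dP : ∀ l, (P l).totalDegree ≤ 1) {F : PN}
    (hF : F.totalDegree ≤ 1) : (chr P F).totalDegree ≤ 1 := by
  have h1 : ∀ u, (nuc (fun _ => 0) P u).totalDegree ≤ 1 := by
    intro u
    induction u using Nat.strong_induction_on with
    | _ u ih =>
      rw [AdxRow.nuc_eq hP]
      refine (totalDegree_add _ _).trans (max_le ?_ ?_)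
      · refine (Dgb.deg_bind (B := 1) fun k hk => ih k (mem_range.1 (hP u hk))).trans ?_
        rw [mul_one]
        exact dP u
      · refine (totalDegree_mul _ _).trans ?_
        rw [totalDegree_C, totalDegree_X]
  unfold chr
  refine (Dgb.deg_bind (B := 1) fun k _ => h1 k).trans ?_
  rw [mul_one]
  exact hF

/-- Coefficients of degree `≥ 2` of an affine polynomial. -/
theorem co_aff {F : PN} (hF : F.totalDegree ≤ 1) {α : ℕ →₀ ℕ} (h : 2 ≤ α.degree) :
    coeff α F = 0 := by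
  refine coeff_eq_zero_of_totalDegree_lt (lt_of_le_of_lt hF ?_)
  have h2 : (∑ i ∈ α.support, α i) = α.degree := rfl
  rw [h2]
  omega

/-- Coefficients of degree `≥ 2` do not see the frame. -/
theorem co_dif {P : ℕ → PN} (hP : TriN P) (dP : ∀ l, (P l).totalDegree ≤ 1) (F : PN) (l : ℕ)
    {α : ℕ →₀ ℕ} (h : 2 ≤ α.degree) : coeff α (chr P F) = coeff α (chr P (F - P l)) := by
  rw [chr_sub, coeff_sub, co_aff (chr_aff hP dP (dP l)) h, sub_zero]

/-- A coefficient of degree two, in natural units. -/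
theorem co2_le (n K c₀ : ℕ) (c : ℝ) (hc : 0 ≤ c) : ∃ c' : ℝ, 0 ≤ c' ∧
    ∀ (z y : ℕ) (g d : ℕ → ℕ) (Q U : ℕ → PN), 1 ≤ z → Tg K n Q → Tg K n U →
    Sp d Q U n (exp (c * z)) → ∀ l ≤ n, ∀ a b, d a + d b + g l + y * z ≤ g a + g b + d l + c₀ * z →
    2 ^ g l / (2 ^ g a * 2 ^ g b) *
      |coeff (Finsupp.single a 1 + Finsupp.single b 1) (chr Q (U l - Q l))| ≤
      exp (c' * z) / 2 ^ (y * z) := by
  obtain ⟨C, hC, h⟩ := nrm_dif n K
  refine ⟨C + c + c₀, by positivity, ?_⟩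
  intro z y g d Q U hz hQ hU hS l hl a b hlev
  have hzr : (1 : ℝ) ≤ z := by exact_mod_cast hz
  have h1 := (coeff_le_nrm d (by norm_num : (0 : ℝ) ≤ 1 / 2) (chr Q (U l - Q l))
    (Finsupp.single a 1 + Finsupp.single b 1)).trans (h d Q U (exp (c * z)) hQ hU hS l hl)
  rw [map_add, Finsupp.weight_single, Finsupp.weight_single, one_smul, one_smul, half_pow,
    mul_one_div, pow_add, div_le_iff₀ (by positivity)] at h1
  have hC0 : C * exp (c * z) ≤ exp ((C + c) * z) := by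
    have := ex_le hC 0 0 c hzr
    rw [pow_zero, mul_one, Nat.cast_zero, zero_mul, add_zero] at this
    exact this
  have h2 : (2 : ℝ) ^ (d a + d b + g l + y * z) ≤
      exp ((c₀ : ℝ) * z) * 2 ^ (g a + g b + d l) := by
    refine pw_le ?_ (by positivity)
    have : ((d a + d b + g l + y * z : ℕ) : ℝ) ≤ ((g a + g b + d l + c₀ * z : ℕ) : ℝ) := by
      exact_mod_cast hlev
    push_cast at this ⊢
    linarith
  have h3 : (2 : ℝ) ^ g l / (2 ^ g a * 2 ^ g b) * (1 / 2 ^ d l * (2 ^ d a * 2 ^ d b)) ≤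
      exp ((c₀ : ℝ) * z) / 2 ^ (y * z) := by
    rw [one_div, ← div_eq_inv_mul, div_mul_div_comm, div_le_div_iff₀ (by positivity) (by positivity),
      ← pow_add, ← pow_add, ← pow_add, ← pow_add, ← pow_add]
    have e1 : g l + (d a + d b) + y * z = d a + d b + g l + y * z := by ring
    rw [e1]
    exact h2
  calc (2 : ℝ) ^ g l / (2 ^ g a * 2 ^ g b) *
        |coeff (Finsupp.single a 1 + Finsupp.single b 1) (chr Q (U l - Q l))|
      ≤ 2 ^ g l / (2 ^ g a * 2 ^ g b) * (C * (exp (c * z) / 2 ^ d l) * (2 ^ d a * 2 ^ d b)) := by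
        gcongr
    _ = (C * exp (c * z)) * (2 ^ g l / (2 ^ g a * 2 ^ g b) * (1 / 2 ^ d l * (2 ^ d a * 2 ^ d b))) := by
        ring
    _ ≤ exp ((C + c) * z) * (exp ((c₀ : ℝ) * z) / 2 ^ (y * z)) := by
        gcongr
    _ = _ := by
        rw [← mul_div_assoc, ← exp_add]
        ring_nf

/-- **The mixed second derivatives at the centre of an affine frame.** -/
theorem pt_small (n K c₀ : ℕ) (c : ℝ) (hc : 0 ≤ c) : ∃ c' : ℝ, 0 ≤ c' ∧
    ∀ (z y : ℕ) (g gS g1 g2 : ℕ → ℕ) (P Q U : ℕ → PN), 1 ≤ z → Tg K n P → Tg K n Q → Tg K n U →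
    (∀ l, (P l).totalDegree ≤ 1) → (∀ l, (Q l).totalDegree ≤ 1) → Sp g P Q n (exp (c * z)) →
    Sp gS Q U n (exp (c * z)) → Sp g1 Q U n (exp (c * z)) → Sp g2 Q U n (exp (c * z)) →
    ∀ l ≤ n,
    (∀ a b, 1 ≤ a → a < l → 1 ≤ b → b < l →
      g2 a + g2 b + g l + y * z ≤ g a + g b + g2 l + c₀ * z) →
    (∀ a, 1 ≤ a → a < l → gS a + gS 0 + g l + y * z ≤ g a + g 0 + gS l + c₀ * z ∨
      g1 a + g1 0 + g l + y * z ≤ g a + g 0 + g1 l + c₀ * z) →
    ∀ x : ℕ → ℝ, (∀ u < l, zs Q x u = 0) → ∀ k, 1 ≤ k →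
    2 ^ g l / (2 ^ g k * 2 ^ g 0) * |eval x (Dj P k (Dj P 0 (U l)))| ≤
      exp (c' * z) / 2 ^ (y * z) := by
  obtain ⟨c₁, h1, hco⟩ := co2_le n K c₀ c hc
  obtain ⟨c₂, h2, hMM⟩ := MM_le n K c hc
  have hn0 : (0 : ℝ) ≤ n := Nat.cast_nonneg n
  refine ⟨2 * n + (2 * c₂ + (c₁ + 1)), by positivity, ?_⟩
  intro z y g gS g1 g2 P Q U hz hP hQ hU dP dQ hPQ hS h1' h2' l hl hr ht x hx k hk
  have hzr : (1 : ℝ) ≤ z := by exact_mod_cast hz
  have hv := hU.tri l
  -- the terms
  have hT : ∀ a b, 1 ≤ a → a < l → b < l →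
      2 ^ g l / (2 ^ g a * 2 ^ g b) * |eval x (Dj Q a (Dj Q b (U l)))| ≤
        exp ((c₁ + 1) * z) / 2 ^ (y * z) := by
    intro a b ha hal hbl
    have e1 : eval x (Dj Q a (Dj Q b (U l))) =
        coeff (Finsupp.single a 1 + Finsupp.single b 1) (chr Q (U l - Q l)) *
          ((Finsupp.single a 1 : ℕ →₀ ℕ) b + 1) := by
      have f1 : (pderiv a (pderiv b (chr Q (U l)))).vars ⊆ range l := by
        rw [← chr_Dj hQ.tri, ← chr_Dj hQ.tri]
        exact chr_vars hQ.tri (Dj_vars hQ.tri (Dj_vars hQ.tri hv b) a)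
      rw [Dj2_eval hQ.tri, eval_ctr f1 hx, coeff_pderiv, coeff_pderiv, zero_add,
        co_dif hQ.tri dQ (U l) l (by
          rw [map_add, Finsupp.degree_single, Finsupp.degree_single])]
      simp
    have e2 : ((Finsupp.single a 1 : ℕ →₀ ℕ) b : ℝ) + 1 ≤ 2 := by
      by_cases h : b = a
      · rw [h, Finsupp.single_eq_same]
        norm_num
      · rw [Finsupp.single_eq_of_ne h]
        norm_num
    have e3 : 2 ^ g l / (2 ^ g a * 2 ^ g b) *
        |coeff (Finsupp.single a 1 + Finsupp.single b 1) (chr Q (U l - Q l))| ≤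
        exp (c₁ * z) / 2 ^ (y * z) := by
      rcases Nat.eq_zero_or_pos b with hb | hb
      · rw [hb]
        rcases ht a ha hal with h | h
        · exact hco z y g gS Q U hz hQ hU hS l hl a 0 h
        · exact hco z y g g1 Q U hz hQ hU h1' l hl a 0 h
      · exact hco z y g g2 Q U hz hQ hU h2' l hl a b (hr a b ha hal hb hbl)
    rw [e1, abs_mul, abs_of_nonneg (by positivity :
      (0 : ℝ) ≤ ((Finsupp.single a 1 : ℕ →₀ ℕ) b : ℝ) + 1)]
    have h22 : (2 : ℝ) ≤ exp (1 * z) := by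
      have := Real.add_one_le_exp (1 * (z : ℝ))
      linarith
    calc 2 ^ g l / (2 ^ g a * 2 ^ g b) *
          (|coeff (Finsupp.single a 1 + Finsupp.single b 1) (chr Q (U l - Q l))| *
            (((Finsupp.single a 1 : ℕ →₀ ℕ) b : ℝ) + 1))
        = (2 ^ g l / (2 ^ g a * 2 ^ g b) *
          |coeff (Finsupp.single a 1 + Finsupp.single b 1) (chr Q (U l - Q l))|) *
            (((Finsupp.single a 1 : ℕ →₀ ℕ) b : ℝ) + 1) := by ring
      _ ≤ exp (c₁ * z) / 2 ^ (y * z) * exp (1 * z) := by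
          refine mul_le_mul e3 (e2.trans h22) (by positivity) (by positivity)
      _ = _ := by
          rw [add_mul, exp_add]
          ring
  -- the sum
  obtain ⟨A, hA⟩ : ∃ A : ℝ, A = exp (c₂ * z) * exp (c₂ * z) * (exp ((c₁ + 1) * z) / 2 ^ (y * z)) :=
    ⟨_, rfl⟩
  have hA0 : 0 ≤ A := by rw [hA]; positivity
  have hterm : ∀ b ∈ range l, ∀ a ∈ range l,
      |2 ^ g l / (2 ^ g k * 2 ^ g 0) * (mu P Q 0 b * mu P Q k a *
        eval x (Dj Q a (Dj Q b (U l))))| ≤ A := by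
    intro b hb a ha
    have hbl := mem_range.1 hb
    have hal := mem_range.1 ha
    have e1 : 2 ^ g l / (2 ^ g k * 2 ^ g 0) * (mu P Q 0 b * mu P Q k a *
        eval x (Dj Q a (Dj Q b (U l)))) = MM g P Q b 0 * MM g P Q a k *
          (2 ^ g l / (2 ^ g a * 2 ^ g b) * eval x (Dj Q a (Dj Q b (U l)))) := by
      rw [← mu_MM hP.tri hQ.tri dP dQ g 0 b, ← mu_MM hP.tri hQ.tri dP dQ g k a]
      have : (2 : ℝ) ^ g a ≠ 0 := by positivity
      have : (2 : ℝ) ^ g b ≠ 0 := by positivity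
      field_simp
    rw [e1]
    rcases Nat.eq_zero_or_pos a with h0 | h0
    · have e2 : MM g P Q a k = 0 := by
        unfold MM
        rw [if_neg (by omega), kap_zero hP.tri hQ.tri (by omega), sub_zero]
      rw [e2, mul_zero, zero_mul, abs_zero]
      exact hA0
    · rw [abs_mul, abs_mul, abs_mul,
        abs_of_pos (by positivity : (0 : ℝ) < 2 ^ g l / (2 ^ g a * 2 ^ g b)), hA]
      refine mul_le_mul (mul_le_mul (hMM z g P Q hzr hP hQ hPQ b (by omega) 0)
        (hMM z g P Q hzr hP hQ hPQ a (by omega) k) (abs_nonneg _) (exp_pos _).le)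
        (hT a b h0 hal hbl) (by positivity) (by positivity)
  have hsum : 2 ^ g l / (2 ^ g k * 2 ^ g 0) * eval x (Dj P k (Dj P 0 (U l))) =
      ∑ b ∈ range l, ∑ a ∈ range l, 2 ^ g l / (2 ^ g k * 2 ^ g 0) *
        (mu P Q 0 b * mu P Q k a * eval x (Dj Q a (Dj Q b (U l)))) := by
    rw [Dj2_change hP.tri hQ.tri dP dQ k 0 hv, map_sum, Finset.mul_sum]
    refine Finset.sum_congr rfl fun b _ => ?_
    rw [map_sum, Finset.mul_sum]
    refine Finset.sum_congr rfl fun a _ => ?_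
    rw [map_mul, eval_C]
  have hfin : |2 ^ g l / (2 ^ g k * 2 ^ g 0) * eval x (Dj P k (Dj P 0 (U l)))| ≤
      l * (l * A) := by
    rw [hsum]
    refine (Finset.abs_sum_le_sum_abs _ _).trans ?_
    refine (Finset.sum_le_sum fun b hb => (Finset.abs_sum_le_sum_abs _ _).trans
      (Finset.sum_le_sum fun a ha => hterm b hb a ha)).trans ?_
    rw [Finset.sum_const, Finset.sum_const, card_range, nsmul_eq_mul, nsmul_eq_mul]
  rw [abs_mul, abs_of_pos (by positivity : (0 : ℝ) < 2 ^ g l / (2 ^ g k * 2 ^ g 0))] at hfin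
  refine hfin.trans ?_
  have hl' : (l : ℝ) ≤ n := by exact_mod_cast hl
  have hne : (n : ℝ) ≤ exp (n * z) := by
    have := Real.add_one_le_exp ((n : ℝ) * z)
    nlinarith
  have hle : (l : ℝ) ≤ exp (n * z) := hl'.trans hne
  calc (l : ℝ) * (l * A) ≤ exp (n * z) * (exp (n * z) * A) := by
        have : (0 : ℝ) ≤ l := Nat.cast_nonneg l
        gcongr
    _ = _ := by
        rw [hA]
        have e1 : exp ((2 * n + (2 * c₂ + (c₁ + 1))) * (z : ℝ)) =
            exp (n * z) * (exp (n * z) * (exp (c₂ * z) * exp (c₂ * z) * exp ((c₁ + 1) * z))) := by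
          rw [← exp_add, ← exp_add, ← exp_add, ← exp_add]
          ring_nf
        rw [e1]
        ring

end Pool.P4J
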