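import Pool.Agent.H25.P4J.Kh
import Pool.Agent.H25.P4.GfI

/-!
# Remez in the time, over a given event

`rmz_win`: functions of the line with the window which are small at the exact times of the samples
of an event `A` are small on the whole window, off a small part of `A`. `kd_ev`: the mixed second
derivatives of the labels with gain along the line.
-/

set_option autoImplicit false

namespace Pool.P4J

open Finset Real MvPolynomial
open Pool.Agent.H49.Ent Pool.Agent.H32.Dense Pool.STK Pool.KA Pool.K2S Pool.STAT Pool.STAT.Glu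
open Pool.MIC.Frm Pool.FRM Pool.TL25
open Pool.BFL (Pb)
open Pool.P4 (GnL Tg Sp bb pp ppl ppl_eval eval_aeval_ppl nd_aeval pp_X Ct eval_vr)

/-- **Remez on the window**, over an event. -/
theorem rmz_win (N : ℕ) (ι : Type) [Fintype ι] (e : ℝ) (he : 0 < e) : ∃ (κ₀ : ℝ) (z₀ : ℕ),
    0 < κ₀ ∧ ∀ (D : NDat2) (n K J a₀ w₀ z M : ℕ) (lam gam : ℕ → ℝ) (κ κ' C₁ : ℝ) (q : D.Ω → ℝ),
      z₀ ≤ z → κ' ≤ κ₀ → D.Ok2 n K J a₀ w₀ z M lam gam κ C₁ q → D.TmU J w₀ z κ' q → ∀ j ≤ M,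
      ∀ (A : D.Ω → Prop) (f : ι → D.Ω → Polynomial ℝ), (∀ a, Det q (D.wn J (w₀ + j * z)) (f a)) →
      (∀ a ω, 0 < q ω → (f a ω).natDegree ≤ N) →
      (∀ a ω, 0 < q ω → A ω → |(f a ω).eval (D.X ω 0)| ≤ 1) →
      ∃ B : D.Ω → Prop, (∀ ω, B ω → 0 < q ω ∧ A ω) ∧ Pb q (fun ω => A ω ∧ ¬ B ω) ≤ e ∧
        ∀ ω, B ω → ∀ t : ℝ, |t - D.X ω 0| ≤ 1 / 2 ^ (w₀ + j * z) → ∀ a,
          |(f a ω).eval t| ≤ exp (2 * z) := by
  classical
  obtain ⟨η, hη⟩ : ∃ η : ℝ, η = min e 1 := ⟨_, rfl⟩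
  have hη0 : 0 < η := by rw [hη]; exact lt_min he one_pos
  have hη1 : η ≤ 1 := by rw [hη]; exact min_le_right _ _
  have hηe : η ≤ e := by rw [hη]; exact min_le_left _ _
  obtain ⟨C, hC, h⟩ := rmz_det N ι η hη0
  obtain ⟨z₀, hz₀⟩ := exists_nat_ge (4 * C + 4)
  refine ⟨1 / (4 * C), z₀, by positivity, ?_⟩
  intro D n K J a₀ w₀ z M lam gam κ κ' C₁ q hz hκ hO hT j hj A f hf hfd hfA
  have hzz : (z₀ : ℝ) ≤ z := by exact_mod_cast hz
  have hz0 : (0 : ℝ) ≤ z := Nat.cast_nonneg z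
  have hbig : 4 * C + 4 ≤ z := by linarith
  have hzr : (1 : ℝ) ≤ z := by linarith
  obtain ⟨E, hE⟩ : ∃ E : ℝ, E = 1 + 1 / (4 * C) * z := ⟨_, rfl⟩
  have hE1 : 1 ≤ E := by
    rw [hE]
    have : 0 ≤ 1 / (4 * C) * z := by positivity
    linarith
  obtain ⟨z', hz'⟩ : ∃ z' : ℕ, z' = ⌈C * E⌉₊ := ⟨_, rfl⟩
  have hz'1 : C * E ≤ z' := by rw [hz']; exact Nat.le_ceil _
  have hz'2 : (z' : ℝ) < C * E + 1 := by
    rw [hz']
    exact Nat.ceil_lt_add_one (by positivity)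
  have hCE : C * E = C + z / 4 := by
    rw [hE]
    field_simp
  have h2z' : 2 * (z' : ℝ) ≤ z := by
    have : 2 * (z' : ℝ) ≤ 2 * (C + z / 4 + 1) := by linarith
    linarith
  have hz'z : z' ≤ z := by
    have h2 : (z' : ℝ) ≤ z := by
      have : (0 : ℝ) ≤ z' := Nat.cast_nonneg _
      linarith
    exact_mod_cast h2
  have hjM : j * z ≤ M * z := Nat.mul_le_mul_right z hj
  have hthin := hO.thin
  have htop := hO.top
  have hMz : (M + 1) * z = M * z + z := by ring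
  have hwz : w₀ + j * z + z' ≤ J := by omega
  have hT' := hT
  unfold NDat2.TmU at hT'
  have htime := time_cell hO.isLaw (J := J) (w₀ := w₀) (r := w₀ + j * z) (T := D.T)
    (ln := D.ln) (S := κ' * z) (by omega) (by omega) hO.ln_w hT'
  have hκz : κ' * z ≤ E := by
    rw [hE]
    have := mul_le_mul_of_nonneg_right hκ hz0
    linarith
  have hq0 := hO.isLaw.nonneg
  by_cases hPA : η ≤ Pe q A
  · obtain ⟨B, hB1, hB2, hB3⟩ := h J (w₀ + j * z) z' D.Ω (D.Λ × ℕ) q D.T (D.wn J (w₀ + j * z))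
      A E f hO.isLaw hO.T_lt hwz
      (fun ω ω' _ _ h => (Prod.ext_iff.1 h).2) hPA hE1 (by
        have : CH q D.T (fun ω => (D.ln ω, D.T ω / 2 ^ (J - (w₀ + j * z)))) =
          CH q D.T (D.wn J (w₀ + j * z)) := rfl
        rw [← this]
        linarith) hz'1 hf hfd (fun a ω hω hA => by
          rw [← hO.X_zero ω]
          exact hfA a ω hω hA)
    refine ⟨B, hB1, ?_, ?_⟩
    · have e1 : Pb q (fun ω => A ω ∧ ¬ B ω) = Pb q A - Pb q B := by
        unfold Pb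
        rw [← Finset.sum_sub_distrib]
        refine Finset.sum_congr rfl fun ω _ => ?_
        by_cases hA : A ω
        · by_cases hB : B ω
          · rw [if_neg (fun h => h.2 hB), if_pos hA, if_pos hB, sub_self]
          · rw [if_pos ⟨hA, hB⟩, if_pos hA, if_neg hB, sub_zero]
        · have hB : ¬ B ω := fun h => hA (hB1 ω h).2
          rw [if_neg (fun h => hA h.1), if_neg hA, if_neg hB, sub_zero]
      rw [e1, Pb_eq_Pe, Pb_eq_Pe]
      linarith
    · intro ω hω t ht a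
      have h1 := hB3 ω hω t (by rw [← hO.X_zero ω]; exact ht) a
      refine h1.trans ?_
      have e1 : (2 : ℝ) ^ (2 * z') = exp ((2 * z' : ℕ) * Real.log 2) := by
        rw [exp_nat_mul, exp_log (by norm_num)]
      rw [e1]
      refine exp_le_exp.2 ?_
      have hl2 : Real.log 2 ≤ 1 := by linarith [Real.log_two_lt_d9]
      push_cast
      calc 2 * (z' : ℝ) * Real.log 2 ≤ 2 * (z' : ℝ) * 1 :=
            mul_le_mul_of_nonneg_left hl2 (by positivity)
        _ ≤ 2 * z := by linarith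
  · refine ⟨fun _ => False, fun _ h => h.elim, ?_, fun _ h => h.elim⟩
    have e1 : Pb q (fun ω => A ω ∧ ¬ False) = Pe q A := by
      rw [← Pb_eq_Pe]
      congr 1
      funext ω
      simp
    rw [e1]
    push Not at hPA
    linarith

/-- Coarser windows. -/
theorem wn_co {D : NDat2} {J v v' : ℕ} (h1 : v' ≤ v) (h2 : v ≤ J) {ω ω' : D.Ω}
    (h : D.wn J v ω = D.wn J v ω') : D.wn J v' ω = D.wn J v' ω' := by
  rw [← Pool.P4.lwn_wn D h1 h2, ← Pool.P4.lwn_wn D h1 h2, h]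

/-- The closed contexts of a place are a function of the line with the window. -/
theorem bb_wn {D : NDat2} {n K J a₀ w₀ z M : ℕ} {lam gam : ℕ → ℝ} {κ C₁ : ℝ} {q : D.Ω → ℝ}
    (hO : D.Ok2 n K J a₀ w₀ z M lam gam κ C₁ q) {i j r : ℕ} (hi : i ≤ M) (hj : j ≤ M)
    {ω ω' : D.Ω} (hω : 0 < q ω) (hω' : 0 < q ω')
    (h : D.wn J (w₀ + j * z) ω = D.wn J (w₀ + j * z) ω') : bb D i j r ω = bb D i j r ω' := by
  have hjM : j * z ≤ M * z := Nat.mul_le_mul_right z hj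
  have hthin := hO.thin
  have htop := hO.top
  have hMz : (M + 1) * z = M * z + z := by ring
  have h1 : w₀ + (j - r) * z ≤ w₀ + j * z :=
    Nat.add_le_add_left (Nat.mul_le_mul_right z (Nat.sub_le j r)) _
  unfold Pool.P4.bb
  rw [hO.c_wn i hi j hj ω ω' hω hω' h,
    hO.c_wn (i - 1) (by omega) (j - r) (by omega) ω ω' hω hω' (wn_co h1 (by omega) h)]

/-- The mixed second derivative of a label with gain of the line, along the line, in units of
`g`. -/
noncomputable def sdp (D : NDat2) (U : GnL D) (J w₀ : ℕ) (g : ℕ → ℕ) (P : ℕ → PN) (ω : D.Ω)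
    (l k : ℕ) : Polynomial ℝ :=
  Polynomial.C ((2 : ℝ) ^ g l / (2 ^ g k * 2 ^ g 0)) *
    MvPolynomial.aeval (ppl D (D.ln ω)) (Dj P k (Dj P 0 (U.UL l (D.wn J w₀ ω))))

theorem sdp_eval (D : NDat2) (U : GnL D) (J w₀ : ℕ) (g : ℕ → ℕ) (P : ℕ → PN) (ω : D.Ω)
    (l k : ℕ) (t : ℝ) : (sdp D U J w₀ g P ω l k).eval t = 2 ^ g l / (2 ^ g k * 2 ^ g 0) *
      eval (pp D (D.ln ω) t) (Dj P k (Dj P 0 (U.UL l (D.wn J w₀ ω)))) := by
  unfold sdp
  rw [Polynomial.eval_mul, Polynomial.eval_C, eval_aeval_ppl]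

end Pool.P4J
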