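import Pool.Agent.H25.P4.GfI
import Pool.Agent.H35.P4J.Stm

/-!
# P4J, labels with gain over a closed frame: the expansion, static ties in the group

As in P4 (`Pool.Agent.H25.P4.GfD`, `Pool.Agent.H25.P4.GfE`), without the level condition of the third
order: the products of a slow coordinate and the powers `≥ 2` of the time are small by a hypothesis.
-/

set_option autoImplicit false

namespace Pool.P4J

open Finset Real MvPolynomial
open Pool.Agent.H49.Ent Pool.Agent.H32.Dense Pool.STK Pool.STAT Pool.MIC.Frm Pool.FRM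
open Pool.MIC.Fru (gw nat_gw nat_gw0 atT_tri atT_deg)
open Pool.P4L (Lw tz mon_add mon_tz single_mem pair_mem exs_lt exs_deg Sm sm_of mon_le mon_single
  mon_time mon split_exp eval_mon)
open Pool.P4

/-- **Levels**, without the third order. -/
structure Lw4 (n c y z r a : ℕ) (gr : ℕ → Prop) (g g1 g2 : ℕ → ℕ) : Prop where
  t1 : g1 0 + r * z = g 0
  t2 : g2 0 = g 0
  ya : y ≤ a
  q1 : ∀ k, 1 ≤ k → k ≤ n → g2 k + a * z ≤ g k + c * z
  q2 : ∀ l, 1 ≤ l → l ≤ n → g l ≤ g2 l + a * z + c * z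
  s2 : ∀ l k, 1 ≤ l → l ≤ n → 1 ≤ k → k ≤ n → gr l → gr k →
    g1 k + g1 0 + g l + y * z ≤ g k + g 0 + g1 l + c * z

section

variable {n c y z r a : ℕ} {gr : ℕ → Prop} {g g1 g2 : ℕ → ℕ}

theorem Lw4.lw (h : Lw4 n c y z r a gr g g1 g2) : Lw n c y z r a (fun _ => False) g g1 g2 :=
  ⟨h.t1, h.t2, h.ya, h.q1, h.q2, fun _ _ _ _ _ _ h => h.elim, fun _ _ _ _ _ _ h => h.elim⟩

theorem Lw4.lin2 (h : Lw4 n c y z r a gr g g1 g2) {l k m : ℕ}
    (l1 : 1 ≤ l) (ln : l ≤ n) (k1 : 1 ≤ k) (kn : k ≤ n) (hl : gr l) (hk : gr k) :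
    Finsupp.weight g1 (Finsupp.single k 1 + Finsupp.single 0 (m + 1)) + g l + y * z ≤
      Finsupp.weight g (Finsupp.single k 1 + Finsupp.single 0 (m + 1)) + g1 l + c * z := by
  rw [map_add, map_add, Finsupp.weight_single, Finsupp.weight_single, Finsupp.weight_single,
    Finsupp.weight_single, one_smul, one_smul, smul_eq_mul, smul_eq_mul]
  have e1 := h.s2 l k l1 ln k1 kn hl hk
  have e2 : m * g1 0 ≤ m * g 0 := Nat.mul_le_mul_left m (by have := h.t1; omega)
  have e3 : (m + 1) * g1 0 = m * g1 0 + g1 0 := by ring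
  have e4 : (m + 1) * g 0 = m * g 0 + g 0 := by ring
  omega

end

open Classical in
/-- **The expansion**, in the chart. -/
theorem exp_chr {n c y z r a : ℕ} {sl gr : ℕ → Prop} {g g1 g2 : ℕ → ℕ}
    (h : Lw4 n c y z r a gr g g1 g2) (dic : ∀ k, 1 ≤ k → k ≤ n → ¬ sl k → gr k)
    {F : PN} {l N : ℕ} {S S₃ B : ℝ} (hS : 0 ≤ S)
    (hS3 : S * 2 ^ ((n * N + 3) * (c * z)) ≤ S₃) (hB : 1 ≤ B) (hN1 : 1 ≤ N) (l1 : 1 ≤ l)
    (ln : l ≤ n) (hl : gr l) (hv : F.vars ⊆ range l) (hN : F.totalDegree ≤ N)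
    (h1 : nrm g1 (1 / 2) F ≤ S / 2 ^ g1 l) (h2 : nrm g2 (1 / 2) F ≤ S / 2 ^ g2 l)
    (h3 : ∀ k m, 1 ≤ k → k < l → sl k → Sm g l F S₃ (1 / 2 ^ (y * z))
      (Finsupp.single k 1 + Finsupp.single 0 (m + 2)))
    {ζ : ℕ → ℝ} (hζ : ∀ i < l, |ζ i| ≤ B / 2 ^ g i) :
    |eval ζ F - (eval (tz ζ) F + ∑ k ∈ Ico 1 l, coeff (Finsupp.single k 1) F * ζ k +
      ∑ k ∈ (Ico 1 l).filter sl, coeff (Finsupp.single k 1 + Finsupp.single 0 1) F *
        (ζ k * ζ 0))| ≤
      (exs l N).card * (B ^ (l * N) * S₃) / 2 ^ (y * z) / 2 ^ g l := by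
  have hS0 : 0 ≤ S₃ := le_trans (by positivity) hS3
  obtain ⟨f, hf⟩ : ∃ f : (ℕ →₀ ℕ) → ℝ, f = fun α => coeff α F * mon α ζ -
    coeff α F * mon α (tz ζ) := ⟨_, rfl⟩
  obtain ⟨T₁, hT₁⟩ : ∃ T : Finset (ℕ →₀ ℕ), T = (Ico 1 l).image fun k => Finsupp.single k 1 :=
    ⟨_, rfl⟩
  obtain ⟨T₂, hT₂⟩ : ∃ T : Finset (ℕ →₀ ℕ), T = ((Ico 1 l).filter sl).image
    fun k => Finsupp.single k 1 + Finsupp.single 0 1 := ⟨_, rfl⟩
  have e0 : eval ζ F - eval (tz ζ) F = ∑ α ∈ exs l N, f α := by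
    rw [eval_mon hv hN, eval_mon hv hN, ← Finset.sum_sub_distrib, hf]
  have s1 : T₁ ⊆ exs l N := by
    intro α hα
    rw [hT₁, mem_image] at hα
    obtain ⟨k, hk, rfl⟩ := hα
    rw [mem_Ico] at hk
    exact single_mem hN1 hk.2
  have s2 : T₂ ⊆ exs l N := by
    intro α hα
    rw [hT₂, mem_image] at hα
    obtain ⟨k, hk, rfl⟩ := hα
    rw [mem_filter, mem_Ico] at hk
    exact pair_mem hN1 hk.1.1 hk.1.2
  have hdis : Disjoint T₁ T₂ := by
    rw [Finset.disjoint_left]
    intro α h1 h2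
    rw [hT₁, mem_image] at h1
    rw [hT₂, mem_image] at h2
    obtain ⟨k, _, rfl⟩ := h1
    obtain ⟨k', _, he⟩ := h2
    have := congrArg Finsupp.degree he
    rw [map_add, Finsupp.degree_single, Finsupp.degree_single, Finsupp.degree_single] at this
    omega
  have e1 : ∑ α ∈ T₁, f α = ∑ k ∈ Ico 1 l, coeff (Finsupp.single k 1) F * ζ k := by
    rw [hT₁, Finset.sum_image]
    · refine Finset.sum_congr rfl fun k hk => ?_
      rw [mem_Ico] at hk
      rw [hf]
      simp only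
      rw [mon_single, mon_tz hk.1 (by rw [Finsupp.single_eq_same]; exact one_ne_zero), mul_zero,
        sub_zero]
    · intro a _ b _ h
      exact (Finsupp.single_left_injective one_ne_zero) h
  have e2 : ∑ α ∈ T₂, f α = ∑ k ∈ (Ico 1 l).filter sl,
      coeff (Finsupp.single k 1 + Finsupp.single 0 1) F * (ζ k * ζ 0) := by
    rw [hT₂, Finset.sum_image]
    · refine Finset.sum_congr rfl fun k hk => ?_
      rw [mem_filter, mem_Ico] at hk
      rw [hf]
      simp only
      rw [mon_add, mon_single, mon_single, mon_tz hk.1.1 (by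
        rw [Finsupp.add_apply, Finsupp.single_eq_same]
        omega), mul_zero, sub_zero]
    · intro a _ b _ h
      exact (Finsupp.single_left_injective one_ne_zero) (add_right_cancel h)
  have e3 : ∑ α ∈ exs l N, f α = ∑ α ∈ T₁, f α + ∑ α ∈ T₂, f α +
      ∑ α ∈ exs l N \ (T₁ ∪ T₂), f α := by
    rw [← Finset.sum_union hdis, add_comm,
      Finset.sum_sdiff (Finset.union_subset s1 s2)]
  have e4 : eval ζ F - (eval (tz ζ) F + ∑ k ∈ Ico 1 l, coeff (Finsupp.single k 1) F * ζ k +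
      ∑ k ∈ (Ico 1 l).filter sl, coeff (Finsupp.single k 1 + Finsupp.single 0 1) F *
        (ζ k * ζ 0)) = ∑ α ∈ exs l N \ (T₁ ∪ T₂), f α := by
    rw [← e1, ← e2]
    linarith
  rw [e4]
  have hw : ∀ α ∈ exs l N \ (T₁ ∪ T₂), |f α| ≤
      B ^ (l * N) * S₃ / 2 ^ (y * z) / 2 ^ g l := by
    intro α hα
    rw [mem_sdiff, mem_union] at hα
    obtain ⟨hα, hnot⟩ := hα
    by_cases ht : ∀ k, 1 ≤ k → α k = 0
    · have : f α = 0 := by
        rw [hf]
        simp only
        rw [mon_time ht (b := ζ) (b' := tz ζ) (by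
          unfold tz
          rw [if_pos rfl]), sub_self]
      rw [this, abs_zero]
      positivity
    · push Not at ht
      obtain ⟨k, k1, hk⟩ := ht
      have hkl := exs_lt hα (Finsupp.mem_support_iff.2 hk)
      have efa : f α = coeff α F * mon α ζ := by
        rw [hf]
        simp only
        rw [mon_tz k1 hk, mul_zero, sub_zero]
      have hsm : Sm g l F S₃ (1 / 2 ^ (y * z)) α := by
        have lift : ∀ {S' : ℝ}, S' = S * 2 ^ (c * z) → S' ≤ S₃ := by
          intro S' hS'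
          rw [hS']
          refine le_trans ?_ hS3
          refine mul_le_mul_of_nonneg_left (pow_le_pow_right₀ one_le_two ?_) hS
          exact Nat.le_mul_of_pos_left _ (by omega)
        rcases split_exp hk with ⟨k', γ, k1', e⟩ | ⟨m, e⟩
        · rw [e] at hα ⊢
          exact (sm_of hS h2 (h.lw.quad l1 ln k1 k1' hα)).mono hS3 (by positivity)
        · rcases Nat.eq_zero_or_pos m with hm | hm
          · exfalso
            refine hnot (Or.inl ?_)
            rw [e, hm, Finsupp.single_zero, add_zero, hT₁, mem_image]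
            exact ⟨k, mem_Ico.2 ⟨k1, hkl⟩, rfl⟩
          · rcases Nat.lt_or_ge m 2 with hm2 | hm2
            · have hm1 : m = 1 := by omega
              by_cases hs : sl k
              · exfalso
                refine hnot (Or.inr ?_)
                rw [e, hm1, hT₂, mem_image]
                exact ⟨k, mem_filter.2 ⟨mem_Ico.2 ⟨k1, hkl⟩, hs⟩, rfl⟩
              · rw [e, hm1]
                exact (sm_of hS h1 (h.lin2 (m := 0) l1 ln k1 (by omega) hl
                  (dic k k1 (by omega) hs))).mono (lift rfl) (by positivity)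
            · obtain ⟨m', rfl⟩ : ∃ m', m = m' + 2 := ⟨m - 2, by omega⟩
              by_cases hs : sl k
              · rw [e]
                exact h3 k m' k1 hkl hs
              · rw [e]
                exact (sm_of hS h1 (h.lin2 (m := m' + 1) l1 ln k1 (by omega) hl
                  (dic k k1 (by omega) hs))).mono (lift rfl) (by positivity)
      unfold Sm at hsm
      have h3' := mon_le hB hα hζ
      rw [efa, abs_mul]
      calc |coeff α F| * |mon α ζ| ≤ |coeff α F| *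
            (B ^ (l * N) * (1 / 2) ^ Finsupp.weight g α) :=
            mul_le_mul_of_nonneg_left h3' (abs_nonneg _)
        _ = B ^ (l * N) * (|coeff α F| * (1 / 2) ^ Finsupp.weight g α) := by ring
        _ ≤ B ^ (l * N) * (S₃ * (1 / 2 ^ (y * z)) / 2 ^ g l) :=
            mul_le_mul_of_nonneg_left hsm (by positivity)
        _ = _ := by ring
  refine (Finset.abs_sum_le_sum_abs _ _).trans ((Finset.sum_le_sum hw).trans ?_)
  rw [Finset.sum_const, nsmul_eq_mul]
  have hcard : ((exs l N \ (T₁ ∪ T₂)).card : ℝ) ≤ (exs l N).card := by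
    exact_mod_cast Finset.card_le_card sdiff_subset
  calc ((exs l N \ (T₁ ∪ T₂)).card : ℝ) *
        (B ^ (l * N) * S₃ / 2 ^ (y * z) / 2 ^ g l)
      ≤ (exs l N).card * (B ^ (l * N) * S₃ / 2 ^ (y * z) / 2 ^ g l) :=
        mul_le_mul_of_nonneg_right hcard (by positivity)
    _ = _ := by ring

/-! ### Natural units -/

/-- The coefficient of the product of the power `m` of the time and the coordinate `k`, natural
units. -/
noncomputable def km (g : ℕ → ℕ) (P U : ℕ → PN) (l k m : ℕ) : ℝ :=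
  2 ^ g l / (2 ^ g k * (2 ^ g 0) ^ m) *
    coeff (Finsupp.single k 1 + Finsupp.single 0 m) (chr P (U l - P l))

theorem sm_km {g : ℕ → ℕ} {P U : ℕ → PN} {l k m : ℕ} {S δ : ℝ} (h : |km g P U l k m| ≤ S / δ) :
    Sm g l (chr P (U l - P l)) S (1 / δ) (Finsupp.single k 1 + Finsupp.single 0 m) := by
  unfold Sm
  unfold km at h
  rw [abs_mul, abs_of_pos (by positivity : (0 : ℝ) < 2 ^ g l / (2 ^ g k * (2 ^ g 0) ^ m))] at h
  rw [map_add, Finsupp.weight_single, Finsupp.weight_single, one_smul, smul_eq_mul, half_pow,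
    pow_add, mul_comm m, pow_mul, le_div_iff₀ (by positivity)]
  calc |coeff (Finsupp.single k 1 + Finsupp.single 0 m) (chr P (U l - P l))| *
        (1 / (2 ^ g k * (2 ^ g 0) ^ m)) * 2 ^ g l
      = 2 ^ g l / (2 ^ g k * (2 ^ g 0) ^ m) *
          |coeff (Finsupp.single k 1 + Finsupp.single 0 m) (chr P (U l - P l))| := by ring
    _ ≤ S / δ := h
    _ = S * (1 / δ) := by ring

open Classical in
/-- **The expansion**, natural units. -/
theorem exp_nat (n K c : ℕ) (C b : ℝ) (hC : 0 ≤ C) (hb : 0 ≤ b) : ∃ c' : ℝ, 0 ≤ c' ∧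
    ∀ (z y r a : ℕ) (sl gr : ℕ → Prop) (g g1 g2 : ℕ → ℕ), 1 ≤ z → Lw4 n c y z r a gr g g1 g2 →
    (∀ k, 1 ≤ k → k ≤ n → ¬ sl k → gr k) → ∀ P U : ℕ → PN, Tg K n P → Tg K n U →
    Sp g1 P U n (exp (C * z)) → Sp g2 P U n (exp (C * z)) → ∀ l, 1 ≤ l → l ≤ n → gr l →
    (∀ k m, 1 ≤ k → k < l → sl k → |km g P U l k (m + 2)| ≤ exp (C * z) / 2 ^ (y * z)) →
    ∀ x : ℕ → ℝ, Bx g P l (exp (b * z)) x →
      |2 ^ g l * (eval x (U l) - eval x (P l)) - (ptm g P U l x +
        ∑ k ∈ Ico 1 l, kap g P U l k * nat g P x k +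
        ∑ k ∈ (Ico 1 l).filter sl, ka1 g P U l k * (nat g P x k * nat g P x 0))| ≤
        exp (c' * z) / 2 ^ (y * z) := by
  obtain ⟨C₀, hC₀, h⟩ := nrm_dif n K
  obtain ⟨N, hN⟩ : ∃ N : ℕ, N = K * (K + 1) ^ n + 1 := ⟨_, rfl⟩
  obtain ⟨A, hA⟩ : ∃ A : ℝ, A = ∑ m ∈ range (n + 1), ((exs m N).card : ℝ) := ⟨_, rfl⟩
  have hA0 : 0 ≤ A := by
    rw [hA]
    exact Finset.sum_nonneg fun _ _ => Nat.cast_nonneg _
  refine ⟨A + n * N * b + (C₀ + 1 + C) + (n * N + 3) * c, by positivity, ?_⟩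
  intro z y r a sl gr g g1 g2 hz hL dic P U hP hU hS1 hS2 l l1 ln hl hkm x hx
  have hzr : (1 : ℝ) ≤ z := by exact_mod_cast hz
  have hv : (U l - P l).vars ⊆ range l := AdxRow.vars_sub_le (hU.tri l) (hP.tri l)
  have hdd : (U l - P l).totalDegree ≤ K :=
    (totalDegree_sub _ _).trans (max_le (hU.deg l ln) (hP.deg l ln))
  have hK' : (chr P (U l - P l)).totalDegree ≤ N := by
    refine (chr_deg hP.tri (fun i hi => hP.deg i (by omega)) hv hdd).trans ?_
    rw [hN]
    exact (Nat.mul_le_mul_left _ (Nat.pow_le_pow_right (Nat.succ_pos _) ln)).trans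
      (Nat.le_succ _)
  have h2p : (1 : ℝ) ≤ 2 ^ ((n * N + 3) * (c * z)) := one_le_pow₀ one_le_two
  have key := exp_chr hL dic (F := chr P (U l - P l)) (N := N) (S := C₀ * exp (C * z))
    (S₃ := (C₀ + 1) * exp (C * z) * 2 ^ ((n * N + 3) * (c * z)))
    (B := exp (b * z)) (by positivity) (by
      refine mul_le_mul_of_nonneg_right ?_ (by positivity)
      exact mul_le_mul_of_nonneg_right (by linarith) (exp_pos _).le) (ex_one hb hzr) (by omega) l1 ln hl
    (chr_vars hP.tri hv) hK' (by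
      refine (h g1 P U (exp (C * z)) hP hU hS1 l ln).trans (le_of_eq ?_)
      ring) (by
      refine (h g2 P U (exp (C * z)) hP hU hS2 l ln).trans (le_of_eq ?_)
      ring) (fun k m k1 hkl hs => by
      refine (sm_km (hkm k m k1 hkl hs)).mono ?_ (by positivity)
      calc exp (C * z) = 1 * exp (C * z) * 1 := by ring
        _ ≤ (C₀ + 1) * exp (C * z) * 2 ^ ((n * N + 3) * (c * z)) := by
          refine mul_le_mul (mul_le_mul_of_nonneg_right (by linarith) (exp_pos _).le) h2p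
            zero_le_one (by positivity)) (ζ := zs P x) (fun k hk => by
      have := hx k hk
      rw [nat_eq, abs_mul, abs_of_pos (by positivity : (0 : ℝ) < 2 ^ g k)] at this
      rw [le_div_iff₀ (by positivity)]
      linarith)
  have e1 : 2 ^ g l * (eval x (U l) - eval x (P l)) - (ptm g P U l x +
        ∑ k ∈ Ico 1 l, kap g P U l k * nat g P x k +
        ∑ k ∈ (Ico 1 l).filter sl, ka1 g P U l k * (nat g P x k * nat g P x 0)) =
      2 ^ g l * (eval (zs P x) (chr P (U l - P l)) - (eval (tz (zs P x)) (chr P (U l - P l)) +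
        ∑ k ∈ Ico 1 l, coeff (Finsupp.single k 1) (chr P (U l - P l)) * zs P x k +
        ∑ k ∈ (Ico 1 l).filter sl, coeff (Finsupp.single k 1 + Finsupp.single 0 1)
          (chr P (U l - P l)) * (zs P x k * zs P x 0))) := by
    rw [chr_eval hP.tri, map_sub, mul_sub (2 ^ g l) (eval x (U l) - eval x (P l)), mul_add,
      mul_add, Finset.mul_sum, Finset.mul_sum]
    congr 2
    · congr 1
      refine Finset.sum_congr rfl fun k _ => ?_
      unfold Pool.P4.kap
      rw [nat_eq]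
      have : (2 : ℝ) ^ g k ≠ 0 := by positivity
      field_simp
    · refine Finset.sum_congr rfl fun k _ => ?_
      unfold ka1
      rw [nat_eq, nat_eq]
      have : (2 : ℝ) ^ g k ≠ 0 := by positivity
      have : (2 : ℝ) ^ g 0 ≠ 0 := by positivity
      field_simp
  rw [e1, abs_mul, abs_of_pos (by positivity : (0 : ℝ) < 2 ^ g l)]
  refine (mul_le_mul_of_nonneg_left key (by positivity)).trans ?_
  have hcard : ((exs l N).card : ℝ) ≤ A := by
    rw [hA]
    exact Finset.single_le_sum (f := fun m => ((exs m N).card : ℝ))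
      (fun m _ => Nat.cast_nonneg _) (mem_range.2 (by omega))
  have hAe : A ≤ exp (A * z) := by
    have := Real.add_one_le_exp (A * z)
    nlinarith
  have hB : exp (b * z) ^ (l * N) ≤ exp (n * N * b * z) := by
    rw [← Real.exp_nat_mul]
    refine exp_le_exp.2 ?_
    push_cast
    have h1 : (l : ℝ) * N ≤ n * N := mul_le_mul_of_nonneg_right (by exact_mod_cast ln)
      (Nat.cast_nonneg _)
    have h2 : 0 ≤ b * z := mul_nonneg hb (by linarith)
    nlinarith
  have hC0 : (C₀ + 1) * exp (C * z) ≤ exp ((C₀ + 1 + C) * z) := by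
    have h10 : (1 : ℝ) ≤ C₀ + 1 := by linarith
    have := ex_le h10 0 0 C hzr
    rw [pow_zero, mul_one, Nat.cast_zero, zero_mul, add_zero] at this
    exact this
  have h2e : (2 : ℝ) ^ ((n * N + 3) * (c * z)) ≤ exp ((n * N + 3) * c * z) := by
    have := pw_le (a := (n * N + 3) * (c * z)) (b := 0) (x := (n * N + 3) * c * z) (by
      push_cast
      linarith) (by positivity)
    rw [pow_zero, mul_one] at this
    exact this
  calc (2 : ℝ) ^ g l * ((exs l N).card * (exp (b * z) ^ (l * N) * ((C₀ + 1) * exp (C * z) *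
        2 ^ ((n * N + 3) * (c * z)))) / 2 ^ (y * z) / 2 ^ g l)
      = (exs l N).card * (exp (b * z) ^ (l * N) * ((C₀ + 1) * exp (C * z) *
        2 ^ ((n * N + 3) * (c * z)))) / 2 ^ (y * z) := by field_simp
    _ ≤ exp (A * z) * (exp (n * N * b * z) * (exp ((C₀ + 1 + C) * z) *
        exp ((n * N + 3) * c * z))) / 2 ^ (y * z) := by
        have := hcard.trans hAe
        gcongr
    _ = _ := by
        rw [← exp_add, ← exp_add, ← exp_add]
        ring_nf

/-- **The expansion**, finite index sets: the height over a label with gain. -/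
theorem exp_fin (n K c₀ : ℕ) (C b : ℝ) (hC : 0 ≤ C) (hb : 0 ≤ b) : ∃ c' : ℝ, 0 ≤ c' ∧
    ∀ (z y r a c k : ℕ) (Sl Gr : ℕ → Prop) (ys : Fin k → ℕ) (gs : Fin c → ℕ) (g g1 g2 : ℕ → ℕ),
    1 ≤ z → Ix n c k Sl Gr ys gs → Lw4 n c₀ y z r a Gr g g1 g2 → ∀ P U : ℕ → PN, Tg K n P →
    Tg K n U → Sp g1 P U n (exp (C * z)) → Sp g2 P U n (exp (C * z)) → ∀ v : Fin c,
    (∀ k m, 1 ≤ k → k < gs v → Sl k → |km g P U (gs v) k (m + 2)| ≤ exp (C * z) / 2 ^ (y * z)) →
    ∀ x : ℕ → ℝ, Bx g P (gs v) (exp (b * z)) x →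
      |2 ^ g (gs v) * (x (gs v) - eval x (U (gs v))) -
        (∑ u, MM g P U (gs v) (gs u) * nat g P x (gs u) -
          ∑ e, (kap g P U (gs v) (ys e) + ka1 g P U (gs v) (ys e) * nat g P x 0) *
            nat g P x (ys e) - ptm g P U (gs v) x)| ≤ exp (c' * z) / 2 ^ (y * z) := by
  classical
  obtain ⟨c', h0, h⟩ := exp_nat n K c₀ C b hC hb
  refine ⟨c', h0, ?_⟩
  intro z y r a c k Sl Gr ys gs g g1 g2 hz hI hL P U hP hU hS1 hS2 v hkm x hx
  have hv1 := hI.di.g1 _ (hI.gs_gr v)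
  have key := h z y r a Sl Gr g g1 g2 hz hL (fun k k1 kn hk => (hI.dic k k1 kn).resolve_left hk)
    P U hP hU hS1 hS2 (gs v) hv1.1 hv1.2 (hI.gs_gr v) hkm x hx
  obtain ⟨l, hl⟩ : ∃ l, l = gs v := ⟨_, rfl⟩
  rw [← hl] at key hv1 ⊢
  have e1 : ∑ k ∈ Ico 1 l, kap g P U l k * nat g P x k =
      ∑ k ∈ Ico 1 (n + 1), kap g P U l k * nat g P x k := by
    refine Finset.sum_subset (fun k hk => ?_) fun k _ hk' => ?_
    · rw [mem_Ico] at hk ⊢
      omega
    · rw [kap_zero hP.tri hU.tri (by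
        rw [mem_Ico] at hk'
        rename_i hk
        rw [mem_Ico] at hk
        omega), zero_mul]
  have e2 : ∑ k ∈ (Ico 1 l).filter Sl, ka1 g P U l k * (nat g P x k * nat g P x 0) =
      ∑ e, ka1 g P U l (ys e) * (nat g P x (ys e) * nat g P x 0) := by
    have f1 : ∑ k ∈ (Ico 1 l).filter Sl, ka1 g P U l k * (nat g P x k * nat g P x 0) =
        ∑ k ∈ Ico 1 (n + 1), if Sl k then ka1 g P U l k * (nat g P x k * nat g P x 0) else 0 := by
      rw [Finset.sum_filter]
      refine Finset.sum_subset (fun k hk => ?_) fun k hk hk' => ?_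
      · rw [mem_Ico] at hk ⊢
        omega
      · split_ifs
        · rw [mem_Ico] at hk hk'
          rw [ka1_zero hP.tri hU.tri (by omega), zero_mul]
        · rfl
    rw [f1, hI.sum]
    have f2 : ∑ u, (if Sl (gs u) then ka1 g P U l (gs u) * (nat g P x (gs u) * nat g P x 0)
        else 0) = 0 := by
      refine Finset.sum_eq_zero fun u _ => ?_
      rw [if_neg]
      intro hs
      exact hI.di.dis _ hs (hI.gs_gr u)
    rw [f2, zero_add]
    refine Finset.sum_congr rfl fun e _ => ?_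
    rw [if_pos (hI.ys_sl e)]
  rw [e1, e2, hI.sum] at key
  have e3 : ∑ u, MM g P U l (gs u) * nat g P x (gs u) = nat g P x l -
      ∑ u, kap g P U l (gs u) * nat g P x (gs u) := by
    unfold MM
    simp only [sub_mul, Finset.sum_sub_distrib, ite_mul, one_mul, zero_mul]
    congr 1
    rw [hl]
    have : ∀ u, (if gs v = gs u then nat g P x (gs u) else 0) =
        if u = v then nat g P x (gs v) else 0 := by
      intro u
      by_cases h' : u = v
      · rw [h', if_pos rfl, if_pos rfl]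
      · rw [if_neg h', if_neg]
        intro e
        exact h' (hI.gs_in.injective e.symm)
    rw [Finset.sum_congr rfl fun u _ => this u, Finset.sum_ite_eq' univ v, if_pos (mem_univ _)]
  have e4 : ∑ e, (kap g P U l (ys e) + ka1 g P U l (ys e) * nat g P x 0) * nat g P x (ys e) =
      ∑ e, kap g P U l (ys e) * nat g P x (ys e) +
        ∑ e, ka1 g P U l (ys e) * (nat g P x (ys e) * nat g P x 0) := by
    rw [← Finset.sum_add_distrib]
    exact Finset.sum_congr rfl fun e _ => by ring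
  rw [e3, e4]
  have e5 : 2 ^ g l * (x l - eval x (U l)) -
      (nat g P x l - ∑ u, kap g P U l (gs u) * nat g P x (gs u) -
        (∑ e, kap g P U l (ys e) * nat g P x (ys e) +
          ∑ e, ka1 g P U l (ys e) * (nat g P x (ys e) * nat g P x 0)) - ptm g P U l x) =
      -(2 ^ g l * (eval x (U l) - eval x (P l)) - (ptm g P U l x +
        (∑ u, kap g P U l (gs u) * nat g P x (gs u) + ∑ e, kap g P U l (ys e) *
          nat g P x (ys e)) + ∑ e, ka1 g P U l (ys e) * (nat g P x (ys e) * nat g P x 0))) := by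
    unfold nat
    ring
  rw [e5, abs_neg]
  exact key

/-- **The difference of the heights over a label with gain.** -/
theorem exp_dif (n K c₀ : ℕ) (C b : ℝ) (hC : 0 ≤ C) (hb : 0 ≤ b) : ∃ c' : ℝ, 0 ≤ c' ∧
    ∀ (z y r a c k : ℕ) (Sl Gr : ℕ → Prop) (ys : Fin k → ℕ) (gs : Fin c → ℕ) (g g1 g2 : ℕ → ℕ),
    1 ≤ z → k ≤ n → Ix n c k Sl Gr ys gs → Lw4 n c₀ y z r a Gr g g1 g2 → ∀ P U : ℕ → PN,
    Tg K n P → Tg K n U → Sp g P U n (exp (C * z)) → Sp g1 P U n (exp (C * z)) →
    Sp g2 P U n (exp (C * z)) → ∀ v : Fin c,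
    (∀ k m, 1 ≤ k → k < gs v → Sl k → |km g P U (gs v) k (m + 2)| ≤ exp (C * z) / 2 ^ (y * z)) →
    ∀ x x' : ℕ → ℝ, Bx g P (gs v) (exp (b * z)) x →
    Bx g P (gs v) (exp (b * z)) x' → ∀ δ : ℝ, 0 ≤ δ → |nat g P x 0 - nat g P x' 0| ≤ δ →
      |(∑ u, MM g P U (gs v) (gs u) * (nat g P x (gs u) - nat g P x' (gs u)) -
          ∑ e, (kap g P U (gs v) (ys e) + ka1 g P U (gs v) (ys e) * nat g P x' 0) *
            (nat g P x (ys e) - nat g P x' (ys e))) -
        (2 ^ g (gs v) * (x (gs v) - eval x (U (gs v))) -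
          2 ^ g (gs v) * (x' (gs v) - eval x' (U (gs v))))| ≤
        exp (c' * z) * (1 / 2 ^ (y * z) + δ) := by
  classical
  obtain ⟨c₁, h1, h⟩ := exp_fin n K c₀ C b hC hb
  obtain ⟨c₂, h2, hp⟩ := ptm_dif n K C b hC hb
  obtain ⟨c₃, h3, hk⟩ := ka1_le n K C hC
  refine ⟨c₁ + c₂ + (n + c₃ + b) + 3, by positivity, ?_⟩
  intro z y r a c k Sl Gr ys gs g g1 g2 hz hkn hI hL P U hP hU hS0 hS1 hS2 v hkm x x' hx hx' δ hδ hd
  have hzr : (1 : ℝ) ≤ z := by exact_mod_cast hz
  have hv1 := hI.di.g1 _ (hI.gs_gr v)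
  have a1 := h z y r a c k Sl Gr ys gs g g1 g2 hz hI hL P U hP hU hS1 hS2 v hkm x hx
  have a2 := h z y r a c k Sl Gr ys gs g g1 g2 hz hI hL P U hP hU hS1 hS2 v hkm x' hx'
  have a3 := hp z g P U hzr hP hU hS0 (gs v) hv1.2 x x' (hx 0 hv1.1) (hx' 0 hv1.1) δ hδ hd
  obtain ⟨l, hl⟩ : ∃ l, l = gs v := ⟨_, rfl⟩
  rw [← hl] at a1 a2 a3 hv1 ⊢
  have hxl : Bx g P l (exp (b * z)) x := by
    rw [hl]
    exact hx
  have a4 : |∑ e, ka1 g P U l (ys e) * (nat g P x 0 - nat g P x' 0) * nat g P x (ys e)| ≤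
      k * (exp (c₃ * z) * δ * exp (b * z)) := by
    have := sum_bd univ (fun e : Fin k => ka1 g P U l (ys e) * (nat g P x 0 - nat g P x' 0) *
      nat g P x (ys e)) (B := exp (c₃ * z) * δ * exp (b * z)) (fun e _ => by
        rcases Nat.lt_or_ge (ys e) l with hlt | hge
        · rw [abs_mul, abs_mul]
          exact mul_le_mul (mul_le_mul (hk z g P U hzr hP hU hS0 l hv1.2 _) hd (abs_nonneg _)
            (exp_pos _).le) (hxl _ hlt) (abs_nonneg _) (by positivity)
        · rw [ka1_zero hP.tri hU.tri hge, zero_mul, zero_mul, abs_zero]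
          positivity)
    rwa [card_univ, Fintype.card_fin] at this
  obtain ⟨G, hG⟩ : ∃ G : ℝ, G = 2 ^ g l * (x l - eval x (U l)) := ⟨_, rfl⟩
  obtain ⟨G', hG'⟩ : ∃ G' : ℝ, G' = 2 ^ g l * (x' l - eval x' (U l)) := ⟨_, rfl⟩
  rw [← hG] at a1 ⊢
  rw [← hG'] at a2 ⊢
  have e1 : (∑ u, MM g P U l (gs u) * (nat g P x (gs u) - nat g P x' (gs u)) -
      ∑ e, (kap g P U l (ys e) + ka1 g P U l (ys e) * nat g P x' 0) *
        (nat g P x (ys e) - nat g P x' (ys e))) - (G - G') =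
      -(G - (∑ u, MM g P U l (gs u) * nat g P x (gs u) -
          ∑ e, (kap g P U l (ys e) + ka1 g P U l (ys e) * nat g P x 0) * nat g P x (ys e) -
          ptm g P U l x)) +
      (G' - (∑ u, MM g P U l (gs u) * nat g P x' (gs u) -
          ∑ e, (kap g P U l (ys e) + ka1 g P U l (ys e) * nat g P x' 0) * nat g P x' (ys e) -
          ptm g P U l x')) + (ptm g P U l x - ptm g P U l x') +
      ∑ e, ka1 g P U l (ys e) * (nat g P x 0 - nat g P x' 0) * nat g P x (ys e) := by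
    have f1 : ∑ u, MM g P U l (gs u) * (nat g P x (gs u) - nat g P x' (gs u)) =
        ∑ u, MM g P U l (gs u) * nat g P x (gs u) - ∑ u, MM g P U l (gs u) * nat g P x' (gs u) := by
      rw [← Finset.sum_sub_distrib]
      exact Finset.sum_congr rfl fun u _ => by ring
    have f2 : ∑ e, (kap g P U l (ys e) + ka1 g P U l (ys e) * nat g P x' 0) *
        (nat g P x (ys e) - nat g P x' (ys e)) =
        ∑ e, (kap g P U l (ys e) + ka1 g P U l (ys e) * nat g P x 0) * nat g P x (ys e) -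
        ∑ e, (kap g P U l (ys e) + ka1 g P U l (ys e) * nat g P x' 0) * nat g P x' (ys e) -
        ∑ e, ka1 g P U l (ys e) * (nat g P x 0 - nat g P x' 0) * nat g P x (ys e) := by
      rw [← Finset.sum_sub_distrib, ← Finset.sum_sub_distrib]
      exact Finset.sum_congr rfl fun e _ => by ring
    rw [f1, f2]
    ring
  rw [e1]
  obtain ⟨X1, hX1⟩ : ∃ X1 : ℝ, X1 = G - (∑ u, MM g P U l (gs u) * nat g P x (gs u) -
          ∑ e, (kap g P U l (ys e) + ka1 g P U l (ys e) * nat g P x 0) * nat g P x (ys e) -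
          ptm g P U l x) := ⟨_, rfl⟩
  obtain ⟨X2, hX2⟩ : ∃ X2 : ℝ, X2 = G' - (∑ u, MM g P U l (gs u) * nat g P x' (gs u) -
          ∑ e, (kap g P U l (ys e) + ka1 g P U l (ys e) * nat g P x' 0) * nat g P x' (ys e) -
          ptm g P U l x') := ⟨_, rfl⟩
  rw [← hX1] at a1 ⊢
  rw [← hX2] at a2 ⊢
  have b1 : |-X1 + X2 + (ptm g P U l x - ptm g P U l x') +
      ∑ e, ka1 g P U l (ys e) * (nat g P x 0 - nat g P x' 0) * nat g P x (ys e)| ≤
      exp (c₁ * z) / 2 ^ (y * z) + exp (c₁ * z) / 2 ^ (y * z) + exp (c₂ * z) * δ +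
        k * (exp (c₃ * z) * δ * exp (b * z)) := by
    refine (abs_add_le _ _).trans (add_le_add ?_ a4)
    refine (abs_add_le _ _).trans (add_le_add ?_ a3)
    refine (abs_add_le _ _).trans (add_le_add ?_ a2)
    rw [abs_neg]
    exact a1
  refine b1.trans ?_
  have h2' : (2 : ℝ) ≤ exp (1 * z) := by
    have := Real.add_one_le_exp (1 * (z : ℝ))
    linarith
  have m1 : 2 * exp (c₁ * z) ≤ exp ((c₁ + c₂ + (n + c₃ + b) + 3) * z) := by
    calc 2 * exp (c₁ * z) ≤ exp (1 * z) * exp (c₁ * z) := by gcongr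
      _ = exp ((c₁ + 1) * z) := by rw [← exp_add]; ring_nf
      _ ≤ _ := ex_mono (by
        have : (0 : ℝ) ≤ n := Nat.cast_nonneg n
        linarith) hzr
  have m2 : exp (c₂ * z) + k * (exp (c₃ * z) * exp (b * z)) ≤
      exp ((c₁ + c₂ + (n + c₃ + b) + 3) * z) := by
    have hkk : (k : ℝ) ≤ exp (n * z) := by
      have h5 : (k : ℝ) ≤ n := by exact_mod_cast hkn
      have := Real.add_one_le_exp ((n : ℝ) * z)
      have : (0 : ℝ) ≤ n := Nat.cast_nonneg n
      nlinarith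
    have h6 : k * (exp (c₃ * z) * exp (b * z)) ≤ exp ((n + c₃ + b) * z) := by
      calc (k : ℝ) * (exp (c₃ * z) * exp (b * z)) ≤ exp (n * z) * (exp (c₃ * z) * exp (b * z)) := by
            gcongr
        _ = _ := by rw [← exp_add, ← exp_add]; ring_nf
    refine (add_le_add le_rfl h6).trans ((ex_add hzr).trans (ex_mono ?_ hzr))
    rw [abs_of_nonneg h2, abs_of_nonneg (by positivity)]
    linarith
  have e2 : exp (c₁ * z) / 2 ^ (y * z) + exp (c₁ * z) / 2 ^ (y * z) + exp (c₂ * z) * δ +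
      k * (exp (c₃ * z) * δ * exp (b * z)) = (2 * exp (c₁ * z)) * (1 / 2 ^ (y * z)) +
      (exp (c₂ * z) + k * (exp (c₃ * z) * exp (b * z))) * δ := by ring
  rw [e2, mul_add]
  exact add_le_add (mul_le_mul_of_nonneg_right m1 (by positivity))
    (mul_le_mul_of_nonneg_right m2 hδ)

end Pool.P4J
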