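import Pool.Agent.H25.P4J.Kl

/-!
# P4J, labels with gain over a closed frame: the expansion, static ties in the group

As in P4I (`Pool.Agent.H25.P4I.GfE`): the coordinates above are finer than the coordinates of the
proper group at the longer window, they do not enter into the labels of the proper group.
-/

set_option autoImplicit false

namespace Pool.P4J

open Finset Real MvPolynomial
open Pool.Agent.H49.Ent Pool.Agent.H32.Dense Pool.STK Pool.STAT Pool.MIC.Frm Pool.FRM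
open Pool.MIC.Fru (gw nat_gw nat_gw0 atT_tri atT_deg)
open Pool.P4

/-- **Levels** with coordinates above. -/
structure Lw3 (n c y z r a : ℕ) (Gp Ab : ℕ → Prop) (g g1 g2 : ℕ → ℕ) : Prop where
  lw : Lw4 n c y z r a Gp g g1 g2
  s5 : ∀ l k, 1 ≤ l → l ≤ n → 1 ≤ k → k ≤ n → Gp l → Ab k →
    g1 k + g l + y * z ≤ g k + g1 l + c * z

/-- The index sets: `gs` lists the proper group, `ys` lists the slow coordinates. -/
structure Ix3 (n c k : ℕ) (Sl Gp Ab : ℕ → Prop) (ys : Fin k → ℕ) (gs : Fin c → ℕ) : Prop where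
  ys_sl : ∀ a, Sl (ys a)
  ys_in : Function.Injective ys
  ys_on : ∀ l, Sl l → ∃ a, ys a = l
  gs_gp : ∀ u, Gp (gs u)
  gs_in : StrictMono gs
  gs_on : ∀ l, Gp l → ∃ u, gs u = l
  dic : ∀ l, 1 ≤ l → l ≤ n → Sl l ∨ Gp l ∨ Ab l
  s1 : ∀ l, Sl l → 1 ≤ l ∧ l < n
  g1 : ∀ l, Gp l → 1 ≤ l ∧ l ≤ n
  a1 : ∀ l, Ab l → 1 ≤ l ∧ l < n
  sg : ∀ l, Sl l → ¬ Gp l
  sa : ∀ l, Sl l → ¬ Ab l
  ag : ∀ l, Ab l → ¬ Gp l

section ix

variable {n c k : ℕ} {Sl Gp Ab : ℕ → Prop} {ys : Fin k → ℕ} {gs : Fin c → ℕ}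

open Classical in
/-- The coordinates above as additional slow coordinates. -/
theorem Ix3.ext (h : Ix3 n c k Sl Gp Ab ys gs) : ∃ (k' : ℕ) (ys' : Fin k' → ℕ), k' ≤ n ∧
    Ix n c k' (fun l => Sl l ∨ Ab l) Gp ys' gs ∧ ∀ f : ℕ → ℝ,
      ∑ e, f (ys' e) = ∑ e, f (ys e) + ∑ l ∈ (Ico 1 n).filter Ab, f l := by
  obtain ⟨T, hT⟩ : ∃ T : Finset ℕ, T = (Ico 1 n).filter fun l => Sl l ∨ Ab l := ⟨_, rfl⟩
  have hm : ∀ l, l ∈ T ↔ Sl l ∨ Ab l := by
    intro l
    rw [hT, mem_filter, mem_Ico]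
    constructor
    · exact fun h => h.2
    · rintro (h1 | h1)
      · exact ⟨h.s1 l h1, Or.inl h1⟩
      · exact ⟨h.a1 l h1, Or.inr h1⟩
  refine ⟨T.card, fun e => (T.equivFin.symm e : ℕ), ?_, ?_, ?_⟩
  · have h1 : T.card ≤ (Ico 1 n).card := card_le_card (by rw [hT]; exact filter_subset _ _)
    rw [Nat.card_Ico] at h1
    omega
  · exact
      { ys_sl := fun e => (hm _).1 (T.equivFin.symm e).2
        ys_in := fun e e' he => T.equivFin.symm.injective (Subtype.ext he)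
        ys_on := fun l hl => ⟨T.equivFin ⟨l, (hm l).2 hl⟩, by rw [Equiv.symm_apply_apply]⟩
        gs_gr := h.gs_gp
        gs_in := h.gs_in
        gs_on := h.gs_on
        dic := fun l h1 h2 => by
          rcases h.dic l h1 h2 with h3 | h3 | h3
          · exact Or.inl (Or.inl h3)
          · exact Or.inr h3
          · exact Or.inl (Or.inr h3)
        di :=
          { s1 := fun l hl => hl.elim (h.s1 l) (h.a1 l)
            g1 := h.g1
            dis := fun l hl => hl.elim (h.sg l) (h.ag l) } }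
  · intro f
    have e1 : ∑ e, f (T.equivFin.symm e : ℕ) = ∑ l ∈ T, f l := by
      rw [← Finset.sum_coe_sort T f]
      exact Equiv.sum_comp T.equivFin.symm fun x : T => f x
    have e2 : T = (univ.image ys) ∪ (Ico 1 n).filter Ab := by
      ext l
      rw [hm, mem_union, mem_image, mem_filter, mem_Ico]
      constructor
      · rintro (h1 | h1)
        · obtain ⟨a, ha⟩ := h.ys_on l h1
          exact Or.inl ⟨a, mem_univ _, ha⟩
        · exact Or.inr ⟨h.a1 l h1, h1⟩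
      · rintro (⟨a, _, rfl⟩ | ⟨_, h1⟩)
        · exact Or.inl (h.ys_sl a)
        · exact Or.inr h1
    have hd : Disjoint (univ.image ys) ((Ico 1 n).filter Ab) := by
      rw [Finset.disjoint_left]
      intro l h1 h2
      rw [mem_image] at h1
      rw [mem_filter] at h2
      obtain ⟨a, _, rfl⟩ := h1
      exact h.sa _ (h.ys_sl a) h2.2
    rw [e1, e2, Finset.sum_union hd, Finset.sum_image (fun _ _ _ _ h' => h.ys_in h')]

open Classical in
theorem Ix3.sum (h : Ix3 n c k Sl Gp Ab ys gs) (f : ℕ → ℝ) :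
    ∑ l ∈ Ico 1 (n + 1), f l = ∑ u, f (gs u) + (∑ a, f (ys a) +
      ∑ l ∈ (Ico 1 n).filter Ab, f l) := by
  obtain ⟨k', ys', _, hI, hs⟩ := h.ext
  rw [hI.sum, hs]

theorem Ix3.ne (h : Ix3 n c k Sl Gp Ab ys gs) (u : Fin c) (a : Fin k) : gs u ≠ ys a := by
  intro e
  have := h.sg _ (h.ys_sl a)
  rw [← e] at this
  exact this (h.gs_gp u)

theorem Ix3.c_le (h : Ix3 n c k Sl Gp Ab ys gs) : c ≤ n := by
  obtain ⟨k', ys', _, hI, _⟩ := h.ext
  exact hI.c_le

theorem Ix3.k_le (h : Ix3 n c k Sl Gp Ab ys gs) : k ≤ n := by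
  have h1 : (univ.image ys).card ≤ (Icc 1 n).card := by
    refine Finset.card_le_card fun l hl => ?_
    rw [mem_image] at hl
    obtain ⟨u, _, rfl⟩ := hl
    have := h.s1 _ (h.ys_sl u)
    exact mem_Icc.2 ⟨this.1, this.2.le⟩
  rw [Finset.card_image_of_injective _ h.ys_in, card_univ, Fintype.card_fin,
    Nat.card_Icc] at h1
  omega

end ix

/-- The ratio of the levels. -/
theorem lev_ab {z y c₀ : ℕ} {g g1 : ℕ → ℕ} {l k : ℕ}
    (h : g1 k + g l + y * z ≤ g k + g1 l + c₀ * z) :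
    (2 : ℝ) ^ g l / 2 ^ g1 l * (2 ^ g1 k / 2 ^ g k) ≤ exp ((c₀ : ℝ) * z) / 2 ^ (y * z) := by
  have h1 : (2 : ℝ) ^ (g l + g1 k + y * z) ≤ exp ((c₀ : ℝ) * z) * 2 ^ (g1 l + g k) := by
    refine pw_le ?_ (by positivity)
    have : ((g1 k + g l + y * z : ℕ) : ℝ) ≤ ((g k + g1 l + c₀ * z : ℕ) : ℝ) := by
      exact_mod_cast h
    push_cast at this ⊢
    linarith
  rw [div_mul_div_comm, div_le_div_iff₀ (by positivity) (by positivity), ← pow_add, ← pow_add,
    ← pow_add]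
  exact h1

/-- **The coordinates above do not enter**, linear part. -/
theorem kap_ab (n K c₀ : ℕ) (c : ℝ) (hc : 0 ≤ c) : ∃ c' : ℝ, 0 ≤ c' ∧
    ∀ (z y : ℕ) (g g1 : ℕ → ℕ) (P U : ℕ → PN), 1 ≤ z → Tg K n P → Tg K n U →
    Sp g1 P U n (exp (c * z)) → ∀ l ≤ n, ∀ k, g1 k + g l + y * z ≤ g k + g1 l + c₀ * z →
    |kap g P U l k| ≤ exp (c' * z) / 2 ^ (y * z) := by
  obtain ⟨c₁, h1, h⟩ := kap_le n K c hc
  refine ⟨c₁ + c₀, by positivity, ?_⟩
  intro z y g g1 P U hz hP hU hS l hl k hk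
  have hzr : (1 : ℝ) ≤ z := by exact_mod_cast hz
  have e1 := h z g g1 P U hzr hP hU hS l hl k
  refine e1.trans ((mul_le_mul_of_nonneg_left (lev_ab hk) (exp_pos _).le).trans (le_of_eq ?_))
  rw [← mul_div_assoc, ← exp_add]
  ring_nf

/-- **The coordinates above do not enter**, the products with the time. -/
theorem ka1_ab (n K c₀ : ℕ) (c : ℝ) (hc : 0 ≤ c) : ∃ c' : ℝ, 0 ≤ c' ∧
    ∀ (z y : ℕ) (g g1 : ℕ → ℕ) (P U : ℕ → PN), 1 ≤ z → Tg K n P → Tg K n U →
    Sp g1 P U n (exp (c * z)) → g1 0 ≤ g 0 → ∀ l ≤ n, ∀ k,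
    g1 k + g l + y * z ≤ g k + g1 l + c₀ * z →
    |ka1 g P U l k| ≤ exp (c' * z) / 2 ^ (y * z) := by
  obtain ⟨C, hC, h⟩ := nrm_dif n K
  refine ⟨C + c + c₀, by positivity, ?_⟩
  intro z y g g1 P U hz hP hU hS h0 l hl k hk
  have hzr : (1 : ℝ) ≤ z := by exact_mod_cast hz
  have h1 := (coeff_le_nrm g1 (by norm_num : (0 : ℝ) ≤ 1 / 2) (chr P (U l - P l))
    (Finsupp.single k 1 + Finsupp.single 0 1)).trans (h g1 P U (exp (c * z)) hP hU hS l hl)
  rw [map_add, Finsupp.weight_single, Finsupp.weight_single, one_smul, one_smul, half_pow,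
    mul_one_div, pow_add, div_le_iff₀ (by positivity)] at h1
  unfold ka1
  rw [abs_mul, abs_of_pos (by positivity : (0 : ℝ) < 2 ^ g l / (2 ^ g k * 2 ^ g 0))]
  have hC0 : C * exp (c * z) ≤ exp ((C + c) * z) := by
    have := ex_le hC 0 0 c hzr
    rw [pow_zero, mul_one, Nat.cast_zero, zero_mul, add_zero] at this
    exact this
  have h2 : (2 : ℝ) ^ g1 0 / 2 ^ g 0 ≤ 1 := by
    rw [div_le_one (by positivity)]
    exact pow_le_pow_right₀ one_le_two h0
  calc (2 : ℝ) ^ g l / (2 ^ g k * 2 ^ g 0) * |coeff (Finsupp.single k 1 + Finsupp.single 0 1)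
        (chr P (U l - P l))|
      ≤ 2 ^ g l / (2 ^ g k * 2 ^ g 0) * (C * (exp (c * z) / 2 ^ g1 l) *
          (2 ^ g1 k * 2 ^ g1 0)) := by gcongr
    _ = C * exp (c * z) * (2 ^ g l / 2 ^ g1 l * (2 ^ g1 k / 2 ^ g k)) *
          (2 ^ g1 0 / 2 ^ g 0) := by field_simp
    _ ≤ exp ((C + c) * z) * (exp ((c₀ : ℝ) * z) / 2 ^ (y * z)) * 1 := by
        refine mul_le_mul (mul_le_mul hC0 (lev_ab hk) (by positivity) (exp_pos _).le) h2
          (by positivity) (by positivity)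
    _ = _ := by
        rw [mul_one, ← mul_div_assoc, ← exp_add]
        ring_nf

/-- **The coordinates above do not enter**, the products with the powers of the time. -/
theorem km_ab (n K c₀ : ℕ) (c : ℝ) (hc : 0 ≤ c) : ∃ c' : ℝ, 0 ≤ c' ∧
    ∀ (z y : ℕ) (g g1 : ℕ → ℕ) (P U : ℕ → PN), 1 ≤ z → Tg K n P → Tg K n U →
    Sp g1 P U n (exp (c * z)) → g1 0 ≤ g 0 → ∀ l ≤ n, ∀ k m,
    g1 k + g l + y * z ≤ g k + g1 l + c₀ * z →
    |km g P U l k m| ≤ exp (c' * z) / 2 ^ (y * z) := by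
  obtain ⟨C, hC, h⟩ := nrm_dif n K
  refine ⟨C + c + c₀, by positivity, ?_⟩
  intro z y g g1 P U hz hP hU hS h0 l hl k m hk
  have hzr : (1 : ℝ) ≤ z := by exact_mod_cast hz
  have h1 := (coeff_le_nrm g1 (by norm_num : (0 : ℝ) ≤ 1 / 2) (chr P (U l - P l))
    (Finsupp.single k 1 + Finsupp.single 0 m)).trans (h g1 P U (exp (c * z)) hP hU hS l hl)
  rw [map_add, Finsupp.weight_single, Finsupp.weight_single, one_smul, smul_eq_mul, half_pow,
    mul_one_div, pow_add, mul_comm m, pow_mul, div_le_iff₀ (by positivity)] at h1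
  unfold km
  rw [abs_mul, abs_of_pos (by positivity : (0 : ℝ) < 2 ^ g l / (2 ^ g k * (2 ^ g 0) ^ m))]
  have hC0 : C * exp (c * z) ≤ exp ((C + c) * z) := by
    have := ex_le hC 0 0 c hzr
    rw [pow_zero, mul_one, Nat.cast_zero, zero_mul, add_zero] at this
    exact this
  have h2 : (2 : ℝ) ^ g1 0 / 2 ^ g 0 ≤ 1 := by
    rw [div_le_one (by positivity)]
    exact pow_le_pow_right₀ one_le_two h0
  have h3 : ((2 : ℝ) ^ g1 0 / 2 ^ g 0) ^ m ≤ 1 := pow_le_one₀ (by positivity) h2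
  calc (2 : ℝ) ^ g l / (2 ^ g k * (2 ^ g 0) ^ m) * |coeff (Finsupp.single k 1 +
        Finsupp.single 0 m) (chr P (U l - P l))|
      ≤ 2 ^ g l / (2 ^ g k * (2 ^ g 0) ^ m) * (C * (exp (c * z) / 2 ^ g1 l) *
          (2 ^ g1 k * (2 ^ g1 0) ^ m)) := by gcongr
    _ = C * exp (c * z) * (2 ^ g l / 2 ^ g1 l * (2 ^ g1 k / 2 ^ g k)) *
          (2 ^ g1 0 / 2 ^ g 0) ^ m := by
        rw [div_pow]
        field_simp
    _ ≤ exp ((C + c) * z) * (exp ((c₀ : ℝ) * z) / 2 ^ (y * z)) * 1 := by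
        refine mul_le_mul (mul_le_mul hC0 (lev_ab hk) (by positivity) (exp_pos _).le) h3
          (by positivity) (by positivity)
    _ = _ := by
        rw [mul_one, ← mul_div_assoc, ← exp_add]
        ring_nf

/-- **The difference of the heights over a label with gain.** -/
theorem exp_dif3 (n K c₀ : ℕ) (C b : ℝ) (hC : 0 ≤ C) (hb : 0 ≤ b) : ∃ c' : ℝ, 0 ≤ c' ∧
    ∀ (z y r a c k : ℕ) (Sl Gp Ab : ℕ → Prop) (ys : Fin k → ℕ) (gs : Fin c → ℕ)
    (g g1 g2 : ℕ → ℕ), 1 ≤ z → Ix3 n c k Sl Gp Ab ys gs → Lw3 n c₀ y z r a Gp Ab g g1 g2 →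
    ∀ P U : ℕ → PN, Tg K n P → Tg K n U → Sp g P U n (exp (C * z)) →
    Sp g1 P U n (exp (C * z)) → Sp g2 P U n (exp (C * z)) → ∀ v : Fin c,
    (∀ k m, Sl k → |km g P U (gs v) k (m + 2)| ≤ exp (C * z) / 2 ^ (y * z)) → ∀ x x' : ℕ → ℝ,
    Bx g P (gs v) (exp (b * z)) x → Bx g P (gs v) (exp (b * z)) x' → ∀ δ : ℝ, 0 ≤ δ →
    |nat g P x 0 - nat g P x' 0| ≤ δ →
      |(∑ u, MM g P U (gs v) (gs u) * (nat g P x (gs u) - nat g P x' (gs u)) -
          ∑ e, (kap g P U (gs v) (ys e) + ka1 g P U (gs v) (ys e) * nat g P x' 0) *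
            (nat g P x (ys e) - nat g P x' (ys e))) -
        (2 ^ g (gs v) * (x (gs v) - eval x (U (gs v))) -
          2 ^ g (gs v) * (x' (gs v) - eval x' (U (gs v))))| ≤
        exp (c' * z) * (1 / 2 ^ (y * z) + δ) := by
  classical
  obtain ⟨c₆, h6, hkm6⟩ := km_ab n K c₀ C hC
  obtain ⟨c₇, hc₇⟩ : ∃ c₇ : ℝ, c₇ = max C c₆ := ⟨_, rfl⟩
  have h7 : 0 ≤ c₇ := by rw [hc₇]; exact hC.trans (le_max_left _ _)
  have h7C : C ≤ c₇ := by rw [hc₇]; exact le_max_left _ _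
  have h76 : c₆ ≤ c₇ := by rw [hc₇]; exact le_max_right _ _
  obtain ⟨c₁, h1, hdif⟩ := exp_dif n K c₀ c₇ b h7 hb
  obtain ⟨c₂, h2, hkap⟩ := kap_ab n K c₀ C hC
  obtain ⟨c₃, h3, hka1⟩ := ka1_ab n K c₀ C hC
  obtain ⟨c₅, hc₅⟩ : ∃ c₅ : ℝ, c₅ = n + (c₂ + (c₃ + b) + 1) + (b + 1) := ⟨_, rfl⟩
  have h5 : 0 ≤ c₅ := by rw [hc₅]; positivity
  refine ⟨c₁ + c₅ + 1, by linarith, ?_⟩
  intro z y r a c k Sl Gp Ab ys gs g g1 g2 hz hI hL P U hP hU hS0 hS1 hS2 v hkm x x' hx hx' δ hδ hd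
  have hzr : (1 : ℝ) ≤ z := by exact_mod_cast hz
  obtain ⟨k', ys', hk', hI', hs⟩ := hI.ext
  have h01' : g1 0 ≤ g 0 := by
    have := hL.lw.t1
    omega
  have m7 : ∀ {s : ℝ}, s ≤ c₇ → exp (s * z) ≤ exp (c₇ * z) := fun h => ex_mono h hzr
  have key := hdif z y r a c k' (fun l => Sl l ∨ Ab l) Gp ys' gs g g1 g2 hz hk' hI' hL.lw P U hP
    hU (hS0.mono le_rfl (m7 h7C)) (hS1.mono le_rfl (m7 h7C)) (hS2.mono le_rfl (m7 h7C)) v
    (fun k m k1 kv hk => by
      have hgv := hI.g1 _ (hI.gs_gp v)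
      rcases hk with hk | hk
      · exact (hkm k m hk).trans (div_le_div_of_nonneg_right (m7 h7C) (by positivity))
      · exact (hkm6 z y g g1 P U hz hP hU hS1 h01' (gs v) hgv.2 k (m + 2)
          (hL.s5 (gs v) k hgv.1 hgv.2 k1 (by omega) (hI.gs_gp v) hk)).trans
          (div_le_div_of_nonneg_right (m7 h76) (by positivity))) x x' hx hx' δ hδ hd
  rw [hs fun l => (kap g P U (gs v) l + ka1 g P U (gs v) l * nat g P x' 0) *
    (nat g P x l - nat g P x' l)] at key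
  have hv1 := hI.g1 _ (hI.gs_gp v)
  obtain ⟨W, hW⟩ : ∃ W : ℝ, W = ∑ l ∈ (Ico 1 n).filter Ab,
    (kap g P U (gs v) l + ka1 g P U (gs v) l * nat g P x' 0) *
      (nat g P x l - nat g P x' l) := ⟨_, rfl⟩
  have h01 : g1 0 ≤ g 0 := by
    have := hL.lw.t1
    omega
  have hWb : |W| ≤ exp (c₅ * z) * (1 / 2 ^ (y * z)) := by
    rw [hW]
    refine (sum_bd _ _ (B := (exp (c₂ * z) / 2 ^ (y * z) + exp (c₃ * z) / 2 ^ (y * z) *
      exp (b * z)) * (exp (b * z) + exp (b * z))) fun l hl => ?_).trans ?_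
    · rw [mem_filter, mem_Ico] at hl
      rcases Nat.lt_or_ge l (gs v) with hlt | hge
      · have s5 := hL.s5 (gs v) l hv1.1 hv1.2 hl.1.1 (by omega) (hI.gs_gp v) hl.2
        have a1 := hkap z y g g1 P U hz hP hU hS1 (gs v) hv1.2 l s5
        have a2 := hka1 z y g g1 P U hz hP hU hS1 h01 (gs v) hv1.2 l s5
        rw [abs_mul]
        refine mul_le_mul ?_ ?_ (abs_nonneg _) (by positivity)
        · refine (abs_add_le _ _).trans (add_le_add a1 ?_)
          rw [abs_mul]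
          exact mul_le_mul a2 (hx' 0 hv1.1) (abs_nonneg _) (by positivity)
        · exact (abs_sub _ _).trans (add_le_add (hx l hlt) (hx' l hlt))
      · rw [kap_zero hP.tri hU.tri hge, ka1_zero hP.tri hU.tri hge, zero_mul, add_zero, zero_mul,
          abs_zero]
        positivity
    · have hcd : (((Ico 1 n).filter Ab).card : ℝ) ≤ exp (n * z) := by
        have f1 : ((Ico 1 n).filter Ab).card ≤ n := by
          have := (card_le_card (filter_subset Ab (Ico 1 n)))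
          rw [Nat.card_Ico] at this
          omega
        have f2 : (((Ico 1 n).filter Ab).card : ℝ) ≤ n := by exact_mod_cast f1
        have f3 := Real.add_one_le_exp ((n : ℝ) * z)
        have f4 : (0 : ℝ) ≤ n := Nat.cast_nonneg n
        nlinarith
      have h22 : (2 : ℝ) ≤ exp (1 * z) := by
        have := Real.add_one_le_exp (1 * (z : ℝ))
        linarith
      have g1' : exp (c₂ * z) + exp (c₃ * z) * exp (b * z) ≤
          exp ((c₂ + (c₃ + b) + 1) * z) := by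
        rw [← exp_add, ← add_mul]
        have := ex_add (c := c₂) (c' := c₃ + b) hzr
        rwa [abs_of_nonneg h2, abs_of_nonneg (by linarith)] at this
      have g2' : exp (b * z) + exp (b * z) ≤ exp ((b + 1) * z) := by
        calc exp (b * z) + exp (b * z) = exp (b * z) * 2 := by ring
          _ ≤ exp (b * z) * exp (1 * z) := mul_le_mul_of_nonneg_left h22 (exp_pos _).le
          _ = _ := by rw [← exp_add]; ring_nf
      calc (((Ico 1 n).filter Ab).card : ℝ) * ((exp (c₂ * z) / 2 ^ (y * z) +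
            exp (c₃ * z) / 2 ^ (y * z) * exp (b * z)) * (exp (b * z) + exp (b * z)))
          = (((Ico 1 n).filter Ab).card : ℝ) * ((exp (c₂ * z) + exp (c₃ * z) * exp (b * z)) *
            (exp (b * z) + exp (b * z))) * (1 / 2 ^ (y * z)) := by ring
        _ ≤ exp (n * z) * (exp ((c₂ + (c₃ + b) + 1) * z) * exp ((b + 1) * z)) *
            (1 / 2 ^ (y * z)) := by
            refine mul_le_mul_of_nonneg_right ?_ (by positivity)
            exact mul_le_mul hcd (mul_le_mul g1' g2' (by positivity) (exp_pos _).le)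
              (by positivity) (exp_pos _).le
        _ = _ := by
            rw [← exp_add, ← exp_add, hc₅]
            ring_nf
  rw [← hW] at key
  obtain ⟨A, hA⟩ : ∃ A : ℝ, A = ∑ u, MM g P U (gs v) (gs u) *
    (nat g P x (gs u) - nat g P x' (gs u)) := ⟨_, rfl⟩
  obtain ⟨Y, hY⟩ : ∃ Y : ℝ, Y = ∑ e, (kap g P U (gs v) (ys e) + ka1 g P U (gs v) (ys e) *
    nat g P x' 0) * (nat g P x (ys e) - nat g P x' (ys e)) := ⟨_, rfl⟩
  obtain ⟨G, hG⟩ : ∃ G : ℝ, G = 2 ^ g (gs v) * (x (gs v) - eval x (U (gs v))) -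
    2 ^ g (gs v) * (x' (gs v) - eval x' (U (gs v))) := ⟨_, rfl⟩
  rw [← hA, ← hY, ← hG] at key
  rw [← hA, ← hY, ← hG]
  have e1 : A - Y - G = (A - (Y + W) - G) + W := by ring
  rw [e1]
  have h2y : (0 : ℝ) ≤ 1 / 2 ^ (y * z) := by positivity
  refine (abs_add_le _ _).trans ((add_le_add key hWb).trans ?_)
  have f1 : exp (c₁ * z) + exp (c₅ * z) ≤ exp ((c₁ + c₅ + 1) * z) := by
    have := ex_add (c := c₁) (c' := c₅) hzr
    rwa [abs_of_nonneg h1, abs_of_nonneg h5] at this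
  calc exp (c₁ * z) * (1 / 2 ^ (y * z) + δ) + exp (c₅ * z) * (1 / 2 ^ (y * z))
      ≤ exp (c₁ * z) * (1 / 2 ^ (y * z) + δ) + exp (c₅ * z) * (1 / 2 ^ (y * z) + δ) :=
        add_le_add le_rfl (mul_le_mul_of_nonneg_left (le_add_of_nonneg_right hδ) (exp_pos _).le)
    _ = (exp (c₁ * z) + exp (c₅ * z)) * (1 / 2 ^ (y * z) + δ) := by ring
    _ ≤ _ := mul_le_mul_of_nonneg_right f1 (by positivity)

end Pool.P4J
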