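import Pool.Agent.H25.P4J.Ko

/-!
# P4J, labels with gain over a closed frame: visible side and line side, static ties in the group

`gf_cl3`: the covector of a label with gain over the visible frame, moved to the closed frame, is
the covector of the line side; both only over the proper group.
-/

set_option autoImplicit false

namespace Pool.P4J

open Finset Real MvPolynomial
open Pool.Agent.H49.Ent Pool.Agent.H32.Dense Pool.STK Pool.STAT Pool.MIC.Frm Pool.FRM
open Pool.MIC.Fru (gw nat_gw nat_gw0 atT_tri atT_deg)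
open Pool.P4L (tz Lw lv_ok)
open Pool.P4

/-- **Visible side and line side.** -/
theorem gf_cl3 (n K : ℕ) (C C' C₁ b : ℝ) (hC : 0 ≤ C) (hC' : 0 ≤ C') (hC₁ : 0 ≤ C₁)
    (hb : 0 ≤ b) : ∃ c' : ℝ, 0 ≤ c' ∧
    ∀ (D : NDat2) (U : GnL D) (R : ℕ → Prop) (K₁ J a₀ w₀ z M Q : ℕ) (lam gt gam : ℕ → ℝ) (κ : ℝ)
      (q : D.Ω → ℝ), D.Ok2 n K₁ J a₀ w₀ z M lam gt κ C₁ q → U.Ok n K₁ J a₀ w₀ z M Q R C₁ q →
      K₁ ≤ K → 1 ≤ z → (∀ l, 1 ≤ l → l ≤ n → lam l = 1) → ∀ (i i₂ j r r' a y c k : ℕ)
      (ys : Fin k → ℕ) (gs : Fin c → ℕ), Ix3 n c k (sl gam n) (gp gam n) (ab gam n) ys gs →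
      Num n M i j r r' y gt (sl gam n) (gr gam n) → exp (c' * z) ≤ 2 ^ (a * z) →
      ∀ (P V : ℕ → PN) (ω : D.Ω), 0 < q ω → P3i D n K z M i i₂ j r r' a y gt gam C P ω →
      GoodU D U n J w₀ z M R C' ω → Tg K n V →
      Sp (gw (a₀ + i * z) (D.g i j)) (atT (D.X ω 0) V) (atT (D.X ω 0) (D.Ψ i j ω)) n
        (exp (C * z)) →
      Sp (gw (a₀ + (i - a) * z) (D.g (i - a) j)) (atT (D.X ω 0) V)
        (atT (D.X ω 0) (D.Ψ (i - a) j ω)) n (exp (C * z)) →
      Sp (gw (a₀ + i₂ * z) (D.g i₂ (j - r))) (atT (D.X ω 0) V)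
        (atT (D.X ω 0) (D.Ψ i₂ (j - r) ω)) n (exp (C * z)) →
      Rly n y z r gt (gw (a₀ + i * z) (D.g i j)) (atT (D.X ω 0) P) (atT (D.X ω 0) V)
        (exp (b * z)) (exp (C * z)) (exp (C * z) / 2 ^ (a * z)) →
      ∀ v : Fin c, Ct n R (gs v) → KmS D U n J w₀ z i j y gam R C' P ω (gs v) →
      (∀ w : Fin c, |MM (gw (a₀ + i * z) (D.g i j)) (atT (D.X ω 0) V)
        (atT (D.X ω 0) (uD U n R V (D.pt ω))) (gs v) (gs w)| ≤ exp (c' * z)) ∧
      ∀ u : Fin c,
      |∑ w, MM (gw (a₀ + i * z) (D.g i j)) (atT (D.X ω 0) V)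
          (atT (D.X ω 0) (uD U n R V (D.pt ω))) (gs v) (gs w) *
          MM (gw (a₀ + i * z) (D.g i j)) (atT (D.X ω 0) P) (atT (D.X ω 0) V) (gs w) (gs u) -
        cvL U n R (D.g i j) P (D.wn J w₀ ω) (gs v) (gs u)| ≤
        exp (c' * z) * (1 / 2 ^ (y * z) + 1 / 2 ^ (Q * z)) := by
  classical
  obtain ⟨c₁, c₀, h1, hu⟩ := p3_u3 n K C C' C₁ hC hC' hC₁
  obtain ⟨c₂, h2, rad⟩ := rad_sp n K C hC
  obtain ⟨c₃, h3, hud⟩ := ud_ul n K c₂ C₁ 0 h2 le_rfl
  obtain ⟨c₅, hc₅⟩ : ∃ c₅ : ℝ, c₅ = |C| + |(0 : ℝ)| + 2 := ⟨_, rfl⟩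
  have h5 : 0 ≤ c₅ := by rw [hc₅]; positivity
  obtain ⟨cm, hcm⟩ : ∃ cm : ℝ, cm = max c₁ C' := ⟨_, rfl⟩
  have hm0 : 0 ≤ cm := by rw [hcm]; exact h1.trans (le_max_left _ _)
  obtain ⟨c₄, h4, hdif⟩ := exp_dif3 n K c₀ cm c₅ hm0 h5
  obtain ⟨c₆, h6, hur⟩ := u_rad n K C C₁ hC hC₁
  obtain ⟨c₇, hc₇⟩ : ∃ c₇ : ℝ, c₇ = c₆ + 2 * C₁ := ⟨_, rfl⟩
  have h7 : 0 ≤ c₇ := by rw [hc₇]; linarith only [hC₁, h6]
  obtain ⟨c₈, h8, hkaf⟩ := kaf_le n K c₇ C h7 hC
  obtain ⟨c₉, h9, hMM⟩ := MM_le n K c₇ h7
  obtain ⟨c₁₀, h10, hkab⟩ := kap_ab n K c₀ c₆ h6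
  have hn0 : (0 : ℝ) ≤ n := Nat.cast_nonneg n
  obtain ⟨c', hc'⟩ : ∃ c' : ℝ, c' = c₇ + c₄ + c₃ + c₈ + (n + c₉ + C) + (n + c₁₀ + C + 3) + 9 := ⟨_, rfl⟩
  refine ⟨c', by rw [hc']; positivity, ?_⟩
  intro D U R K₁ J a₀ w₀ z M Q lam gt gam κ q hO hU hK hz hlam i i₂ j r r' a y c k ys gs hI hN haz P V
    ω hω hP hG hV v0 v2 v1 hR v hv hkm
  have hzr : (1 : ℝ) ≤ z := by exact_mod_cast hz
  have he' : ∀ t : ℝ, t ≤ c' → exp (t * z) ≤ exp (c' * z) := fun t ht => ex_mono ht hzr
  have hjr := hP.jr
  have hrj := hP.rj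
  have hai := hP.ai
  have hiM := hP.iM
  have hya := hP.ya
  have hi2 := hP.i2
  have hjM : j ≤ M := by omega
  have hl1 := hv.1
  have hln := hv.2.1
  obtain ⟨hL, hUt, s0, s1, s2⟩ := hu D U R K₁ J a₀ w₀ z M Q lam gt gam κ q hO hU hK hz hlam i i₂ j r
    r' a y P ω hP hG
  have hrd := rad D K₁ J a₀ w₀ z M lam gt κ C₁ q hO hK hz i hiM j hjM ω hω P hP.tg hP.e0
  exact by
   have hPt := hP.tg.tri
   have uD0 := (hur D U R K₁ J a₀ w₀ z M Q lam gt κ q hO hU hK hz i hiM j hjM ω hω V hV v0).1
   have uD2 := (hur D U R K₁ J a₀ w₀ z M Q lam gt κ q hO hU hK hz (i - a) (by omega) j hjM ω hω V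
     hV v2).1
   have uD1 := (hur D U R K₁ J a₀ w₀ z M Q lam gt κ q hO hU hK hz i₂ (by omega) (j - r)
     (by omega) ω hω V hV v1).1
   obtain ⟨d, hd⟩ : ∃ d, d = gw (a₀ + i * z) (D.g i j) := ⟨_, rfl⟩
   obtain ⟨Pt, hPd⟩ : ∃ Pt, Pt = atT (D.X ω 0) P := ⟨_, rfl⟩
   obtain ⟨Vt, hVd⟩ : ∃ Vt, Vt = atT (D.X ω 0) V := ⟨_, rfl⟩
   obtain ⟨Dt, hDd⟩ : ∃ Dt, Dt = atT (D.X ω 0) (uD U n R V (D.pt ω)) := ⟨_, rfl⟩
   have tPt : Tg K n Pt := by rw [hPd]; exact tg_atT hP.tg _
   have tVt : Tg K n Vt := by rw [hVd]; exact tg_atT hV _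
   have tDt : Tg K n Dt := by rw [hDd]; exact tg_atT (tg_uD hU hK hV _) _
   rw [← hVd, ← hDd, ← hd] at uD0
   rw [← hVd, ← hDd] at uD2
   rw [← hVd, ← hDd] at uD1
   rw [← hPd, ← hVd, ← hd] at hR
   rw [← hPd, ← hVd, ← hDd, ← hd]
   have uD0' : Sp d Vt Dt n (exp (c₇ * z)) := uD0.mono le_rfl (ex_mono (by rw [hc₇]; linarith only [hC₁]) hzr)
   have uD2' : Sp (gw (a₀ + (i - a) * z) (D.g (i - a) j)) Vt Dt n (exp (c₇ * z)) :=
     uD2.mono le_rfl (ex_mono (by rw [hc₇]; linarith only [hC₁]) hzr)
   have hMb : ∀ k, |MM d Vt Dt (gs v) k| ≤ exp (c₉ * z) := fun k =>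
     hMM z d Vt Dt hzr tVt tDt uD0' (gs v) hln.le k
   refine ⟨fun w => (hMb _).trans (he' c₉ (by rw [hc']; linarith only [hC, hC₁, h3, h4, h6, hc₇, h8, h10, hn0])), ?_⟩
   intro u
   have hu1 := hI.g1 _ (hI.gs_gp u)
   -- the two points
   obtain ⟨ζ, hζ⟩ : ∃ ζ : ℕ → ℝ, ζ = fun k => if k = gs u then 1 / 2 ^ D.g i j k else 0 := ⟨_, rfl⟩
   obtain ⟨x, hx⟩ : ∃ x, x = ps Pt ζ := ⟨_, rfl⟩
   obtain ⟨x', hx'⟩ : ∃ x', x' = ps Pt (fun _ => 0) := ⟨_, rfl⟩
   have dk : ∀ k, 1 ≤ k → d k = D.g i j k := fun k hk => by rw [hd, gw_ne _ _ hk]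
   have nx : ∀ k, nat d Pt x k = if k = gs u then 1 else 0 := by
     intro k
     rw [nat_eq, hx, zs_ps tPt.tri, hζ]
     simp only
     split_ifs with h
     · rw [dk k (by omega)]
       field_simp
     · rw [mul_zero]
   exact by
    have nx' : ∀ k, nat d Pt x' k = 0 := by
      intro k
      rw [nat_eq, hx', zs_ps tPt.tri, mul_zero]
    have Pt0 : ∀ y : ℕ → ℝ, eval y (Pt 0) = D.X ω 0 := by
      intro y
      rw [hPd]
      unfold atT
      rw [Function.update_self, eval_C]
    have x0 : x 0 = D.X ω 0 := by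
      rw [hx, ps_eq tPt.tri, Pt0, hζ]
      simp only
      rw [if_neg (by omega), add_zero]
    have x0' : x' 0 = D.X ω 0 := by
      rw [hx', ps_eq tPt.tri, Pt0, add_zero]
    have h1b : (1 : ℝ) ≤ exp (b * z) := ex_one hb hzr
    have bx : ∀ m, Bx d Pt m 1 x := fun m k _ => by
      rw [nx]
      split_ifs
      · rw [abs_one]
      · rw [abs_zero]
        exact zero_le_one
    have bx' : ∀ m, Bx d Pt m 1 x' := fun m k _ => by
      rw [nx', abs_zero]
      exact zero_le_one
    have nP : ∀ k, 1 ≤ k → nat (D.g i j) P x k = if k = gs u then 1 else 0 := fun k hk => by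
      rw [← nx k, hd, hPd, nat_gw' _ _ _ _ _ hk]
    have nP' : ∀ k, 1 ≤ k → nat (D.g i j) P x' k = 0 := fun k hk => by
      rw [← nx' k, hd, hPd, nat_gw' _ _ _ _ _ hk]
    have t0 : |nat (D.g i j) P (D.X ω) 0| ≤ exp (c₅ * z) := by
      rw [hc₅]
      refine t0_box hO hz hiM hjM hω hP.tg (b := 0) hP.e0 ?_
      rw [sub_self, abs_zero]
      positivity
    exact by
     have tx : nat (D.g i j) P x 0 = nat (D.g i j) P (D.X ω) 0 := by
       unfold nat
       rw [ev0 hPt x (D.X ω), x0]
     have tx' : nat (D.g i j) P x' 0 = nat (D.g i j) P (D.X ω) 0 := by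
       unfold nat
       rw [ev0 hPt x' (D.X ω), x0']
     have h15 : (1 : ℝ) ≤ exp (c₅ * z) := ex_one h5 hzr
     have m1c : exp (c₁ * z) ≤ exp (cm * z) := ex_mono (by rw [hcm]; exact le_max_left _ _) hzr
     have m2c : exp (C' * z) ≤ exp (cm * z) := ex_mono (by rw [hcm]; exact le_max_right _ _) hzr
     have key := hdif z y r a c k (sl gam n) (gp gam n) (ab gam n) ys gs _ _ _ hz hI hL P
       (uL U n R P (D.wn J w₀ ω)) hP.tg hUt (s0.mono le_rfl m1c) (s1.mono le_rfl m1c)
       (s2.mono le_rfl m1c) v (fun k m hk => (hkm k m hk).trans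
         (div_le_div_of_nonneg_right m2c (by positivity))) x x' (fun k hk => by
         rcases Nat.eq_zero_or_pos k with hk0 | hk0
         · rw [hk0, tx]
           exact t0
         · rw [nP k hk0]
           split_ifs
           · rw [abs_one]
             exact h15
           · rw [abs_zero]
             exact (exp_pos _).le) (fun k hk => by
         rcases Nat.eq_zero_or_pos k with hk0 | hk0
         · rw [hk0, tx']
           exact t0
         · rw [nP' k hk0, abs_zero]
           exact (exp_pos _).le) 0 le_rfl (by rw [tx, tx', sub_self, abs_zero])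
     have eU : uL U n R P (D.wn J w₀ ω) (gs v) = U.UL (gs v) (D.wn J w₀ ω) := by
       unfold uL
       exact sysU_ct hv
     rw [eU, tx', add_zero] at key
     have e1 : ∑ w, MM (D.g i j) P (uL U n R P (D.wn J w₀ ω)) (gs v) (gs w) *
         (nat (D.g i j) P x (gs w) - nat (D.g i j) P x' (gs w)) =
         cvL U n R (D.g i j) P (D.wn J w₀ ω) (gs v) (gs u) := by
       rw [Finset.sum_eq_single u]
       · rw [nP _ hu1.1, nP' _ hu1.1, if_pos rfl, sub_zero, mul_one]
         rfl
       · intro w _ hw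
         have hw1 := hI.g1 _ (hI.gs_gp w)
         rw [nP _ hw1.1, nP' _ hw1.1, if_neg (fun h => hw (hI.gs_in.injective h)), sub_self, mul_zero]
       · intro h
         exact absurd (mem_univ u) h
     exact by
      have e2 : ∑ e, (kap (D.g i j) P (uL U n R P (D.wn J w₀ ω)) (gs v) (ys e) +
            ka1 (D.g i j) P (uL U n R P (D.wn J w₀ ω)) (gs v) (ys e) *
              nat (D.g i j) P (D.X ω) 0) *
            (nat (D.g i j) P x (ys e) - nat (D.g i j) P x' (ys e)) = 0 := by
        refine Finset.sum_eq_zero fun e _ => ?_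
        have he1 := hI.s1 _ (hI.ys_sl e)
        rw [nP _ he1.1, nP' _ he1.1, if_neg (fun h => hI.ne u e h.symm), sub_self, mul_zero]
      rw [e1, e2, sub_zero] at key
      -- the two sides of the label
      have hpr := hU.deep (gs v) hv.1 hv.2.1 hv.2.2 i hiM j hjM
      have two : ∀ y : ℕ → ℝ, Bx d Pt (gs v) 1 y →
          |2 ^ D.g i j (gs v) * (y (gs v) - eval y (U.UD (gs v) (D.pt ω))) -
            2 ^ D.g i j (gs v) * (y (gs v) - eval y (U.UL (gs v) (D.wn J w₀ ω)))| ≤
            exp (c₃ * z) / 2 ^ (Q * z) := by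
        intro y hy
        have f1 := hud D U R K₁ J a₀ w₀ z M Q lam gt κ q hO hU hK hz i hiM j hjM ω hω P hP.tg hrd
          (gs v) hv y (by
            rw [← hPd, ← hd, zero_mul, exp_zero]
            exact hy)
        have f2 : 2 ^ D.g i j (gs v) * (y (gs v) - eval y (U.UD (gs v) (D.pt ω))) -
            2 ^ D.g i j (gs v) * (y (gs v) - eval y (U.UL (gs v) (D.wn J w₀ ω))) =
            -(2 ^ D.g i j (gs v) * (eval y (U.UD (gs v) (D.pt ω)) -
              eval y (U.UL (gs v) (D.wn J w₀ ω)))) := by ring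
        rw [f2, abs_neg, abs_mul, abs_of_pos (by positivity)]
        refine (mul_le_mul_of_nonneg_left f1 (by positivity)).trans ?_
        rw [← mul_div_assoc, div_le_div_iff₀ (by positivity) (by positivity)]
        calc (2 : ℝ) ^ D.g i j (gs v) * exp (c₃ * z) * 2 ^ (Q * z) =
              exp (c₃ * z) * 2 ^ (D.g i j (gs v) + Q * z) := by
              rw [pow_add]
              ring
          _ ≤ exp (c₃ * z) * 2 ^ U.pr (gs v) :=
              mul_le_mul_of_nonneg_left (pow_le_pow_right₀ one_le_two hpr) (exp_pos _).le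
      exact by
       have tx1 := two x (bx _)
       have tx2 := two x' (bx' _)
       -- over the visible frame
       have bV : Bx d Vt (gs v) (exp (C * z)) x :=
         hR.box (gs v) (by omega) x ((bx _).mono le_rfl h1b)
       have bV' : Bx d Vt (gs v) (exp (C * z)) x' :=
         hR.box (gs v) (by omega) x' ((bx' _).mono le_rfl h1b)
       have kf : ∀ y : ℕ → ℝ, Bx d Vt (gs v) (exp (C * z)) y →
           |2 ^ d (gs v) * (eval y (Dt (gs v)) - eval y (Vt (gs v))) - kaf d Vt Dt (gs v) y| ≤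
             exp (c₈ * z) / 2 ^ (a * z) := fun y hy => by
         refine hkaf z d (gw (a₀ + (i - a) * z) (D.g (i - a) j)) (a * z) Vt Dt hzr tVt tDt
           (fun k hk => ?_) (fun k hk => ?_) ((he' c₇ (by rw [hc']; linarith only [hC, h3, h4, h8, h9, h10, hn0])).trans haz) uD2' (gs v)
           hln.le y hy
         · rw [hd]
           exact (lev_rad hO hC₁ hlam hiM hjM hai (c := c₇) (by rw [hc₇]; linarith only [h6]) hk).1
         · rw [hd]
           exact (lev_rad hO hC₁ hlam hiM hjM hai (c := c₇) (by rw [hc₇]; linarith only [h6]) hk).2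
       have kf1 := kf x bV
       have kf2 := kf x' bV'
       have eD : Dt (gs v) = U.UD (gs v) (D.pt ω) := by
         rw [hDd, atT_ne _ _ hl1]
         unfold uD
         exact sysU_ct hv
       obtain ⟨Dl, hDl⟩ : ∃ Dl : ℕ → ℝ, Dl = fun k => nat d Vt x k - nat d Vt x' k := ⟨_, rfl⟩
       have Dl0 : Dl 0 = 0 := by
         rw [hDl]
         simp only
         rw [nat_zero_eq tVt.tri (show x 0 = x' 0 by rw [x0, x0']), sub_self]
       have e3 : (2 ^ D.g i j (gs v) * (x (gs v) - eval x (U.UD (gs v) (D.pt ω))) -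
           2 ^ D.g i j (gs v) * (x' (gs v) - eval x' (U.UD (gs v) (D.pt ω)))) -
           ∑ l ∈ Ico 1 (n + 1), MM d Vt Dt (gs v) l * Dl l =
           -((2 ^ d (gs v) * (eval x (Dt (gs v)) - eval x (Vt (gs v))) - kaf d Vt Dt (gs v) x) -
             (2 ^ d (gs v) * (eval x' (Dt (gs v)) - eval x' (Vt (gs v))) -
               kaf d Vt Dt (gs v) x')) := by
         have g1 : ∑ l ∈ Ico 1 (n + 1), MM d Vt Dt (gs v) l * Dl l = Dl (gs v) -
             (kaf d Vt Dt (gs v) x - kaf d Vt Dt (gs v) x') := by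
           rw [kaf_sub]
           have g2 : ∑ k ∈ range (gs v), kap d Vt Dt (gs v) k * (nat d Vt x k - nat d Vt x' k) =
               ∑ l ∈ Ico 1 (n + 1), kap d Vt Dt (gs v) l * Dl l := by
             rw [← Finset.sum_subset (s₁ := Ico 1 (gs v)) (f := fun l => kap d Vt Dt (gs v) l * Dl l)]
             · rw [Finset.range_eq_Ico, Finset.sum_eq_sum_Ico_succ_bot (by omega)]
               have : kap d Vt Dt (gs v) 0 * (nat d Vt x 0 - nat d Vt x' 0) = 0 := by
                 have h0 := Dl0
                 rw [hDl] at h0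
                 simp only at h0
                 rw [h0, mul_zero]
               rw [this, zero_add, hDl]
             · intro k hk
               rw [mem_Ico] at hk ⊢
               omega
             · intro k hk hk'
               rw [mem_Ico] at hk hk'
               rw [kap_zero tVt.tri tDt.tri (by omega), zero_mul]
           rw [g2]
           unfold MM
           simp only [sub_mul, Finset.sum_sub_distrib, ite_mul, one_mul, zero_mul]
           rw [Finset.sum_ite_eq, if_pos (mem_Ico.2 ⟨by omega, by omega⟩)]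
         rw [g1, hDl, ← eD, dk _ hl1]
         simp only
         unfold nat
         rw [dk _ hl1]
         ring
       exact by
        rw [hI.sum] at e3
        -- the differences over the visible frame
        have dV : ∀ l, 1 ≤ l → l ≤ n → |Dl l - ((if l = gs u then 1 else 0) - kap d Pt Vt l (gs u))| ≤
            2 * (exp (C * z) / 2 ^ (a * z)) := by
          intro l hl hln'
          have f1 := dif_change hR (v := l) hln' ((bx l).mono le_rfl h1b) ((bx' l).mono le_rfl h1b)
          rw [nx, nx'] at f1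
          have f2 : ∑ k ∈ range l, kap d Pt Vt l k * (nat d Pt x k - nat d Pt x' k) =
              kap d Pt Vt l (gs u) := by
            simp only [nx, nx', sub_zero, mul_ite, mul_one, mul_zero]
            rw [Finset.sum_ite_eq']
            split_ifs with h
            · rfl
            · rw [mem_range, not_lt] at h
              rw [kap_zero tPt.tri tVt.tri h]
          rw [f2, sub_zero] at f1
          rw [hDl]
          exact f1
        have dG : ∀ w : Fin c, |Dl (gs w) - MM d Pt Vt (gs w) (gs u)| ≤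
            2 * (exp (C * z) / 2 ^ (a * z)) := fun w => by
          have hw1 := hI.g1 _ (hI.gs_gp w)
          exact dV _ hw1.1 hw1.2
        have dS : ∀ e : Fin k, |Dl (ys e)| ≤ 2 * (exp (C * z) / 2 ^ (a * z)) +
            exp (C * z) / 2 ^ (y * z) := by
          intro e
          have he1 := hI.s1 _ (hI.ys_sl e)
          have f1 := dV _ he1.1 he1.2.le
          rw [if_neg (fun h => hI.ne u e h.symm), zero_sub] at f1
          have f2 := hR.sm (ys e) he1.1 he1.2.le (gs u) hu1.1 hu1.2 (by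
            have := hN.s1 _ (hI.ys_sl e)
            have := hN.s2 _ (hI.gs_gp u).1
            linarith)
          have f3 : Dl (ys e) = (Dl (ys e) - -kap d Pt Vt (ys e) (gs u)) +
              -kap d Pt Vt (ys e) (gs u) := by ring
          rw [f3]
          refine (abs_add_le _ _).trans (add_le_add f1 ?_)
          rw [abs_neg]
          exact f2
        exact by
         obtain ⟨T, hT⟩ : ∃ T : ℝ, T = exp (C * z) / 2 ^ (y * z) := ⟨_, rfl⟩
         have hT0 : 0 ≤ T := by rw [hT]; positivity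
         have ha1 : exp (C * z) / 2 ^ (a * z) ≤ T := by
           rw [hT]
           refine div_le_div_of_nonneg_left (exp_pos _).le (by positivity)
             (pow_le_pow_right₀ one_le_two (Nat.mul_le_mul_right z hya))
         have sG : |∑ w, MM d Vt Dt (gs v) (gs w) * (Dl (gs w) - MM d Pt Vt (gs w) (gs u))| ≤
             c * (exp (c₉ * z) * (2 * T)) := by
           have := sum_bd univ (fun w : Fin c => MM d Vt Dt (gs v) (gs w) *
             (Dl (gs w) - MM d Pt Vt (gs w) (gs u))) (B := exp (c₉ * z) * (2 * T)) (fun w _ => by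
               rw [abs_mul]
               exact mul_le_mul (hMb _) ((dG w).trans (by linarith only [ha1])) (abs_nonneg _) (exp_pos _).le)
           rwa [card_univ, Fintype.card_fin] at this
         have sS : |∑ e, MM d Vt Dt (gs v) (ys e) * Dl (ys e)| ≤ k * (exp (c₉ * z) * (3 * T)) := by
           have := sum_bd univ (fun e : Fin k => MM d Vt Dt (gs v) (ys e) * Dl (ys e))
             (B := exp (c₉ * z) * (3 * T)) (fun e _ => by
               rw [abs_mul]
               refine mul_le_mul (hMb _) ((dS e).trans ?_) (abs_nonneg _) (exp_pos _).le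
               rw [← hT]
               linarith only [ha1])
           rwa [card_univ, Fintype.card_fin] at this
         -- the sum
         have e4 : ∑ w, MM d Vt Dt (gs v) (gs w) * (Dl (gs w) - MM d Pt Vt (gs w) (gs u)) =
             ∑ w, MM d Vt Dt (gs v) (gs w) * Dl (gs w) -
               ∑ w, MM d Vt Dt (gs v) (gs w) * MM d Pt Vt (gs w) (gs u) := by
           rw [← Finset.sum_sub_distrib]
           exact Finset.sum_congr rfl fun w _ => by ring
         rw [e4] at sG
         obtain ⟨A1, hA1⟩ : ∃ A1 : ℝ, A1 = ∑ w, MM d Vt Dt (gs v) (gs w) * Dl (gs w) := ⟨_, rfl⟩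
         obtain ⟨A2, hA2⟩ : ∃ A2 : ℝ, A2 = ∑ w, MM d Vt Dt (gs v) (gs w) *
           MM d Pt Vt (gs w) (gs u) := ⟨_, rfl⟩
         exact by
          -- the coordinates above
          have hT1 : T ≤ exp (C * z) := by
            rw [hT]
            exact div_le_self (exp_pos _).le (one_le_pow₀ one_le_two)
          have sA : |∑ l ∈ (Ico 1 n).filter (ab gam n), MM d Vt Dt (gs v) l * Dl l| ≤
              n * (exp (c₁₀ * z) / 2 ^ (y * z) * (3 * exp (C * z))) := by
            refine (sum_bd _ _ (B := exp (c₁₀ * z) / 2 ^ (y * z) * (3 * exp (C * z)))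
              fun l hl => ?_).trans ?_
            · rw [mem_filter, mem_Ico] at hl
              have hgl : gs v ≠ l := fun h => hI.ag l hl.2 (h ▸ hI.gs_gp v)
              have hgu : l ≠ gs u := fun h => hI.ag l hl.2 (h ▸ hI.gs_gp u)
              have s5 := hL.s5 (gs v) l hl1 hln.le hl.1.1 (by omega) (hI.gs_gp v) hl.2
              have a1 := hkab z y d (gw (a₀ + i₂ * z) (D.g i₂ (j - r))) Vt Dt hz tVt tDt uD1
                (gs v) hln.le l (by
                  rw [dk _ hl1, dk _ hl.1.1, gw_ne _ _ hl1, gw_ne _ _ hl.1.1]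
                  exact s5)
              have a2 := dV l hl.1.1 hl.1.2.le
              rw [if_neg hgu, zero_sub] at a2
              have a3 : |-kap d Pt Vt l (gs u)| ≤ exp (C * z) := by
                rw [abs_neg]
                exact hR.bd l hl.1.2.le (gs u)
              have a4 : |Dl l| ≤ 3 * exp (C * z) := by
                have b1 : Dl l = (Dl l - -kap d Pt Vt l (gs u)) + -kap d Pt Vt l (gs u) := by ring
                rw [b1]
                refine (abs_add_le _ _).trans ((add_le_add a2 a3).trans ?_)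
                linarith only [ha1, hT1]
              unfold MM
              rw [if_neg hgl, zero_sub, abs_mul, abs_neg]
              exact mul_le_mul a1 a4 (abs_nonneg _) (by positivity)
            · refine mul_le_mul_of_nonneg_right ?_ (by positivity)
              have f1 : ((Ico 1 n).filter (ab gam n)).card ≤ n := by
                have := (card_le_card (filter_subset (ab gam n) (Ico 1 n)))
                rw [Nat.card_Ico] at this
                omega
              exact_mod_cast f1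
          obtain ⟨A3, hA3⟩ : ∃ A3 : ℝ, A3 = ∑ e, MM d Vt Dt (gs v) (ys e) * Dl (ys e) := ⟨_, rfl⟩
          obtain ⟨A4, hA4⟩ : ∃ A4 : ℝ, A4 = ∑ l ∈ (Ico 1 n).filter (ab gam n),
            MM d Vt Dt (gs v) l * Dl l := ⟨_, rfl⟩
          rw [← hA1, ← hA2] at sG
          rw [← hA3] at sS
          rw [← hA4] at sA
          rw [← hA1, ← hA3, ← hA4] at e3
          rw [← hA2]
          obtain ⟨X1, hX1⟩ : ∃ X1 : ℝ, X1 = 2 ^ d (gs v) * (eval x (Dt (gs v)) - eval x (Vt (gs v))) -
            kaf d Vt Dt (gs v) x := ⟨_, rfl⟩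
          obtain ⟨X2, hX2⟩ : ∃ X2 : ℝ, X2 = 2 ^ d (gs v) * (eval x' (Dt (gs v)) - eval x' (Vt (gs v))) -
            kaf d Vt Dt (gs v) x' := ⟨_, rfl⟩
          rw [← hX1] at kf1 e3
          rw [← hX2] at kf2 e3
          obtain ⟨Gd, hGd⟩ : ∃ G : ℝ, G = 2 ^ D.g i j (gs v) *
            (x (gs v) - eval x (U.UD (gs v) (D.pt ω))) := ⟨_, rfl⟩
          obtain ⟨Gd', hGd'⟩ : ∃ G : ℝ, G = 2 ^ D.g i j (gs v) *
            (x' (gs v) - eval x' (U.UD (gs v) (D.pt ω))) := ⟨_, rfl⟩
          obtain ⟨Gl, hGl⟩ : ∃ G : ℝ, G = 2 ^ D.g i j (gs v) *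
            (x (gs v) - eval x (U.UL (gs v) (D.wn J w₀ ω))) := ⟨_, rfl⟩
          obtain ⟨Gl', hGl'⟩ : ∃ G : ℝ, G = 2 ^ D.g i j (gs v) *
            (x' (gs v) - eval x' (U.UL (gs v) (D.wn J w₀ ω))) := ⟨_, rfl⟩
          rw [← hGd, ← hGd'] at e3
          rw [← hGd, ← hGl] at tx1
          rw [← hGd', ← hGl'] at tx2
          rw [← hGl, ← hGl'] at key
          obtain ⟨L, hLd⟩ : ∃ L : ℝ, L = cvL U n R (D.g i j) P (D.wn J w₀ ω) (gs v) (gs u) := ⟨_, rfl⟩
          rw [← hLd] at key ⊢
          have e5 : A2 - L = -(A1 - A2) + (A1 + (A3 + A4) - (Gd - Gd')) - A3 - A4 +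
              ((Gd - Gl) - (Gd' - Gl')) - (L - (Gl - Gl')) := by ring
          have e6 : A1 + (A3 + A4) - (Gd - Gd') = X1 - X2 := by linarith only [e3]
          rw [e5, e6]
          have ha8 : exp (c₈ * z) / 2 ^ (a * z) ≤ exp (c₈ * z) / 2 ^ (y * z) :=
            div_le_div_of_nonneg_left (exp_pos _).le (by positivity)
              (pow_le_pow_right₀ one_le_two (Nat.mul_le_mul_right z hya))
          exact by
           have e7 : |-(A1 - A2) + (X1 - X2) - A3 - A4 + ((Gd - Gl) - (Gd' - Gl')) -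
               (L - (Gl - Gl'))| ≤
               c * (exp (c₉ * z) * (2 * T)) + (exp (c₈ * z) / 2 ^ (y * z) + exp (c₈ * z) / 2 ^ (y * z)) +
                 k * (exp (c₉ * z) * (3 * T)) +
                 n * (exp (c₁₀ * z) / 2 ^ (y * z) * (3 * exp (C * z))) +
                 (exp (c₃ * z) / 2 ^ (Q * z) + exp (c₃ * z) / 2 ^ (Q * z)) +
                 exp (c₄ * z) * (1 / 2 ^ (y * z)) := by
             refine (abs_sub _ _).trans (add_le_add ?_ key)
             refine (abs_add_le _ _).trans (add_le_add ?_ ((abs_sub _ _).trans (add_le_add tx1 tx2)))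
             refine (abs_sub _ _).trans (add_le_add ?_ sA)
             refine (abs_sub _ _).trans (add_le_add ?_ sS)
             refine (abs_add_le _ _).trans (add_le_add ?_ ((abs_sub _ _).trans
               (add_le_add (kf1.trans ha8) (kf2.trans ha8))))
             rw [abs_neg]
             exact sG
           refine e7.trans ?_
           have hck : ((c : ℝ) * 2 + k * 3) ≤ exp ((n + 3) * z) := by
             have g1 : (c : ℝ) ≤ n := by exact_mod_cast hI.c_le
             have g2 : (k : ℝ) ≤ n := by exact_mod_cast hI.k_le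
             have g3 : (n : ℝ) ≤ exp (n * z) := by
               have := Real.add_one_le_exp ((n : ℝ) * z)
               nlinarith only [this, hzr]
             have g4 : (5 : ℝ) ≤ exp (3 * z) := by
               have h22 : (2 : ℝ) ≤ exp (1 * z) := by
                 have := Real.add_one_le_exp (1 * (z : ℝ))
                 linarith only [hzr, this]
               calc (5 : ℝ) ≤ 2 * 2 * 2 := by norm_num
                 _ ≤ exp (1 * z) * exp (1 * z) * exp (1 * z) := by gcongr
                 _ = _ := by rw [← exp_add, ← exp_add]; ring_nf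
             calc (c : ℝ) * 2 + k * 3 ≤ n * 5 := by linarith only [g1, g2]
               _ ≤ exp (n * z) * exp (3 * z) := by gcongr
               _ = _ := by rw [← exp_add]; ring_nf
           have h22 : (2 : ℝ) ≤ exp (1 * z) := by
             have := Real.add_one_le_exp (1 * (z : ℝ))
             linarith only [hzr, this]
           exact by
            have m1 : ((c : ℝ) * 2 + k * 3) * (exp (c₉ * z) * exp (C * z)) + 2 * exp (c₈ * z) +
                exp (c₄ * z) + n * (exp (c₁₀ * z) * (3 * exp (C * z))) ≤ exp (c' * z) := by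
              have g1 : ((c : ℝ) * 2 + k * 3) * (exp (c₉ * z) * exp (C * z)) ≤
                  exp ((n + 3 + c₉ + C) * z) := by
                calc ((c : ℝ) * 2 + k * 3) * (exp (c₉ * z) * exp (C * z)) ≤
                      exp ((n + 3) * z) * (exp (c₉ * z) * exp (C * z)) := by gcongr
                  _ = _ := by rw [← exp_add, ← exp_add]; ring_nf
              have g2 : 2 * exp (c₈ * z) ≤ exp ((c₈ + 1) * z) := by
                calc 2 * exp (c₈ * z) ≤ exp (1 * z) * exp (c₈ * z) := by gcongr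
                  _ = _ := by rw [← exp_add]; ring_nf
              have g3 := (add_le_add g1 g2).trans (ex_add hzr)
              rw [abs_of_nonneg (by positivity : (0 : ℝ) ≤ n + 3 + c₉ + C),
                abs_of_nonneg (by linarith only [h8] : (0 : ℝ) ≤ c₈ + 1)] at g3
              have g4 := (add_le_add g3 (le_refl (exp (c₄ * z)))).trans (ex_add hzr)
              rw [abs_of_nonneg (by positivity), abs_of_nonneg h4] at g4
              have g5 : (n : ℝ) * (exp (c₁₀ * z) * (3 * exp (C * z))) ≤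
                  exp ((n + c₁₀ + C + 3) * z) := by
                have q1 : (n : ℝ) ≤ exp (n * z) := by
                  have := Real.add_one_le_exp ((n : ℝ) * z)
                  nlinarith only [this, hzr, hn0]
                have q2 : (3 : ℝ) ≤ exp (3 * z) := by
                  have := Real.add_one_le_exp (3 * (z : ℝ))
                  linarith only [this, hzr]
                calc (n : ℝ) * (exp (c₁₀ * z) * (3 * exp (C * z))) ≤
                      exp (n * z) * (exp (c₁₀ * z) * (exp (3 * z) * exp (C * z))) := by gcongr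
                  _ = _ := by rw [← exp_add, ← exp_add, ← exp_add]; ring_nf
              have g6 := (add_le_add g4 g5).trans (ex_add hzr)
              rw [abs_of_nonneg (by positivity), abs_of_nonneg (by positivity)] at g6
              exact g6.trans (he' _ (by rw [hc']; linarith only [hC₁, h3, h6, hc₇]))
            have m2 : 2 * exp (c₃ * z) ≤ exp (c' * z) := by
              calc 2 * exp (c₃ * z) ≤ exp (1 * z) * exp (c₃ * z) := by gcongr
                _ = exp ((c₃ + 1) * z) := by rw [← exp_add]; ring_nf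
                _ ≤ _ := he' _ (by rw [hc']; linarith only [hC, hC₁, h4, h6, hc₇, h8, h9, h10, hn0])
            have e8 : (c : ℝ) * (exp (c₉ * z) * (2 * T)) + (exp (c₈ * z) / 2 ^ (y * z) +
                exp (c₈ * z) / 2 ^ (y * z)) + k * (exp (c₉ * z) * (3 * T)) +
                n * (exp (c₁₀ * z) / 2 ^ (y * z) * (3 * exp (C * z))) +
                (exp (c₃ * z) / 2 ^ (Q * z) + exp (c₃ * z) / 2 ^ (Q * z)) +
                exp (c₄ * z) * (1 / 2 ^ (y * z)) =
                (((c : ℝ) * 2 + k * 3) * (exp (c₉ * z) * exp (C * z)) + 2 * exp (c₈ * z) +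
                  exp (c₄ * z) + n * (exp (c₁₀ * z) * (3 * exp (C * z)))) * (1 / 2 ^ (y * z)) +
                  2 * exp (c₃ * z) * (1 / 2 ^ (Q * z)) := by
              rw [hT]
              ring
            rw [e8, mul_add (exp (c' * z))]
            exact add_le_add (mul_le_mul_of_nonneg_right m1 (by positivity))
              (mul_le_mul_of_nonneg_right m2 (by positivity))

end Pool.P4J
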