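import Pool.Agent.H25.P4J.Kp

/-!
# P4J: the labels with gain as known covectors, static ties in the group

`gf3`: as `Pool.P4.gf`, at a place with coordinates above. The covectors are over the proper group:
the coordinates above do not enter. A contact coordinate is in the proper group.
-/

set_option autoImplicit false

namespace Pool.P4J

open Finset Real MvPolynomial
open Pool.Agent.H49.Ent Pool.Agent.H32.Dense Pool.STK Pool.STAT Pool.MIC.Frm Pool.FRM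
open Pool.MIC.Fru (gw nat_gw nat_gw0 atT_tri atT_deg)
open Pool.LBL (Ld)
open Pool.P4L (tz Lw lv_ok)
open Pool.P4

/-- The covector has the leading coordinate. -/
theorem ld_MM3 {n c k : ℕ} {Sl Gp Ab : ℕ → Prop} {ys : Fin k → ℕ} {gs : Fin c → ℕ}
    (hI : Ix3 n c k Sl Gp Ab ys gs) {g : ℕ → ℕ} {P U : ℕ → PN} (hP : TriN P) (hU : TriN U)
    (v : Fin c) : Ld v (fun u => MM g P U (gs v) (gs u)) := by
  obtain ⟨k', ys', _, hI', _⟩ := hI.ext
  exact ld_MM hI' hP hU v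

/-- **The data of the labels with gain at a place**, on the event `Eg`. -/
structure GfE2 {D : NDat2} (U : GnL D) (n J a₀ w₀ z w i j r a y Q : ℕ) (R : ℕ → Prop)
    (C₂ B : ℝ) (E Eg : D.Ω → Prop) (P : D.Γ × D.Γ → ℕ → PN) (S : D.Ω → ℕ → ℕ → ℝ) {c k : ℕ}
    (ys : Fin k → ℕ) (gs : Fin c → ℕ) (fD : D.Ξ → Fin c → Fin c → ℝ)
    (fL : (D.Γ × D.Γ) × (D.Λ × ℕ) → Fin c → Fin c → ℝ)
    (p0 p1 : (D.Γ × D.Γ) × (D.Λ × ℕ) → Fin c → Fin k → ℝ) : Prop where
  ldD : ∀ x g, Ld g (fD x g) ∧ ∀ u, |fD x g u| ≤ exp (C₂ * z)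
  ldL : ∀ x g, Ld g (fL x g) ∧ ∀ u, |fL x g u| ≤ exp (C₂ * z)
  sz : ∀ x g e, |p0 x g e| ≤ exp (C₂ * z) ∧ |p1 x g e| ≤ exp (C₂ * z) ∧
    (gs g < ys e → p0 x g e = 0 ∧ p1 x g e = 0)
  -- visible side and line side
  cl : ∀ ω, Eg ω → ∀ g, Ct n R (gs g) → ∀ u,
    |∑ v, fD (D.pt ω) g v *
        cM D J a₀ z i j r a E P (bb D i j r ω) (rcd D i j r a ω) (gs v) (gs u) -
      fL (bb D i j r ω, D.wn J w ω) g u| ≤
      exp (C₂ * z) * (1 / 2 ^ (y * z) + 1 / 2 ^ (Q * z))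
  -- the own slopes
  af : ∀ ω, Eg ω → ∀ g, Ct n R (gs g) → ∀ e,
    |∑ u, fL (bb D i j r ω, D.wn J w ω) g u * S ω (gs u) (ys e) -
      (p0 (bb D i j r ω, D.wn J w ω) g e + p1 (bb D i j r ω, D.wn J w ω) g e * rt D J w ω)| ≤
      exp (C₂ * z) / 2 ^ (y * z)
  -- points near to the thin sheet
  bx : ∀ ω, Eg ω → ∀ g, Ct n R (gs g) → ∀ b : ℕ → ℝ,
    |b 0 - D.X ω 0| ≤ exp (B * z) / 2 ^ (a₀ + i * z) →
    (∀ l, 1 ≤ l → l < gs g → |nat (D.g i j) (P (bb D i j r ω)) b l| ≤ exp (B * z)) → ∀ σ : ℝ,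
    |b (gs g) - eval b (U.UD (gs g) (D.pt ω))| ≤ σ / 2 ^ D.g i j (gs g) →
    |∑ u, fL (bb D i j r ω, D.wn J w ω) g u *
        (nat (D.g i j) (P (bb D i j r ω)) b (gs u) - ze D i j r P ω (gs u)) -
      ∑ e, (p0 (bb D i j r ω, D.wn J w ω) g e +
          p1 (bb D i j r ω, D.wn J w ω) g e * rt D J w ω) *
        (nat (D.g i j) (P (bb D i j r ω)) b (ys e) - ze D i j r P ω (ys e))| ≤
      σ + exp (C₂ * z) * (1 / 2 ^ (y * z) + 1 / 2 ^ (Q * z))

open Classical in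
/-- **(GF)** The labels with gain as known covectors. -/
theorem gf3 (n K : ℕ) (C C₁ CU B : ℝ) (hC : 0 ≤ C) (hC₁ : 0 ≤ C₁) (hCU : 0 ≤ CU) (hB : 0 ≤ B) :
    ∃ C₂ : ℝ, 0 ≤ C₂ ∧
    ∀ (D : NDat2) (U : GnL D) (R : ℕ → Prop) (K₁ K' J a₀ w₀ z M w i j r r' r'' a y Q c k : ℕ)
      (lam gt gam : ℕ → ℝ) (κ : ℝ) (q : D.Ω → ℝ) (E : D.Ω → Prop) (P : D.Γ × D.Γ → ℕ → PN)
      (S : D.Ω → ℕ → ℕ → ℝ) (ys : Fin k → ℕ) (gs : Fin c → ℕ),
      Fx D n K K₁ K' J a₀ w₀ z M i j r r' a y lam gt κ C₁ C q E P (sl gam n) (gr gam n) →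
      gam n < 1 + thd gam n → Plc n gt gam y r r' r'' a M i j →
      Geo D n K' J w₀ z i j r r' r'' gam C (exp (C * z) / 2 ^ (y * z)) q E P S →
      U.Ok n K₁ J a₀ w₀ z M Q R C₁ q → Ix3 n c k (sl gam n) (gp gam n) (ab gam n) ys gs →
      w₀ + j * z ≤ w → w ≤ w₀ + (j + 1) * z → exp (C₂ * z) ≤ 2 ^ (a * z) →
      ∀ Eg : D.Ω → Prop, (∀ ω, Eg ω → E ω ∧ GoodU D U n J w₀ z M R CU ω ∧
        ∀ v, Ct n R (gs v) → KmS D U n J w₀ z i j y gam R CU (P (bb D i j r ω)) ω (gs v)) →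
      ∃ (fD : D.Ξ → Fin c → Fin c → ℝ) (fL : (D.Γ × D.Γ) × (D.Λ × ℕ) → Fin c → Fin c → ℝ)
        (p0 p1 : (D.Γ × D.Γ) × (D.Λ × ℕ) → Fin c → Fin k → ℝ),
        GfE2 U n J a₀ w₀ z w i j r a y Q R C₂ B E Eg P S ys gs fD fL p0 p1 := by
  obtain ⟨c₁, c₀, h1, hu⟩ := p3_u3 n K C CU C₁ hC hCU hC₁
  obtain ⟨c₂, h2, hbx⟩ := gf_bx3 n K C CU C₁ B hC hCU hC₁ hB
  obtain ⟨c₃, h3, haf⟩ := gf_af3 n K C CU C₁ hC hCU hC₁
  obtain ⟨c₄, h4, hrep⟩ := rep_rly n K C C₁ 0 hC hC₁ le_rfl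
  obtain ⟨c₅, h5, hrad⟩ := rad_sp n K C hC
  obtain ⟨c₆, hc₆⟩ : ∃ c₆ : ℝ, c₆ = C + c₄ + c₅ := ⟨_, rfl⟩
  have h6 : 0 ≤ c₆ := by rw [hc₆]; linarith
  obtain ⟨c₇, h7, hcl⟩ := gf_cl3 n K c₆ CU C₁ 0 h6 hCU hC₁ le_rfl
  obtain ⟨c₈, h8, hMM⟩ := MM_le n K c₁ h1
  obtain ⟨c₉, h9, hkap⟩ := kap_le0 n K c₁ h1
  obtain ⟨c₁₀, h10, hka1⟩ := ka1_le n K c₁ h1
  obtain ⟨C₂, hC₂⟩ : ∃ C₂ : ℝ, C₂ = c₂ + (c₃ + 2 * C + 1) + c₄ + c₇ + c₈ +
    (c₉ + (c₁₀ + (C + 3)) + 1) := ⟨_, rfl⟩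
  refine ⟨C₂, by rw [hC₂]; linarith, ?_⟩
  intro D U R K₁ K' J a₀ w₀ z M w i j r r' r'' a y Q c k lam gt gam κ q E P S ys gs hF hgn hPl hG hU hI
    hw1 hw2 haz Eg hEg
  have hzr : (1 : ℝ) ≤ z := by exact_mod_cast hF.z1
  have hO := hF.ok
  have hjM := hF.jM
  have hiM := hF.iM
  have hj1 := hPl.j1
  have hai := hF.ai
  have hrj := hF.rj
  have he : ∀ t : ℝ, t ≤ C₂ → exp (t * z) ≤ exp (C₂ * z) := fun t ht => ex_mono ht hzr
  have hwJ : w ≤ J := by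
    have a1 := hO.thin
    have a2 := hO.top
    have a3 : (j + 1) * z ≤ (M + 1) * z := Nat.mul_le_mul_right z (by omega)
    omega
  have hw0 : w₀ ≤ w := by
    have : 0 ≤ j * z := Nat.zero_le _
    omega
  have hΦ : ∀ i j ω, Tg K n (D.Φ i j ω) := fun i j ω =>
    ⟨hO.P_tri i j _, fun l _ => (hO.P_deg i j _ l).trans hF.k1⟩
  have hs5 : ∀ l k, gp gam n l → ab gam n k → gt l * r + y ≤ gt k * r := by
    intro l k hl hk
    have a1 := hPl.stp.t1 hl.1.1 hl.1.2.1 hgn (fun h => ab_gp h hl)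
    have a2 := hPl.stp.t2 k hk
    have a3 : (0 : ℝ) ≤ y := Nat.cast_nonneg y
    linarith
  -- the places
  have hP3 : ∀ ω, E ω → P3i D n K z M i (i - 1) j r r' a y gt gam C (P (bb D i j r ω)) ω := by
    intro ω hω
    have hP := (hF.fr ω hω).2.2
    have f1 := frp_sp hO hF.k1 hP hF.k2 (le_refl i)
    have f2 := frp_sp hO hF.k1 hP hF.k2 (Nat.sub_le i a)
    exact {
      tg := frp_tg hP hF.k2
      e0 := f1.1
      e1 := f1.2
      e2 := f2.1
      bz := fun l l1 ln => hF.bz ω hω l l1 ln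
      iM := hiM.le
      jr := hjM
      ai := hai
      rj := hrj
      i2 := by omega
      ya := hF.ya
      yr := hPl.stp.s8
      s2 := hPl.stp.s2
      s3 := hPl.stp.s3
      s5 := hs5 }
  have hFrs : ∀ ω, E ω → ∃ V, Frs D n K z i j r r' C (P (bb D i j r ω)) V ω := by
    intro ω hω
    obtain ⟨V, hV1, hV2, hV3, hV4⟩ := (hF.fr ω hω).2.1.fc
    have tV : Tg K n V := ⟨hV1, fun l _ => (hV2 l).trans hF.k2⟩
    have hP := (hF.fr ω hω).2.2
    exact ⟨V, frp_tg hP hF.k2, tV, (frp_sp hO hF.k1 hP hF.k2 le_rfl).1,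
      sp_of_near tV (hΦ _ _ _) fun l hl => hV4 i hF.iM j (by omega) l hl,
      sp_of_near tV (hΦ _ _ _) fun l hl => hV4 (i - r') (by omega) (j + r) hF.jM l hl⟩
  obtain ⟨E', hE'⟩ : ∃ E' : D.Ω → Prop, E' = Eg := ⟨_, rfl⟩
  obtain ⟨L', hL'⟩ : ∃ L' : D.Ω → (D.Γ × D.Γ) × (D.Λ × ℕ), L' = fun ω =>
    (bb D i j r ω, D.wn J w ω) := ⟨_, rfl⟩
  have hEE : ∀ ω, Eg ω → E' ω := fun ω h1 => by
    rw [hE']
    exact h1
  have hLL : ∀ ω, (bb D i j r ω, D.wn J w ω) = L' ω := fun ω => by rw [hL']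
  -- the functions
  obtain ⟨fL, hfL⟩ : ∃ fL : (D.Γ × D.Γ) × (D.Λ × ℕ) → Fin c → Fin c → ℝ, fL = fun x g =>
    msk E' L' (Pi.single g 1) (fun ω u => fLr U n w₀ w i j R P (L' ω) (gs g) (gs u)) x :=
    ⟨_, rfl⟩
  obtain ⟨p0, hp0⟩ : ∃ p0 : (D.Γ × D.Γ) × (D.Λ × ℕ) → Fin c → Fin k → ℝ, p0 = fun x g =>
    msk E' L' 0 (fun ω e => p0r U n J w₀ w i j R P (L' ω) (gs g) (ys e)) x := ⟨_, rfl⟩
  obtain ⟨p1, hp1⟩ : ∃ p1 : (D.Γ × D.Γ) × (D.Λ × ℕ) → Fin c → Fin k → ℝ, p1 = fun x g =>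
    msk E' L' 0 (fun ω e => p1r U n w₀ w i j R P (L' ω) (gs g) (ys e)) x := ⟨_, rfl⟩
  obtain ⟨fD, hfD⟩ : ∃ fD : D.Ξ → Fin c → Fin c → ℝ, fD = fun x g =>
    if Ct n R (gs g) then msk E' D.pt (Pi.single g 1) (fun ω u =>
      fDr U n J a₀ z i j r a R E P (rcd D i j r a ω) (D.pt ω) (gs g) (gs u)) x
    else Pi.single g 1 := ⟨_, rfl⟩
  have eL : ∀ ω, E' ω → ∀ g u, fL (L' ω) g u =
      cvL U n R (D.g i j) (P (bb D i j r ω)) (D.wn J w₀ ω) (gs g) (gs u) := by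
    intro ω hω g u
    rw [hfL]
    simp only
    rw [msk_on (fun ω₁ ω₂ _ _ h => by rw [h]) hω]
    unfold fLr
    rw [← hLL]
    simp only
    rw [lwn_wn D hw0 hwJ]
  have e0 : ∀ ω, E' ω → ∀ g e, p0 (L' ω) g e =
      p0r U n J w₀ w i j R P (bb D i j r ω, D.wn J w ω) (gs g) (ys e) := by
    intro ω hω g e
    rw [hp0]
    simp only
    rw [msk_on (fun ω₁ ω₂ _ _ h => by rw [h]) hω, hLL]
  have e1 : ∀ ω, E' ω → ∀ g e, p1 (L' ω) g e =
      p1r U n w₀ w i j R P (bb D i j r ω, D.wn J w ω) (gs g) (ys e) := by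
    intro ω hω g e
    rw [hp1]
    simp only
    rw [msk_on (fun ω₁ ω₂ _ _ h => by rw [h]) hω, hLL]
  have e01 : ∀ ω, E' ω → ∀ g e, p0 (L' ω) g e + p1 (L' ω) g e * rt D J w ω =
      slL U n R (D.g i j) (P (bb D i j r ω)) (D.wn J w₀ ω) (gs g) (ys e) (D.X ω) := by
    intro ω hω g e
    rw [e0 ω hω, e1 ω hω]
    refine p01_eq hO hw0 hwJ _ ?_ ω _ _
    rw [hE'] at hω
    exact (hF.fr ω (hEg ω hω).1).2.2.tri
  -- the places and the labels with gain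
  have hUL : ∀ ω, E' ω → Tg K n (P (bb D i j r ω)) ∧
      Tg K n (uL U n R (P (bb D i j r ω)) (D.wn J w₀ ω)) ∧
      Sp (D.g i j) (P (bb D i j r ω)) (uL U n R (P (bb D i j r ω)) (D.wn J w₀ ω)) n
        (exp (c₁ * z)) := by
    intro ω hω
    rw [hE'] at hω
    have hω := hEg ω hω
    have hP := hP3 ω hω.1
    obtain ⟨_, g2, g3, _⟩ := hu D U R K₁ J a₀ w₀ z M Q lam gt gam κ q hO hU hF.k1 hF.z1 hF.lam1 i
      (i - 1) j r r' a y _ ω hP hω.2.1
    exact ⟨hP.tg, g2, g3⟩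
  -- the visible frame
  have hvf : ∀ ω, E ω → Tg K n (vfr D i j r a E P (rcd D i j r a ω)) ∧
      Sp (gw (a₀ + i * z) (D.g i j)) (atT (D.X ω 0) (vfr D i j r a E P (rcd D i j r a ω)))
        (atT (D.X ω 0) (D.Ψ i j ω)) n (exp (c₅ * z)) ∧
      Sp (gw (a₀ + (i - a) * z) (D.g (i - a) j))
        (atT (D.X ω 0) (vfr D i j r a E P (rcd D i j r a ω)))
        (atT (D.X ω 0) (D.Ψ (i - a) j ω)) n (exp (c₅ * z)) ∧
      Sp (gw (a₀ + (i - 1) * z) (D.g (i - 1) (j - r)))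
        (atT (D.X ω 0) (vfr D i j r a E P (rcd D i j r a ω)))
        (atT (D.X ω 0) (D.Ψ (i - 1) (j - r) ω)) n (exp (c₅ * z)) := by
    intro ω hω
    obtain ⟨ω', hω', hr, hv⟩ := vfr_ex i j r a P hω
    rw [hv]
    have hP := (hF.fr ω' hω').2.2
    have tP := frp_tg hP hF.k2
    simp only [rcd, Prod.mk.injEq] at hr
    obtain ⟨hT, hs1, hs2, hs3⟩ := hr
    have hx0 : D.X ω' 0 = D.X ω 0 := X0_eq hO hT
    have f1 := frp_sp hO hF.k1 hP hF.k2 (le_refl i)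
    have f2 := frp_sp hO hF.k1 hP hF.k2 (Nat.sub_le i a)
    have g1 := hrad D K₁ J a₀ w₀ z M lam gt κ C₁ q hO hF.k1 hF.z1 i hiM.le j (by omega) ω'
      (hF.fr ω' hω').1 _ tP f1.1
    have g2 := hrad D K₁ J a₀ w₀ z M lam gt κ C₁ q hO hF.k1 hF.z1 (i - a) (by omega) j (by omega)
      ω' (hF.fr ω' hω').1 _ tP f2.1
    have g3 := hrad D K₁ J a₀ w₀ z M lam gt κ C₁ q hO hF.k1 hF.z1 (i - 1) (by omega) (j - r)
      (by omega) ω' (hF.fr ω' hω').1 _ tP f1.2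
    have k1 : D.Ψ i j ω' = D.Ψ i j ω := by
      unfold NDat2.Ψ
      rw [hs1]
    have k2 : D.Ψ (i - a) j ω' = D.Ψ (i - a) j ω := by
      unfold NDat2.Ψ
      rw [hs2]
    have k3 : D.Ψ (i - 1) (j - r) ω' = D.Ψ (i - 1) (j - r) ω := by
      unfold NDat2.Ψ
      rw [hs3]
    rw [k1, hx0] at g1
    rw [k2, hx0] at g2
    rw [k3, hx0] at g3
    exact ⟨tP, g1, g2, g3⟩
  have hXX : ∀ ω, ((rcd D i j r a ω).1 : ℝ) / 2 ^ J = D.X ω 0 := fun ω => (hO.X_zero ω).symm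
  obtain ⟨-, hW⟩ := hrep D K₁ K' J a₀ w₀ z M i j r r' a y lam gt κ q E P _ _ hF
    ((he c₄ (by rw [hC₂]; linarith)).trans haz)
  have hCL : ∀ ω, E' ω → ∀ g, Ct n R (gs g) →
      (∀ v, |fDr U n J a₀ z i j r a R E P (rcd D i j r a ω) (D.pt ω) (gs g) (gs v)| ≤
        exp (c₇ * z)) ∧ ∀ u,
      |∑ v, fDr U n J a₀ z i j r a R E P (rcd D i j r a ω) (D.pt ω) (gs g) (gs v) *
        cM D J a₀ z i j r a E P (bb D i j r ω) (rcd D i j r a ω) (gs v) (gs u) -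
        cvL U n R (D.g i j) (P (bb D i j r ω)) (D.wn J w₀ ω) (gs g) (gs u)| ≤
      exp (c₇ * z) * (1 / 2 ^ (y * z) + 1 / 2 ^ (Q * z)) := by
    intro ω hω g hg
    rw [hE'] at hω
    have hω := hEg ω hω
    have hP := hP3 ω hω.1
    obtain ⟨tV, v0, v2, v1⟩ := hvf ω hω.1
    obtain ⟨_, hR⟩ := hW ω hω.1
    have hPc : P3i D n K z M i (i - 1) j r r' a y gt gam c₆ (P (bb D i j r ω)) ω := by
      have m : ∀ {S : ℝ}, S = exp (C * z) → S ≤ exp (c₆ * z) := fun h => by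
        rw [h]
        exact ex_mono (by rw [hc₆]; linarith) hzr
      exact { hP with
        e0 := hP.e0.mono le_rfl (m rfl)
        e1 := hP.e1.mono le_rfl (m rfl)
        e2 := hP.e2.mono le_rfl (m rfl)
        bz := fun l l1 ln => (hP.bz l l1 ln).trans (m rfl) }
    have m4 : exp (c₄ * z) ≤ exp (c₆ * z) := ex_mono (by rw [hc₆]; linarith) hzr
    have m5 : exp (c₅ * z) ≤ exp (c₆ * z) := ex_mono (by rw [hc₆]; linarith) hzr
    have hR' : Rly n y z r gt (gw (a₀ + i * z) (D.g i j))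
        (atT (D.X ω 0) (P (bb D i j r ω)))
        (atT (D.X ω 0) (vfr D i j r a E P (rcd D i j r a ω))) (exp (0 * z)) (exp (c₆ * z))
        (exp (c₆ * z) / 2 ^ (a * z)) :=
      { aff := fun l hl x hx => (hR.aff l hl x hx).trans
          (div_le_div_of_nonneg_right m4 (by positivity))
        bd := fun l hl k => (hR.bd l hl k).trans m4
        sm := fun l l1 ln k k1 kn h => (hR.sm l l1 ln k k1 kn h).trans
          (div_le_div_of_nonneg_right m4 (by positivity))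
        box := fun l hl x hx => (hR.box l hl x hx).mono le_rfl m4 }
    have key := hcl D U R K₁ J a₀ w₀ z M Q lam gt gam κ q hO hU hF.k1 hF.z1 hF.lam1 i (i - 1) j r r' a y
      c k ys gs hI hF.num ((he c₇ (by rw [hC₂]; linarith)).trans haz) _ _ ω (hF.fr ω hω.1).1 hPc
      hω.2.1 tV (v0.mono le_rfl m5) (v2.mono le_rfl m5) (v1.mono le_rfl m5) hR' g hg (hω.2.2 g hg)
    unfold fDr cM
    rw [hXX]
    exact key
  refine ⟨fD, fL, p0, p1, ?_, ?_, ?_, ?_, ?_, ?_⟩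
  · -- the visible side
    intro x g
    rw [hfD]
    simp only
    have hone : (1 : ℝ) ≤ exp (C₂ * z) := ex_one (by rw [hC₂]; linarith) hzr
    split_ifs with hg
    · refine msk_all (Q := fun f => Ld g f ∧ ∀ u, |f u| ≤ exp (C₂ * z))
        ⟨ld_single g, fun u => single_le g u hone⟩ (fun ω hω => ?_) x
      have hω' := hω
      rw [hE'] at hω'
      have hω' := hEg ω hω'
      obtain ⟨tV, _, _, _⟩ := hvf ω hω'.1
      refine ⟨?_, fun u => ((hCL ω hω g hg).1 u).trans (he _ (by rw [hC₂]; linarith))⟩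
      unfold fDr
      exact ld_MM3 hI (tg_atT tV _).tri (tg_atT (tg_uD hU hF.k1 tV _) _).tri g
    · exact ⟨ld_single g, fun u => single_le g u hone⟩
  · -- the line side
    intro x g
    rw [hfL]
    have hone : (1 : ℝ) ≤ exp (C₂ * z) := ex_one (by rw [hC₂]; linarith) hzr
    refine msk_all (Q := fun f => Ld g f ∧ ∀ u, |f u| ≤ exp (C₂ * z))
      ⟨ld_single g, fun u => single_le g u hone⟩ (fun ω hω => ?_) x
    obtain ⟨t1, t2, t3⟩ := hUL ω hω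
    have eF : ∀ u, fLr U n w₀ w i j R P (L' ω) (gs g) (gs u) =
        MM (D.g i j) (P (bb D i j r ω)) (uL U n R (P (bb D i j r ω)) (D.wn J w₀ ω)) (gs g)
          (gs u) := by
      intro u
      unfold fLr cvL
      rw [← hLL]
      simp only
      rw [lwn_wn D hw0 hwJ]
    refine ⟨?_, fun u => ?_⟩
    · simp only [eF]
      exact ld_MM3 hI t1.tri t2.tri g
    · rw [eF]
      have m2 := hMM z (D.g i j) _ _ hzr t1 t2 t3 (gs g) (hI.g1 _ (hI.gs_gp g)).2 (gs u)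
      exact m2.trans (he c₈ (by rw [hC₂]; linarith))
  · -- the slopes
    have key : ∀ ω, E' ω → ∀ g e,
        |p0r U n J w₀ w i j R P (L' ω) (gs g) (ys e)| ≤ exp (C₂ * z) ∧
        |p1r U n w₀ w i j R P (L' ω) (gs g) (ys e)| ≤ exp (C₂ * z) ∧
        (gs g < ys e → p0r U n J w₀ w i j R P (L' ω) (gs g) (ys e) = 0 ∧
          p1r U n w₀ w i j R P (L' ω) (gs g) (ys e) = 0) := by
      intro ω hω g e
      obtain ⟨t1, t2, t3⟩ := hUL ω hω
      have hω' := hω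
      rw [hE'] at hω'
      have hω' := hEg ω hω'
      have hg1 := hI.g1 _ (hI.gs_gp g)
      have k1 := hkap z _ _ _ hzr t1 t2 t3 (gs g) hg1.2 (ys e)
      have k2 := hka1 z _ _ _ hzr t1 t2 t3 (gs g) hg1.2 (ys e)
      rw [← hLL]
      unfold p0r p1r
      simp only
      rw [lwn_wn D hw0 hwJ]
      have ez : tl J w (D.wn J w ω) = t0 D J w ω := rfl
      rw [ez]
      obtain ⟨r0, r1, rX⟩ := Pool.P4L.tms hO hwJ ω
      have hg0 : D.g i j 0 ≤ w := by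
        rw [hO.g_zero]
        exact hw1
      have hgw : (2 : ℝ) ^ D.g i j 0 / 2 ^ w ≤ 1 := by
        rw [div_le_one (by positivity)]
        exact pow_le_pow_right₀ one_le_two hg0
      have hP := (hP3 ω hω'.1)
      have tb : |nat (D.g i j) (P (bb D i j r ω)) (D.X ω) 0| ≤ exp ((C + 2) * z) := by
        have := t0_box hO hF.z1 hiM.le (by omega : j ≤ M) (hF.fr ω hω'.1).1 hP.tg (b := 0) hP.e0
          (x := D.X ω) (by
            rw [sub_self, abs_zero]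
            positivity)
        rwa [abs_of_nonneg hC, abs_zero, add_zero] at this
      have tt : |2 ^ D.g i j 0 * (t0 D J w ω - eval (fun _ => 0) (P (bb D i j r ω) 0))| ≤
          exp ((C + 3) * z) := by
        have f1 : 2 ^ D.g i j 0 * (t0 D J w ω - eval (fun _ => 0) (P (bb D i j r ω) 0)) =
            nat (D.g i j) (P (bb D i j r ω)) (D.X ω) 0 -
              rt D J w ω * (2 ^ D.g i j 0 / 2 ^ w) := by
          unfold nat
          rw [ev0 hP.tg.tri (D.X ω) (fun _ => 0), rX]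
          ring
        rw [f1]
        have f2 : |rt D J w ω * (2 ^ D.g i j 0 / 2 ^ w)| ≤ 1 := by
          rw [abs_mul, abs_of_nonneg r0, abs_of_pos (by positivity)]
          exact mul_le_one₀ r1 (by positivity) hgw
        refine (abs_sub _ _).trans ((add_le_add tb f2).trans ?_)
        have f3 : (1 : ℝ) ≤ exp ((C + 2) * z) := ex_one (by linarith) hzr
        have f4 : (2 : ℝ) ≤ exp (1 * z) := by
          have := Real.add_one_le_exp (1 * (z : ℝ))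
          linarith
        calc exp ((C + 2) * z) + 1 ≤ exp ((C + 2) * z) * exp (1 * z) := by nlinarith
          _ = _ := by rw [← exp_add]; ring_nf
      refine ⟨?_, ?_, fun hlt => ?_⟩
      · refine (abs_add_le _ _).trans ?_
        rw [abs_mul]
        have f5 := mul_le_mul k2 tt (abs_nonneg _) (exp_pos _).le
        rw [← exp_add, show c₁₀ * (z : ℝ) + (C + 3) * z = (c₁₀ + (C + 3)) * z by ring] at f5
        refine (add_le_add k1 f5).trans ((ex_add hzr).trans (he _ ?_))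
        rw [abs_of_nonneg h9, abs_of_nonneg (by linarith), hC₂]
        linarith
      · rw [abs_mul, abs_of_pos (by positivity : (0 : ℝ) < 2 ^ D.g i j 0 / 2 ^ w)]
        exact (mul_le_of_le_one_right (abs_nonneg _) hgw).trans
          (k2.trans (he _ (by rw [hC₂]; linarith)))
      · rw [kap_zero t1.tri t2.tri hlt.le, ka1_zero t1.tri t2.tri hlt.le, zero_mul, zero_mul,
          add_zero]
        exact ⟨rfl, rfl⟩
    intro x g e
    by_cases hx : ∃ ω, E' ω ∧ L' ω = x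
    · obtain ⟨ω, hω, rfl⟩ := hx
      rw [e0 ω hω, e1 ω hω, hLL]
      exact key ω hω g e
    · have z0 : p0 x g e = 0 := by
        rw [hp0]
        simp only
        unfold msk
        rw [dif_neg hx]
        rfl
      have z1 : p1 x g e = 0 := by
        rw [hp1]
        simp only
        unfold msk
        rw [dif_neg hx]
        rfl
      rw [z0, z1, abs_zero]
      exact ⟨(exp_pos _).le, (exp_pos _).le, fun _ => ⟨rfl, rfl⟩⟩
  · -- visible side and line side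
    intro ω hω g hg u
    have hω' := hEE ω hω
    rw [hLL, eL ω hω']
    have eD : ∀ v, fD (D.pt ω) g v =
        fDr U n J a₀ z i j r a R E P (rcd D i j r a ω) (D.pt ω) (gs g) (gs v) := by
      intro v
      rw [hfD]
      simp only
      rw [if_pos hg, msk_on (fun ω₁ ω₂ h₁ h₂ h => by
        rw [hE'] at h₁ h₂
        have := rcd_pt hO hiM.le (by omega : j ≤ M) r a ω₁ ω₂ (hF.fr _ (hEg _ h₁).1).1
          (hF.fr _ (hEg _ h₂).1).1 h
        rw [this, h]) hω']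
    simp only [eD]
    refine ((hCL ω hω' g hg).2 u).trans (mul_le_mul_of_nonneg_right (he _ ?_) (by positivity))
    rw [hC₂]
    linarith
  · -- the own slopes
    intro ω hω g hg e
    have hω' := hEE ω hω
    obtain ⟨hω, hgu, hkm⟩ := hEg ω hω
    rw [hLL, e01 ω hω']
    simp only [eL ω hω']
    have hP := hP3 ω hω
    obtain ⟨V, hV⟩ := hFrs ω hω
    have key := haf D U R K₁ J a₀ w₀ z M Q lam gt gam κ q hO hU hF.k1 hF.z1 hF.lam1 i (i - 1) j r r'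
      a y c k ys gs hI hF.dic hF.num _ V ω (hF.fr ω hω).1 hP hV hgu (nn D n i j r gam P S ω) (S ω)
      (exp (C * 1 * z) * (exp (C * z) / 2 ^ (y * z))) (by positivity) (fun b hb0 hbk hbu u hu =>
        hG.sheet ω (hF.fr ω hω).1 hω 1 le_rfl b hb0 hbk hbu u hu) g hg (hkm g hg) e
    refine key.trans ?_
    have f1 : exp (c₃ * z) * (exp (C * 1 * z) * (exp (C * z) / 2 ^ (y * z)) + 1 / 2 ^ (y * z)) =
        (exp (c₃ * z) * (exp (C * 1 * z) * exp (C * z) + 1)) / 2 ^ (y * z) := by ring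
    rw [f1]
    refine div_le_div_of_nonneg_right ?_ (by positivity)
    have f2 : exp (C * 1 * z) * exp (C * z) = exp (2 * C * z) := by
      rw [← exp_add]
      ring_nf
    have f3 : (1 : ℝ) ≤ exp (2 * C * z) := ex_one (by linarith) hzr
    have f4 : (2 : ℝ) ≤ exp (1 * z) := by
      have := Real.add_one_le_exp (1 * (z : ℝ))
      linarith
    rw [f2]
    calc exp (c₃ * z) * (exp (2 * C * z) + 1) ≤ exp (c₃ * z) * (exp (2 * C * z) * exp (1 * z)) :=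
          mul_le_mul_of_nonneg_left (by nlinarith) (exp_pos _).le
      _ = exp ((c₃ + 2 * C + 1) * z) := by
          rw [← exp_add, ← exp_add]
          ring_nf
      _ ≤ _ := he _ (by rw [hC₂]; linarith)
  · -- points near to the thin sheet
    intro ω hω g hg b hb0 hbk σ hσ
    have hω' := hEE ω hω
    obtain ⟨hω, hgu, hkm⟩ := hEg ω hω
    rw [hLL]
    simp only [e01 ω hω', eL ω hω']
    have hP := hP3 ω hω
    refine (hbx D U R K₁ J a₀ w₀ z M Q lam gt gam κ q hO hU hF.k1 hF.z1 hF.lam1 i (i - 1) j r r' a y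
      c k ys gs hI _ ω (hF.fr ω hω).1 hP hgu g hg (hkm g hg) b hb0 hbk σ hσ).trans ?_
    refine add_le_add le_rfl (mul_le_mul_of_nonneg_right (he _ ?_) (by positivity))
    rw [hC₂]
    linarith

end Pool.P4J
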