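import Pool.Agent.H25.P4J.Kn
import Pool.Agent.H25.P4J.Ki

/-!
# The products of a coordinate and the powers of the time

`km_small`: if the mixed second derivative in the time and the coordinate `k` is small along a path
with natural coordinates, on a whole window, then all the coefficients of the products of `k` and the
powers of the time are small.
-/

set_option autoImplicit false

namespace Pool.P4J

open Finset Real MvPolynomial
open Pool.Agent.H49.Ent Pool.Agent.H32.Dense Pool.STK Pool.STAT Pool.MIC.Frm Pool.FRM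
open Pool.TL25
open Pool.P4L (Lw tz mon_add mon_tz single_mem pair_mem exs_lt exs_deg Sm sm_of mon_le mon_single
  mon_time mon split_exp eval_mon)
open Pool.P4

/-- The coefficients of a polynomial which is small on an interval away from the origin. -/
theorem coef_shift (N : ℕ) : ∃ C : ℝ, 1 ≤ C ∧ ∀ (p : Polynomial ℝ) (σ B A : ℝ),
    p.natDegree ≤ N → 1 ≤ B → |σ| ≤ B → (∀ s, |s - σ| ≤ 1 → |p.eval s| ≤ A) →
    ∀ m ≤ N, |p.coeff m| ≤ C * B ^ N * A := by
  obtain ⟨C, hC, hcb⟩ := Pool.KAL.TAY.coef_bound N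
  refine ⟨C * ((N + 1) * C * 2 ^ N) + 1, by
    have : 0 ≤ C * (((N : ℝ) + 1) * C * 2 ^ N) := by positivity
    linarith, ?_⟩
  intro p σ B A hN hB hσ hA m hm
  have hA0 : 0 ≤ A := (abs_nonneg _).trans (hA σ (by rw [sub_self, abs_zero]; exact zero_le_one))
  obtain ⟨q, hq⟩ : ∃ q : Polynomial ℝ, q = p.comp (Polynomial.C σ + Polynomial.X) := ⟨_, rfl⟩
  have hev : ∀ u, q.eval u = p.eval (σ + u) := fun u => by
    rw [hq, Polynomial.eval_comp, Polynomial.eval_add, Polynomial.eval_C, Polynomial.eval_X]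
  have hqd : q.natDegree ≤ N := by
    rw [hq]
    refine Polynomial.natDegree_comp_le.trans ?_
    have h1 : (Polynomial.C σ + Polynomial.X : Polynomial ℝ).natDegree ≤ 1 := by
      refine (Polynomial.natDegree_add_le _ _).trans (max_le ?_ ?_)
      · rw [Polynomial.natDegree_C]
        exact Nat.zero_le _
      · exact Polynomial.natDegree_X_le
    calc p.natDegree * _ ≤ N * 1 := Nat.mul_le_mul hN h1
      _ = N := mul_one N
  have hco : ∀ m ≤ N, |q.coeff m| ≤ C * A := hcb q A hqd fun u u0 u1 => by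
    rw [hev]
    refine hA _ ?_
    rw [add_sub_cancel_left, abs_of_nonneg u0]
    exact u1
  have hp : ∀ t : ℝ, 0 ≤ t → t ≤ 1 → |p.eval t| ≤ (N + 1) * (C * A * (2 * B) ^ N) := by
    intro t t0 t1
    have e1 : p.eval t = q.eval (t - σ) := by rw [hev, add_sub_cancel]
    have hu : |t - σ| ≤ 2 * B := by
      refine (abs_sub _ _).trans ?_
      rw [abs_of_nonneg t0]
      linarith
    rw [e1, Polynomial.eval_eq_sum_range' (Nat.lt_succ_of_le hqd)]
    refine (Finset.abs_sum_le_sum_abs _ _).trans ?_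
    have h1 : ∀ m ∈ range (N + 1), |q.coeff m * (t - σ) ^ m| ≤ C * A * (2 * B) ^ N := by
      intro m hm
      rw [abs_mul, abs_pow]
      refine mul_le_mul (hco m (Nat.lt_succ_iff.1 (mem_range.1 hm))) ?_ (by positivity)
        (by positivity)
      exact (pow_le_pow_left₀ (abs_nonneg _) hu m).trans
        (pow_le_pow_right₀ (by linarith) (Nat.lt_succ_iff.1 (mem_range.1 hm)))
    refine (Finset.sum_le_sum h1).trans (le_of_eq ?_)
    rw [Finset.sum_const, card_range, nsmul_eq_mul]
    push_cast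
    ring
  refine (hcb p _ hN hp m hm).trans ?_
  have hB0 : 0 ≤ B ^ N * A := by positivity
  calc C * ((N + 1) * (C * A * (2 * B) ^ N)) = C * ((N + 1) * C * 2 ^ N) * (B ^ N * A) := by
        rw [mul_pow]
        ring
    _ ≤ (C * ((N + 1) * C * 2 ^ N) + 1) * (B ^ N * A) := by nlinarith
    _ = _ := by ring

/-- A coefficient of the mixed second derivative. -/
theorem co_mix (G : PN) {k : ℕ} (hk : 1 ≤ k) (γ : ℕ →₀ ℕ) :
    coeff γ (pderiv k (pderiv 0 G)) =
      coeff (γ + Finsupp.single k 1 + Finsupp.single 0 1) G * (γ 0 + 1) * (γ k + 1) := by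
  rw [coeff_pderiv, coeff_pderiv, Finsupp.add_apply, Finsupp.single_eq_of_ne (by omega : (0 : ℕ) ≠ k),
    add_zero]

/-- Only the time. -/
theorem eval_tz {l N : ℕ} {H : PN} (hl : 0 < l) (hv : H.vars ⊆ range l) (hN : H.totalDegree ≤ N)
    (ζ : ℕ → ℝ) :
    eval (tz ζ) H = ∑ m ∈ range (N + 1), coeff (Finsupp.single 0 m) H * ζ 0 ^ m := by
  classical
  rw [eval_mon hv hN]
  have e1 : ∑ m ∈ range (N + 1), coeff (Finsupp.single 0 m) H * ζ 0 ^ m =
      ∑ α ∈ (range (N + 1)).image (fun m => Finsupp.single 0 m), coeff α H * mon α (tz ζ) := by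
    rw [Finset.sum_image (fun a _ b _ h => Finsupp.single_injective 0 h)]
    refine Finset.sum_congr rfl fun m _ => ?_
    congr 1
    rcases Nat.eq_zero_or_pos m with h | h
    · rw [h, pow_zero, Finsupp.single_zero]
      unfold mon
      rw [Finsupp.support_zero, Finset.prod_empty]
    · unfold mon
      rw [Finsupp.support_single_ne_zero 0 (by omega), Finset.prod_singleton,
        Finsupp.single_eq_same]
      unfold tz
      rw [if_pos rfl]
  rw [e1]
  symm
  refine Finset.sum_subset ?_ fun α hα hα' => ?_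
  · intro α hα
    rw [mem_image] at hα
    obtain ⟨m, hm, rfl⟩ := hα
    unfold exs
    rw [Finset.mem_finsupp_iff]
    refine ⟨fun i hi => ?_, fun i _ => ?_⟩
    · rw [Finsupp.mem_support_iff] at hi
      rcases eq_or_ne i 0 with h | h
      · rw [h]
        exact mem_range.2 hl
      · rw [Finsupp.single_eq_of_ne h] at hi
        exact absurd rfl hi
    · rcases eq_or_ne i 0 with h | h
      · rw [h, Finsupp.single_eq_same]
        exact hm
      · rw [Finsupp.single_eq_of_ne h]
        exact mem_range.2 (Nat.succ_pos _)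
  · by_cases ht : ∀ k, 1 ≤ k → α k = 0
    · exfalso
      refine hα' (mem_image.2 ⟨α 0, ?_, ?_⟩)
      · unfold exs at hα
        rw [Finset.mem_finsupp_iff] at hα
        by_cases h0 : α 0 = 0
        · rw [h0]
          exact mem_range.2 (Nat.succ_pos _)
        · exact hα.2 0 (hα.1 (Finsupp.mem_support_iff.2 h0))
      · ext k
        rcases Nat.eq_zero_or_pos k with h | h
        · rw [h, Finsupp.single_eq_same]
        · rw [Finsupp.single_eq_of_ne (by omega), ht k h]
    · push Not at ht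
      obtain ⟨k, k1, hk⟩ := ht
      rw [mon_tz k1 hk, mul_zero]

/-- **The products with the powers of the time are small**, from the second derivative along a
path. -/
theorem km_small (n K c₀ : ℕ) (c b : ℝ) (hc : 0 ≤ c) (hb : 0 ≤ b) : ∃ c' : ℝ, 0 ≤ c' ∧
    ∀ (z y r a : ℕ) (Gr : ℕ → Prop) (g g1 g2 : ℕ → ℕ), 1 ≤ z → Lw4 n c₀ y z r a Gr g g1 g2 →
    ∀ P U : ℕ → PN, Tg K n P → Tg K n U → (∀ l, (P l).totalDegree ≤ 1) →
    Sp g2 P U n (exp (c * z)) → ∀ l, 1 ≤ l → l ≤ n → ∀ (x : ℝ → ℕ → ℝ) (T : ℝ),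
    (∀ t, x t 0 = t) → (∀ t, |t - T| ≤ 1 / 2 ^ g 0 → Bx g P l (exp (b * z)) (x t)) →
    ∀ k, 1 ≤ k → (∀ t, |t - T| ≤ 1 / 2 ^ g 0 →
      2 ^ g l / (2 ^ g k * 2 ^ g 0) * |eval (x t) (Dj P k (Dj P 0 (U l)))| ≤
        exp (c * z) / 2 ^ (y * z)) →
    ∀ m, |km g P U l k (m + 1)| ≤ exp (c' * z) / 2 ^ (y * z) := by
  classical
  obtain ⟨C₀, hC₀, h⟩ := nrm_dif n K
  obtain ⟨N, hN⟩ : ∃ N : ℕ, N = K * (K + 1) ^ n + 1 := ⟨_, rfl⟩
  obtain ⟨A, hA⟩ : ∃ A : ℝ, A = ∑ m ∈ range (n + 1), ((exs m N).card : ℝ) := ⟨_, rfl⟩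
  have hA0 : 0 ≤ A := by
    rw [hA]
    exact Finset.sum_nonneg fun _ _ => Nat.cast_nonneg _
  obtain ⟨C₃, hC₃, hcs⟩ := coef_shift N
  obtain ⟨c₅, hc₅⟩ : ∃ c₅ : ℝ, c₅ = A + 2 * (N + 1) + n * N * b + (C₀ + c) + (n * N + 3) * c₀ :=
    ⟨_, rfl⟩
  have h5 : 0 ≤ c₅ := by rw [hc₅]; positivity
  refine ⟨C₃ + N * b + (c + c₅ + 1), by positivity, ?_⟩
  intro z y r a Gr g g1 g2 hz hL P U hP hU dP hS2 l l1 ln x T hx0 hbx k k1 hsm m
  have hzr : (1 : ℝ) ≤ z := by exact_mod_cast hz
  have hz0 : (0 : ℝ) ≤ z := by linarith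
  obtain ⟨G, hG⟩ : ∃ G : PN, G = chr P (U l) := ⟨_, rfl⟩
  obtain ⟨G', hG'⟩ : ∃ G' : PN, G' = chr P (U l - P l) := ⟨_, rfl⟩
  have hdeg2 : ∀ α : ℕ →₀ ℕ, 2 ≤ α.degree → coeff α G = coeff α G' := by
    intro α hα
    rw [hG, hG']
    exact co_dif hP.tri dP (U l) l hα
  have hv : (U l - P l).vars ⊆ range l := AdxRow.vars_sub_le (hU.tri l) (hP.tri l)
  have hdd : (U l - P l).totalDegree ≤ K :=
    (totalDegree_sub _ _).trans (max_le (hU.deg l ln) (hP.deg l ln))
  have hKN : ∀ {F : PN}, F.vars ⊆ range l → F.totalDegree ≤ K → (chr P F).totalDegree ≤ N := by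
    intro F hFv hFd
    refine (chr_deg hP.tri (fun i hi => hP.deg i (by omega)) hFv hFd).trans ?_
    rw [hN]
    exact (Nat.mul_le_mul_left _ (Nat.pow_le_pow_right (Nat.succ_pos _) ln)).trans
      (Nat.le_succ _)
  have hGd : G.totalDegree ≤ N := by
    rw [hG]
    exact hKN (hU.tri l) (hU.deg l ln)
  have hG'd : G'.totalDegree ≤ N := by
    rw [hG']
    exact hKN hv hdd
  have hG'v : G'.vars ⊆ range l := by
    rw [hG']
    exact chr_vars hP.tri hv
  obtain ⟨H, hH⟩ : ∃ H : PN, H = pderiv k (pderiv 0 G) := ⟨_, rfl⟩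
  have hHv : H.vars ⊆ range l := by
    rw [hH, hG, ← chr_Dj hP.tri, ← chr_Dj hP.tri]
    exact chr_vars hP.tri (Dj_vars hP.tri (Dj_vars hP.tri (hU.tri l) 0) k)
  have hHd : H.totalDegree ≤ N := by
    rw [hH]
    exact (Pool.Agent.H50.PW.totalDegree_pderiv_le _ _).trans
      ((Pool.Agent.H50.PW.totalDegree_pderiv_le _ _).trans hGd)
  obtain ⟨w, hw⟩ : ∃ w : ℝ, w = 2 ^ g l / (2 ^ g k * 2 ^ g 0) := ⟨_, rfl⟩
  have hw0 : 0 < w := by rw [hw]; positivity
  -- the quadratic part
  obtain ⟨S', hS'⟩ : ∃ S' : ℝ, S' = C₀ * exp (c * z) * 2 ^ ((n * N + 3) * (c₀ * z)) := ⟨_, rfl⟩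
  have hS'0 : 0 ≤ S' := by rw [hS']; positivity
  obtain ⟨B, hB⟩ : ∃ B : ℝ, B = exp (b * z) := ⟨_, rfl⟩
  have hB1 : 1 ≤ B := by rw [hB]; exact ex_one hb hzr
  have n2 : nrm g2 (1 / 2) G' ≤ C₀ * exp (c * z) / 2 ^ g2 l := by
    rw [hG']
    refine (h g2 P U (exp (c * z)) hP hU hS2 l ln).trans (le_of_eq ?_)
    ring
  have hquad : ∀ ζ : ℕ → ℝ, (∀ i < l, |ζ i| ≤ B / 2 ^ g i) →
      w * |eval ζ H - eval (tz ζ) H| ≤
        (exs l N).card * ((N + 1) * (N + 1) * (B ^ (l * N) * S') / 2 ^ (y * z)) := by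
    intro ζ hζ
    rw [eval_mon hHv hHd, eval_mon hHv hHd, ← Finset.sum_sub_distrib]
    have key : ∀ γ ∈ exs l N, |w * (coeff γ H * mon γ ζ - coeff γ H * mon γ (tz ζ))| ≤
        (N + 1) * (N + 1) * (B ^ (l * N) * S') / 2 ^ (y * z) := by
      intro γ hγ
      by_cases ht : ∀ k, 1 ≤ k → γ k = 0
      · rw [mon_time ht (b := ζ) (b' := tz ζ) (by
          unfold tz
          rw [if_pos rfl]), sub_self, mul_zero, abs_zero]
        positivity
      · push Not at ht
        obtain ⟨k', k1', hk'⟩ := ht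
        rw [mon_tz k1' hk', mul_zero, sub_zero]
        obtain ⟨β, hβ⟩ : ∃ β : ℕ →₀ ℕ, β = γ + Finsupp.single k 1 + Finsupp.single 0 1 := ⟨_, rfl⟩
        have hβd : 2 ≤ β.degree := by
          rw [hβ, map_add, map_add, Finsupp.degree_single, Finsupp.degree_single]
          omega
        have eco : coeff γ H = coeff β G' * (γ 0 + 1) * (γ k + 1) := by
          rw [hH, co_mix G k1, ← hβ, hdeg2 β hβd]
        have hgk : ∀ i, (γ i : ℝ) + 1 ≤ N + 1 := by
          intro i
          have : γ i ≤ N := by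
            unfold exs at hγ
            rw [Finset.mem_finsupp_iff] at hγ
            by_cases h0 : γ i = 0
            · omega
            · exact Nat.lt_succ_iff.1 (mem_range.1 (hγ.2 i (hγ.1 (Finsupp.mem_support_iff.2 h0))))
          have : (γ i : ℝ) ≤ N := by exact_mod_cast this
          linarith
        have hco : |coeff β G'| * (1 / 2) ^ Finsupp.weight g β ≤ S' * (1 / 2 ^ (y * z)) /
            2 ^ g l := by
          by_cases hβm : β ∈ exs l N
          · obtain ⟨γ', hγ'⟩ : ∃ γ' : ℕ →₀ ℕ, γ = Finsupp.single k' 1 + γ' :=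
              ⟨γ - Finsupp.single k' 1, (add_tsub_cancel_of_le
                (Finsupp.single_le_iff.2 (Nat.one_le_iff_ne_zero.2 hk'))).symm⟩
            have e1 : β = Finsupp.single k 1 + (Finsupp.single k' 1 +
                (γ' + Finsupp.single 0 1)) := by
              rw [hβ, hγ']
              abel
            rw [e1] at hβm ⊢
            have := sm_of (by positivity) n2 (hL.lw.quad l1 ln k1 k1' hβm)
            rw [hS']
            exact this
          · have : coeff β G' = 0 := by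
              by_contra h0
              exact hβm (supp_exs hG'v hG'd (mem_support_iff.2 h0))
            rw [this, abs_zero, zero_mul]
            positivity
        have hwt : (1 / 2 : ℝ) ^ Finsupp.weight g β = (1 / 2) ^ Finsupp.weight g γ *
            (1 / (2 ^ g k * 2 ^ g 0)) := by
          rw [hβ, map_add, map_add, Finsupp.weight_single, Finsupp.weight_single, one_smul,
            one_smul, pow_add, pow_add]
          simp only [one_div, inv_pow, mul_inv]
          ring
        have h3' := mon_le hB1 hγ hζ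
        rw [abs_mul, abs_mul, abs_of_pos hw0, eco, abs_mul, abs_mul,
          abs_of_nonneg (by positivity : (0 : ℝ) ≤ (γ 0 : ℝ) + 1),
          abs_of_nonneg (by positivity : (0 : ℝ) ≤ (γ k : ℝ) + 1)]
        have q1 : w * |coeff β G'| * (1 / 2) ^ Finsupp.weight g γ ≤ S' / 2 ^ (y * z) := by
          rw [hwt] at hco
          have e2 : w * |coeff β G'| * (1 / 2) ^ Finsupp.weight g γ = 2 ^ g l *
              (|coeff β G'| * ((1 / 2) ^ Finsupp.weight g γ * (1 / (2 ^ g k * 2 ^ g 0)))) := by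
            rw [hw]
            ring
          rw [e2]
          refine (mul_le_mul_of_nonneg_left hco (by positivity)).trans (le_of_eq ?_)
          field_simp
        calc w * (|coeff β G'| * (γ 0 + 1) * (γ k + 1) * |mon γ ζ|)
            ≤ w * (|coeff β G'| * (N + 1) * (N + 1) *
              (B ^ (l * N) * (1 / 2) ^ Finsupp.weight g γ)) := by
              refine mul_le_mul_of_nonneg_left ?_ hw0.le
              refine mul_le_mul (mul_le_mul (mul_le_mul_of_nonneg_left (hgk 0) (abs_nonneg _))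
                (hgk k) (by positivity) (by positivity)) h3' (abs_nonneg _) (by positivity)
          _ = (N + 1) * (N + 1) * B ^ (l * N) *
              (w * |coeff β G'| * (1 / 2) ^ Finsupp.weight g γ) := by ring
          _ ≤ (N + 1) * (N + 1) * B ^ (l * N) * (S' / 2 ^ (y * z)) :=
              mul_le_mul_of_nonneg_left q1 (by positivity)
          _ = _ := by ring
    rw [← abs_of_pos hw0, ← abs_mul, Finset.mul_sum]
    refine (Finset.abs_sum_le_sum_abs _ _).trans ((Finset.sum_le_sum key).trans (le_of_eq ?_))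
    rw [Finset.sum_const, nsmul_eq_mul]
  -- the polynomial in the time
  obtain ⟨p, hp⟩ : ∃ p : Polynomial ℝ, p = ∑ m ∈ range (N + 1),
    Polynomial.C (w * coeff (Finsupp.single 0 m) H / (2 ^ g 0) ^ m) * Polynomial.X ^ m := ⟨_, rfl⟩
  have hpd : p.natDegree ≤ N := by
    rw [hp]
    refine Polynomial.natDegree_sum_le_of_forall_le _ _ fun m hm => ?_
    exact (Polynomial.natDegree_C_mul_X_pow_le _ _).trans (Nat.lt_succ_iff.1 (mem_range.1 hm))
  have hpe : ∀ ζ : ℕ → ℝ, p.eval (2 ^ g 0 * ζ 0) = w * eval (tz ζ) H := by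
    intro ζ
    rw [eval_tz l1 hHv hHd, hp, Polynomial.eval_finsetSum, Finset.mul_sum]
    refine Finset.sum_congr rfl fun m _ => ?_
    rw [Polynomial.eval_mul, Polynomial.eval_C, Polynomial.eval_pow, Polynomial.eval_X, mul_pow]
    field_simp
  have hpc : ∀ m ≤ N, p.coeff m = w * coeff (Finsupp.single 0 m) H / (2 ^ g 0) ^ m := by
    intro m hm
    rw [hp, Polynomial.finsetSum_coeff, Finset.sum_eq_single m]
    · rw [Polynomial.coeff_C_mul, Polynomial.coeff_X_pow, if_pos rfl, mul_one]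
    · intro m' _ hne
      rw [Polynomial.coeff_C_mul, Polynomial.coeff_X_pow, if_neg (fun h => hne h.symm), mul_zero]
    · intro hm'
      exact absurd (mem_range.2 (Nat.lt_succ_of_le hm)) hm'
  obtain ⟨δ', hδ'⟩ : ∃ δ' : ℝ, δ' = exp (c * z) / 2 ^ (y * z) +
    (exs l N).card * ((N + 1) * (N + 1) * (B ^ (l * N) * S') / 2 ^ (y * z)) := ⟨_, rfl⟩
  have hnat0 : ∀ t, nat g P (x t) 0 = 2 ^ g 0 * (t - eval (fun _ => 0) (P 0)) := by
    intro t
    unfold nat
    rw [hx0, ev0 hP.tri (x t) (fun _ => 0)]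
  have hσ : |nat g P (x T) 0| ≤ B := by
    rw [hB]
    exact hbx T (by rw [sub_self, abs_zero]; positivity) 0 l1
  have hsmall : ∀ s, |s - nat g P (x T) 0| ≤ 1 → |p.eval s| ≤ δ' := by
    intro s hs
    obtain ⟨t, ht⟩ : ∃ t : ℝ, t = s / 2 ^ g 0 + eval (fun _ => 0) (P 0) := ⟨_, rfl⟩
    have est : s = nat g P (x t) 0 := by
      rw [hnat0, ht]
      field_simp
      ring
    have htT : |t - T| ≤ 1 / 2 ^ g 0 := by
      rw [est, hnat0, hnat0] at hs
      rw [show (2 : ℝ) ^ g 0 * (t - eval (fun _ => 0) (P 0)) -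
        2 ^ g 0 * (T - eval (fun _ => 0) (P 0)) = 2 ^ g 0 * (t - T) by ring, abs_mul,
        abs_of_pos (by positivity)] at hs
      rw [le_div_iff₀ (by positivity)]
      linarith
    have hζ : ∀ i < l, |zs P (x t) i| ≤ B / 2 ^ g i := fun i hi => by
      have := hbx t htT i hi
      rw [nat_eq, abs_mul, abs_of_pos (by positivity : (0 : ℝ) < 2 ^ g i)] at this
      rw [le_div_iff₀ (by positivity), hB]
      linarith
    have e1 : s = 2 ^ g 0 * zs P (x t) 0 := by rw [est, nat_eq]
    have h1 := hsm t htT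
    rw [Dj2_eval hP.tri, ← hG, ← hH, ← hw] at h1
    have h2 := hquad (zs P (x t)) hζ
    rw [e1, hpe, abs_mul, abs_of_pos hw0, hδ']
    have e2 : |eval (tz (zs P (x t))) H| ≤ |eval (zs P (x t)) H| +
        |eval (zs P (x t)) H - eval (tz (zs P (x t))) H| := by
      have := abs_sub_abs_le_abs_sub (eval (tz (zs P (x t))) H) (eval (zs P (x t)) H)
      rw [abs_sub_comm (eval (tz (zs P (x t))) H)] at this
      linarith
    calc w * |eval (tz (zs P (x t))) H| ≤ w * (|eval (zs P (x t)) H| +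
          |eval (zs P (x t)) H - eval (tz (zs P (x t))) H|) :=
          mul_le_mul_of_nonneg_left e2 hw0.le
      _ ≤ _ := by
          rw [mul_add]
          exact add_le_add h1 h2
  have hδ0 : 0 ≤ δ' := by rw [hδ']; positivity
  have hfin : C₃ * B ^ N * δ' ≤ exp ((C₃ + N * b + (c + c₅ + 1)) * z) / 2 ^ (y * z) := by
    have f1 : C₃ ≤ exp (C₃ * z) := by
      have := Real.add_one_le_exp (C₃ * (z : ℝ))
      nlinarith
    have f2 : B ^ N = exp (N * b * z) := by
      rw [hB, ← Real.exp_nat_mul]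
      ring_nf
    have f3 : ((exs l N).card : ℝ) ≤ exp (A * z) := by
      have g1' : ((exs l N).card : ℝ) ≤ A := by
        rw [hA]
        exact Finset.single_le_sum (f := fun m => ((exs m N).card : ℝ))
          (fun m _ => Nat.cast_nonneg _) (mem_range.2 (by omega))
      have := Real.add_one_le_exp (A * (z : ℝ))
      nlinarith
    have f4 : (N : ℝ) + 1 ≤ exp ((N + 1) * z) := by
      have := Real.add_one_le_exp (((N : ℝ) + 1) * (z : ℝ))
      have hN0 : (0 : ℝ) ≤ N := Nat.cast_nonneg N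
      nlinarith
    have f5 : B ^ (l * N) ≤ exp (n * N * b * z) := by
      rw [hB, ← Real.exp_nat_mul]
      refine exp_le_exp.2 ?_
      push_cast
      have h1 : (l : ℝ) * N ≤ n * N := mul_le_mul_of_nonneg_right (by exact_mod_cast ln)
        (Nat.cast_nonneg _)
      have h2 : 0 ≤ b * z := mul_nonneg hb (by linarith)
      nlinarith
    have f6 : C₀ * exp (c * z) ≤ exp ((C₀ + c) * z) := by
      have := ex_le hC₀ 0 0 c hzr
      rw [pow_zero, mul_one, Nat.cast_zero, zero_mul, add_zero] at this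
      exact this
    have f7 : (2 : ℝ) ^ ((n * N + 3) * (c₀ * z)) ≤ exp ((n * N + 3) * c₀ * z) := by
      have := pw_le (a := (n * N + 3) * (c₀ * z)) (b := 0) (x := (n * N + 3) * c₀ * z) (by
        push_cast
        linarith) (by positivity)
      rw [pow_zero, mul_one] at this
      exact this
    have f8 : (exs l N).card * ((N + 1) * (N + 1) * (B ^ (l * N) * S') / 2 ^ (y * z)) ≤
        exp (c₅ * z) / 2 ^ (y * z) := by
      rw [hS']
      calc ((exs l N).card : ℝ) * ((N + 1) * (N + 1) * (B ^ (l * N) * (C₀ * exp (c * z) *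
            2 ^ ((n * N + 3) * (c₀ * z)))) / 2 ^ (y * z))
          ≤ exp (A * z) * (exp ((N + 1) * z) * exp ((N + 1) * z) * (exp (n * N * b * z) *
            (exp ((C₀ + c) * z) * exp ((n * N + 3) * c₀ * z))) / 2 ^ (y * z)) := by gcongr
        _ = _ := by
            rw [hc₅, ← exp_add, ← exp_add, ← exp_add, ← exp_add, ← mul_div_assoc, ← exp_add]
            ring_nf
    have f9 : δ' ≤ exp ((c + c₅ + 1) * z) / 2 ^ (y * z) := by
      rw [hδ']
      refine (add_le_add le_rfl f8).trans ?_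
      rw [← add_div]
      refine div_le_div_of_nonneg_right ?_ (by positivity)
      refine (ex_add hzr).trans (ex_mono ?_ hzr)
      rw [abs_of_nonneg hc, abs_of_nonneg h5]
    calc C₃ * B ^ N * δ' ≤ exp (C₃ * z) * exp (N * b * z) *
          (exp ((c + c₅ + 1) * z) / 2 ^ (y * z)) := by
          rw [f2]
          gcongr
      _ = _ := by
          rw [← exp_add, ← mul_div_assoc, ← exp_add]
          ring_nf
  by_cases hmN : m ≤ N
  · have hm := hcs p (nat g P (x T) 0) B δ' hpd hB1 hσ hsmall m hmN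
    rw [hpc m hmN] at hm
    have e3 : w * coeff (Finsupp.single 0 m) H / (2 ^ g 0) ^ m = (m + 1) * km g P U l k (m + 1) := by
      have f1 : Finsupp.single 0 m + Finsupp.single k 1 + Finsupp.single 0 1 =
          (Finsupp.single k 1 + Finsupp.single 0 (m + 1) : ℕ →₀ ℕ) := by
        rw [Finsupp.single_add]
        abel
      have hdd2 : 2 ≤ (Finsupp.single k 1 + Finsupp.single 0 (m + 1) : ℕ →₀ ℕ).degree := by
        rw [map_add, Finsupp.degree_single, Finsupp.degree_single]
        omega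
      rw [hH, co_mix G k1, f1, hdeg2 _ hdd2, Finsupp.single_eq_same,
        Finsupp.single_eq_of_ne (by omega : k ≠ 0), hG', hw]
      unfold km
      push_cast
      rw [pow_succ]
      field_simp
      ring
    rw [e3, abs_mul, abs_of_nonneg (by positivity : (0 : ℝ) ≤ (m : ℝ) + 1)] at hm
    have hm1 : |km g P U l k (m + 1)| ≤ ((m : ℝ) + 1) * |km g P U l k (m + 1)| := by
      have h1 := abs_nonneg (km g P U l k (m + 1))
      have h2 : (0 : ℝ) ≤ m := Nat.cast_nonneg m
      nlinarith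
    exact hm1.trans (hm.trans hfin)
  · have h0 : km g P U l k (m + 1) = 0 := by
      unfold km
      rw [← hG', coeff_eq_zero_of_totalDegree_lt (lt_of_le_of_lt hG'd ?_), mul_zero]
      have h2 : (∑ i ∈ (Finsupp.single k 1 + Finsupp.single 0 (m + 1) : ℕ →₀ ℕ).support,
          (Finsupp.single k 1 + Finsupp.single 0 (m + 1) : ℕ →₀ ℕ) i) =
          (Finsupp.single k 1 + Finsupp.single 0 (m + 1) : ℕ →₀ ℕ).degree := rfl
      rw [h2, map_add, Finsupp.degree_single, Finsupp.degree_single]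
      omega
    rw [h0, abs_zero]
    positivity

end Pool.P4J
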