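import Pool.Agent.H25.P4J.Kr

/-!
# P4J: the event of the products with the powers of the time

`q_pt`: at a sample the mixed second derivatives of a steep label with gain are small. `kd_ev`: off a
small part the products of the slow coordinates and the powers `≥ 2` of the time are small in all the
labels with gain of the proper group.
-/

set_option autoImplicit false

namespace Pool.P4J

open Finset Real MvPolynomial
open Pool.Agent.H49.Ent Pool.Agent.H32.Dense Pool.STK Pool.STAT Pool.MIC.Frm Pool.FRM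
open Pool.TL25
open Pool.BFL (Pb)
open Pool.P4L (lv_ok)
open Pool.P4 hiding Stp Plc Geo LinStmt OwnStmt DepStmt GeoStmt Hyp EntOf H0Stmt H2Stmt YFStmt
  TFStmt NFStmt HsStmt

/-- The coefficients of the third order, from the levels. -/
theorem km_lev (n K c₀ : ℕ) (c : ℝ) (hc : 0 ≤ c) : ∃ c' : ℝ, 0 ≤ c' ∧
    ∀ (z y : ℕ) (g g1 : ℕ → ℕ) (P U : ℕ → PN), 1 ≤ z → Tg K n P → Tg K n U →
    Sp g1 P U n (exp (c * z)) → g1 0 ≤ g 0 → ∀ l ≤ n, ∀ k m,
    g1 k + 2 * g1 0 + g l + y * z ≤ g k + 2 * g 0 + g1 l + c₀ * z →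
    |km g P U l k (m + 2)| ≤ exp (c' * z) / 2 ^ (y * z) := by
  obtain ⟨C, hC, h⟩ := nrm_dif n K
  refine ⟨C + c + c₀, by positivity, ?_⟩
  intro z y g g1 P U hz hP hU hS h0 l hl k m hk
  have hzr : (1 : ℝ) ≤ z := by exact_mod_cast hz
  have h1 := (coeff_le_nrm g1 (by norm_num : (0 : ℝ) ≤ 1 / 2) (chr P (U l - P l))
    (Finsupp.single k 1 + Finsupp.single 0 (m + 2))).trans (h g1 P U (exp (c * z)) hP hU hS l hl)
  rw [map_add, Finsupp.weight_single, Finsupp.weight_single, one_smul, smul_eq_mul, half_pow,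
    mul_one_div, pow_add, mul_comm (m + 2), pow_mul, div_le_iff₀ (by positivity)] at h1
  unfold km
  rw [abs_mul, abs_of_pos (by positivity : (0 : ℝ) < 2 ^ g l / (2 ^ g k * (2 ^ g 0) ^ (m + 2)))]
  have hC0 : C * exp (c * z) ≤ exp ((C + c) * z) := by
    have := ex_le hC 0 0 c hzr
    rw [pow_zero, mul_one, Nat.cast_zero, zero_mul, add_zero] at this
    exact this
  have h2 : (2 : ℝ) ^ g1 0 / 2 ^ g 0 ≤ 1 := by
    rw [div_le_one (by positivity)]
    exact pow_le_pow_right₀ one_le_two h0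
  have h3 : ((2 : ℝ) ^ g1 0 / 2 ^ g 0) ^ m ≤ 1 := pow_le_one₀ (by positivity) h2
  have h4 : (2 : ℝ) ^ g l / 2 ^ g1 l * (2 ^ g1 k / 2 ^ g k) * (2 ^ g1 0 / 2 ^ g 0) ^ 2 ≤
      exp ((c₀ : ℝ) * z) / 2 ^ (y * z) := by
    have h1 : (2 : ℝ) ^ (g l + g1 k + 2 * g1 0 + y * z) ≤
        exp ((c₀ : ℝ) * z) * 2 ^ (g1 l + g k + 2 * g 0) := by
      refine pw_le ?_ (by positivity)
      have : ((g1 k + 2 * g1 0 + g l + y * z : ℕ) : ℝ) ≤
          ((g k + 2 * g 0 + g1 l + c₀ * z : ℕ) : ℝ) := by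
        exact_mod_cast hk
      push_cast at this ⊢
      linarith
    rw [div_pow, div_mul_div_comm, div_mul_div_comm, div_le_div_iff₀ (by positivity)
      (by positivity), ← pow_mul, ← pow_mul, ← pow_add, ← pow_add, ← pow_add, ← pow_add,
      ← pow_add, mul_comm (g1 0) 2, mul_comm (g 0) 2]
    exact h1
  calc (2 : ℝ) ^ g l / (2 ^ g k * (2 ^ g 0) ^ (m + 2)) * |coeff (Finsupp.single k 1 +
        Finsupp.single 0 (m + 2)) (chr P (U l - P l))|
      ≤ 2 ^ g l / (2 ^ g k * (2 ^ g 0) ^ (m + 2)) * (C * (exp (c * z) / 2 ^ g1 l) *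
          (2 ^ g1 k * (2 ^ g1 0) ^ (m + 2))) := by gcongr
    _ = C * exp (c * z) * (2 ^ g l / 2 ^ g1 l * (2 ^ g1 k / 2 ^ g k) *
          (2 ^ g1 0 / 2 ^ g 0) ^ 2) * (2 ^ g1 0 / 2 ^ g 0) ^ m := by
        rw [div_pow, div_pow, pow_add, pow_add]
        field_simp
    _ ≤ exp ((C + c) * z) * (exp ((c₀ : ℝ) * z) / 2 ^ (y * z)) * 1 := by
        refine mul_le_mul (mul_le_mul hC0 h4 (by positivity) (exp_pos _).le) h3
          (by positivity) (by positivity)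
    _ = _ := by
        rw [mul_one, ← mul_div_assoc, ← exp_add]
        ring_nf

/-- **The mixed second derivatives at a sample.** -/
theorem q_pt (n K : ℕ) (C C' C₁ : ℝ) (hK1 : 1 ≤ K) (hC : 0 ≤ C) (hC' : 0 ≤ C') (hC₁ : 0 ≤ C₁) :
    ∃ c' : ℝ, 0 ≤ c' ∧
    ∀ (D : NDat2) (U : GnL D) (R : ℕ → Prop) (K₁ J a₀ w₀ z M Q : ℕ) (lam gt gam : ℕ → ℝ) (κ : ℝ)
      (q : D.Ω → ℝ), D.Ok2 n K₁ J a₀ w₀ z M lam gt κ C₁ q → U.Ok n K₁ J a₀ w₀ z M Q R C₁ q →
      K₁ ≤ K → 1 ≤ z → (∀ l, 1 ≤ l → l ≤ n → lam l = 1) → ∀ (i i₂ j r r' a y : ℕ) (P : ℕ → PN)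
      (ω : D.Ω), P3i D n K z M i i₂ j r r' a y gt gam C P ω → (∀ l, (P l).totalDegree ≤ 1) →
      GoodU D U n J w₀ z M R C' ω → FraC D n 1 M z C ω → i < M →
      (∀ l, sl gam n l → gt l * r + 2 * y ≤ r) → gam n < 1 + thd gam n →
      ∀ l, Ct n R l → gp gam n l → 2 * (r : ℝ) < gt l * r + y → ∀ k, 1 ≤ k →
      2 ^ D.g i j l / (2 ^ D.g i j k * 2 ^ D.g i j 0) *
        |eval (D.X ω) (Dj P k (Dj P 0 (U.UL l (D.wn J w₀ ω))))| ≤
          exp (c' * z) / 2 ^ (y * z) := by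
  obtain ⟨c₀, hc₀⟩ := exists_nat_ge (6 * C₁)
  obtain ⟨c₁, h1, hsy⟩ := sp_symm n K C hC
  have h10 : 0 ≤ c₁ := hC.trans h1
  obtain ⟨c₂, h2, htr⟩ := sp_trans n K C c₁ hC h10
  obtain ⟨c₃, h3, hpl⟩ := pl_one n K C C' hC hC'
  obtain ⟨c, hcd⟩ : ∃ c : ℝ, c = max c₂ c₃ := ⟨_, rfl⟩
  have hc0 : 0 ≤ c := by rw [hcd]; exact h3.trans (le_max_right _ _)
  obtain ⟨c', h', hps⟩ := pt_small n K c₀ c hc0
  refine ⟨c', h', ?_⟩
  intro D U R K₁ J a₀ w₀ z M Q lam gt gam κ q hO hU hK hz hlam i i₂ j r r' a y P ω hP dP hG hF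
    hiM hmg hgn l hl hgp h2r k hk
  have hzr : (1 : ℝ) ≤ z := by exact_mod_cast hz
  have hz0 : (0 : ℝ) ≤ z := by linarith
  have m2 : exp (c₂ * z) ≤ exp (c * z) := ex_mono (by rw [hcd]; exact le_max_left _ _) hzr
  have m3 : exp (c₃ * z) ≤ exp (c * z) := ex_mono (by rw [hcd]; exact le_max_right _ _) hzr
  have hjr := hP.jr
  have hrj := hP.rj
  have hai := hP.ai
  have hi2 := hP.i2
  have hya := hP.ya
  obtain ⟨F, hF1, hF2, hF3, hF4⟩ := hF
  have tF : Tg K n F := ⟨hF1, fun l _ => (hF2 l).trans hK1⟩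
  have hΦ : ∀ i j, Tg K n (D.Φ i j ω) := fun i j =>
    ⟨hO.P_tri i j _, fun l _ => (hO.P_deg i j _ l).trans hK⟩
  have sF : ∀ i < M, ∀ j < M, Sp (D.g i j) F (D.Φ i j ω) n (exp (C * z)) := fun i hi j hj =>
    sp_of_near tF (hΦ _ _) fun l hl => hF4 i hi j hj l hl
  have sPF : Sp (D.g i j) P F n (exp (c * z)) :=
    (htr z _ _ _ _ hzr hP.tg (hΦ _ _) tF hP.e0
      (hsy z _ _ _ hzr tF (hΦ _ _) (sF i hiM j (by omega)))).mono le_rfl m2
  have tU : Tg K n (uL U n R F (D.wn J w₀ ω)) := tg_uL hU hK tF _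
  have sU : ∀ i < M, ∀ j < M, Sp (D.g i j) F (uL U n R F (D.wn J w₀ ω)) n (exp (c * z)) :=
    fun i hi j hj => (hpl D U R z _ F _ _ hz tF (hΦ i j) (tg_uL hU hK (hΦ i j) _) (sF i hi j hj)
      (hG.cl i hi.le j hj.le)).mono le_rfl m3
  have eU : uL U n R F (D.wn J w₀ ω) l = U.UL l (D.wn J w₀ ω) := by
    unfold uL
    exact sysU_ct hl
  have hln : l ≤ n := hl.2.1.le
  -- levels
  have ejr : ((j - r : ℕ) : ℝ) = j - r := by rw [Nat.cast_sub hrj]
  have eia : ((i - a : ℕ) : ℝ) = i - a := by rw [Nat.cast_sub hai]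
  have L1 : ∀ l, 1 ≤ l → l ≤ n →
      |(D.g i j l : ℝ) - D.g i₂ (j - r) l - (((i : ℝ) - i₂) + gt l * r) * z| ≤ 2 * C₁ * z := by
    intro l l1 ln
    have h := lv_ok hO hlam (i₁ := i) (j₁ := j) (i₂ := i₂) (j₂ := j - r) hiM.le (by omega)
      (by omega) (by omega) l1 ln
    rw [ejr] at h
    rw [show (j : ℝ) - (j - r) = r by ring] at h
    exact h
  have L2 : ∀ l, 1 ≤ l → l ≤ n →
      |(D.g i j l : ℝ) - D.g (i - a) j l - (a : ℝ) * z| ≤ 2 * C₁ * z := by
    intro l l1 ln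
    have h := lv_ok hO hlam (i₁ := i) (j₁ := j) (i₂ := i - a) (j₂ := j) hiM.le (by omega)
      (by omega) (by omega) l1 ln
    rw [eia] at h
    rw [show (i : ℝ) - (i - a) + gt l * (j - j) = a by ring] at h
    exact h
  have L3 : ∀ l, 1 ≤ l → l ≤ n →
      |(D.g i (j + r) l : ℝ) - D.g i j l - (gt l * r) * z| ≤ 2 * C₁ * z := by
    intro l l1 ln
    have h := lv_ok hO hlam (i₁ := i) (j₁ := j + r) (i₂ := i) (j₂ := j) hiM.le (by omega)
      (by omega) (by omega) l1 ln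
    push_cast at h
    rw [show (i : ℝ) - i + gt l * (j + r - j) = gt l * r by ring] at h
    exact h
  have g0 : (D.g i j 0 : ℝ) = w₀ + j * z := by rw [hO.g_zero i j]; push_cast; ring
  have g1 : (D.g i₂ (j - r) 0 : ℝ) = w₀ + (j - r) * z := by
    rw [hO.g_zero i₂ (j - r)]
    push_cast
    rw [ejr]
  have g3 : (D.g i (j + r) 0 : ℝ) = w₀ + (j + r) * z := by
    rw [hO.g_zero i (j + r)]
    push_cast
    ring
  have hcz : 6 * C₁ * z ≤ c₀ * z := mul_le_mul_of_nonneg_right hc₀ hz0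
  have hCz : 0 ≤ C₁ * z := mul_nonneg hC₁ hz0
  have mz : ∀ {x y : ℝ}, x ≤ y → x * z ≤ y * z := fun h => mul_le_mul_of_nonneg_right h hz0
  have hyar : (y : ℝ) ≤ a := by exact_mod_cast hya
  have hyz : (y : ℝ) * z ≤ a * z := mz hyar
  have l1 := hl.1
  have hyr0 : (0 : ℝ) ≤ y := Nat.cast_nonneg y
  have key := hps z y (D.g i j) (D.g i (j + r)) (D.g i₂ (j - r)) (D.g (i - a) j) P F
    (uL U n R F (D.wn J w₀ ω)) hz hP.tg tF tU dP hF2 sPF (sU i hiM (j + r) (by omega))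
    (sU i₂ (by omega) (j - r) (by omega)) (sU (i - a) (by omega) j (by omega)) l hln
    (fun a' b' ha1 hal hb1 hbl => by
      have e1 := (abs_le.1 (L2 a' ha1 (by omega))).1
      have e2 := (abs_le.1 (L2 b' hb1 (by omega))).1
      have e3 := (abs_le.1 (L2 l l1 hln)).2
      have e4 : (D.g (i - a) j a' : ℝ) + D.g (i - a) j b' + D.g i j l + y * z ≤
          D.g i j a' + D.g i j b' + D.g (i - a) j l + c₀ * z := by linarith
      exact_mod_cast e4)
    (fun a' ha1 hal => by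
      by_cases hgr : gr gam n a'
      · right
        have e1 := (abs_le.1 (L1 a' ha1 (by omega))).1
        have e3 := (abs_le.1 (L1 l l1 hln)).2
        have e5 : (gt l * r + y) * z ≤ (gt a' * r + r) * z := mz (by
          have h3 := hP.s3 l hgp
          have h4 := hP.s2 a' hgr
          have h5 : (gt l - 1) * r = gt l * r - r := by ring
          linarith)
        have e4 : (D.g i₂ (j - r) a' : ℝ) + D.g i₂ (j - r) 0 + D.g i j l + y * z ≤
            D.g i j a' + D.g i j 0 + D.g i₂ (j - r) l + c₀ * z := by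
          rw [g0, g1]
          linarith
        exact_mod_cast e4
      · left
        have hsl : sl gam n a' := by
          rcases kinds hgn ha1 (by omega : a' ≤ n) with h | h | h
          · exact h
          · exact absurd h.1 hgr
          · exact absurd (ab_gr h) hgr
        have e1 := (abs_le.1 (L3 a' ha1 (by omega))).2
        have e3 := (abs_le.1 (L3 l l1 hln)).1
        have e5 : (gt a' * r + r + y) * z ≤ (gt l * r) * z := mz (by
          have h3 := hmg a' hsl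
          linarith)
        have e4 : (D.g i (j + r) a' : ℝ) + D.g i (j + r) 0 + D.g i j l + y * z ≤
            D.g i j a' + D.g i j 0 + D.g i (j + r) l + c₀ * z := by
          rw [g0, g3]
          linarith
        exact_mod_cast e4)
    (D.X ω) (fun u hu => by
      unfold zs
      rw [hF3 u (by omega), sub_self]) k hk
  rw [eU] at key
  exact key

/-- The degree of a derivative in an affine frame. -/
theorem dj_deg {P : ℕ → PN} (hP : TriN P) (dP : ∀ l, (P l).totalDegree ≤ 1) (k : ℕ) {F : PN}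
    {m N : ℕ} (hv : F.vars ⊆ range m) (hF : F.totalDegree ≤ N) : (Dj P k F).totalDegree ≤ N := by
  rw [Dj_sum hv]
  refine totalDegree_finsetSum_le fun i _ => ?_
  obtain ⟨c, hc⟩ := fl_isC hP dP k i
  rw [hc]
  refine (totalDegree_mul _ _).trans ?_
  rw [totalDegree_C, zero_add]
  exact (Pool.Agent.H50.PW.totalDegree_pderiv_le _ _).trans hF

/-- The places of the closed frame. -/
theorem p3_of {D : NDat2} {n K K₁ K' J a₀ w₀ z M i j r r' r'' a y : ℕ} {lam gt gam : ℕ → ℝ}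
    {κ C₁ C : ℝ} {q : D.Ω → ℝ} {E : D.Ω → Prop} {P : D.Γ × D.Γ → ℕ → PN}
    (hF : Fx D n K K₁ K' J a₀ w₀ z M i j r r' a y lam gt κ C₁ C q E P (sl gam n) (gr gam n))
    (hgn : gam n < 1 + thd gam n) (hPl : Plc n gt gam y r r' r'' a M i j) {ω : D.Ω} (hω : E ω) :
    P3i D n K z M i (i - 1) j r r' a y gt gam C (P (bb D i j r ω)) ω := by
  have hP := (hF.fr ω hω).2.2
  have f1 := frp_sp hF.ok hF.k1 hP hF.k2 (le_refl i)
  have f2 := frp_sp hF.ok hF.k1 hP hF.k2 (Nat.sub_le i a)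
  exact {
    tg := frp_tg hP hF.k2
    e0 := f1.1
    e1 := f1.2
    e2 := f2.1
    bz := fun l l1 ln => hF.bz ω hω l l1 ln
    iM := hF.iM.le
    jr := hF.jM
    ai := hF.ai
    rj := hF.rj
    i2 := by omega
    ya := hF.ya
    yr := hPl.stp.s8
    s2 := hPl.stp.s2
    s3 := hPl.stp.s3
    s5 := fun l k hl hk => by
      have a1 := hPl.stp.t1 hl.1.1 hl.1.2.1 hgn (fun h => ab_gp h hl)
      have a2 := hPl.stp.t2 k hk
      have a3 : (0 : ℝ) ≤ y := Nat.cast_nonneg y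
      linarith }

open Classical in
/-- **The event** of the products with the powers of the time. -/
theorem kd_ev (n K : ℕ) (C C' C₁ : ℝ) (hK1 : 1 ≤ K) (hC : 0 ≤ C) (hC' : 0 ≤ C') (hC₁ : 0 ≤ C₁) :
    ∃ c' : ℝ, 0 ≤ c' ∧ ∀ e : ℝ, 0 < e → ∃ (κ₀ : ℝ) (z₀ : ℕ), 0 < κ₀ ∧
    ∀ (D : NDat2) (U : GnL D) (R : ℕ → Prop) (K₁ K' J a₀ w₀ z M i j r r' r'' a y Q : ℕ)
      (lam gt gam : ℕ → ℝ) (κ κ' : ℝ) (q : D.Ω → ℝ) (E : D.Ω → Prop) (P : D.Γ × D.Γ → ℕ → PN),
      z₀ ≤ z → κ' ≤ κ₀ → D.TmU J w₀ z κ' q →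
      Fx D n K K₁ K' J a₀ w₀ z M i j r r' a y lam gt κ C₁ C q E P (sl gam n) (gr gam n) →
      gam n < 1 + thd gam n → Plc n gt gam y r r' r'' a M i j →
      (∀ x l, (P x l).totalDegree ≤ 1) → (∀ l, sl gam n l → gt l * r + 2 * y ≤ r) →
      (∀ ω, E ω → FraC D n 1 M z C ω) → U.Ok n K₁ J a₀ w₀ z M Q R C₁ q →
      ∃ B : D.Ω → Prop, (∀ ω, B ω → E ω ∧ GoodU D U n J w₀ z M R C' ω ∧
        ∀ l, Ct n R l → gp gam n l →
          KmS D U n J w₀ z i j y gam R c' (P (bb D i j r ω)) ω l) ∧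
      Pb q (fun ω => (E ω ∧ GoodU D U n J w₀ z M R C' ω) ∧ ¬ B ω) ≤ e := by
  obtain ⟨c₁, h1, hq⟩ := q_pt n K C C' C₁ hK1 hC hC' hC₁
  obtain ⟨c₂, c₀, h2, hu⟩ := p3_u3 n K C C' C₁ hC hC' hC₁
  obtain ⟨c₃, h3, hbx⟩ := sp_box n K C 1 hC zero_le_one
  obtain ⟨cs, hcs⟩ : ∃ cs : ℝ, cs = max c₂ (c₁ + 2) := ⟨_, rfl⟩
  have hs0 : 0 ≤ cs := by rw [hcs]; exact h2.trans (le_max_left _ _)
  obtain ⟨c₄, h4, hks⟩ := km_small n K c₀ cs c₃ hs0 (by linarith)
  obtain ⟨c₆, hc₆⟩ := exists_nat_ge (4 * C₁)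
  obtain ⟨c₅, h5, hkl⟩ := km_lev n K c₆ c₂ h2
  refine ⟨max c₄ c₅, h4.trans (le_max_left _ _), fun e he => ?_⟩
  obtain ⟨κ₀, z₀, hκ₀, hrm⟩ := rmz_win (K * (K + 1)) (Fin (n + 1) × Fin (n + 1)) e he
  refine ⟨κ₀, z₀ + 1, hκ₀, ?_⟩
  intro D U R K₁ K' J a₀ w₀ z M i j r r' r'' a y Q lam gt gam κ κ' q E P hz hκ hTm hF hgn hPl dP
    hmg hFr hU
  have hO := hF.ok
  have hz1 := hF.z1
  have hzr : (1 : ℝ) ≤ z := by exact_mod_cast hz1
  have hz0 : (0 : ℝ) ≤ z := by linarith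
  have hiM := hF.iM
  have hjM := hF.jM
  have hj : j ≤ M := by omega
  have hwJ : w₀ + j * z ≤ J := by
    have a1 := hO.thin
    have a2 := hO.top
    have a3 : j * z ≤ M * z := Nat.mul_le_mul_right z hj
    have a4 : (M + 1) * z = M * z + z := by ring
    omega
  obtain ⟨g, hg⟩ : ∃ g : ℕ → ℕ, g = D.g i j := ⟨_, rfl⟩
  have hg0 : g 0 = w₀ + j * z := by rw [hg]; exact hO.g_zero i j
  obtain ⟨cnd, hcnd⟩ : ∃ cnd : ℕ → ℕ → Prop, cnd = fun l k => Ct n R l ∧ gp gam n l ∧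
    2 * (r : ℝ) < gt l * r + y ∧ 1 ≤ k := ⟨_, rfl⟩
  obtain ⟨f, hf⟩ : ∃ f : Fin (n + 1) × Fin (n + 1) → D.Ω → Polynomial ℝ, f = fun p ω =>
    if cnd p.1 p.2 then Polynomial.C (2 ^ (y * z) / exp (c₁ * z)) *
      sdp D U J w₀ g (P (bb D i j r ω)) ω p.1 p.2 else 0 := ⟨_, rfl⟩
  have hpd : ∀ x l, (ppl D x l).natDegree ≤ K + 1 := by
    intro x l
    unfold ppl
    split_ifs
    · exact Polynomial.natDegree_X_le.trans (by omega)
    · exact (hO.pa_deg x l).trans ((Nat.le_succ _).trans (Nat.succ_le_succ hF.k1))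
  have tP : ∀ ω, E ω → Tg K n (P (bb D i j r ω)) := fun ω hω => frp_tg (hF.fr ω hω).2.2 hF.k2
  obtain ⟨A, hA⟩ : ∃ A : D.Ω → Prop, A = fun ω => E ω ∧ GoodU D U n J w₀ z M R C' ω := ⟨_, rfl⟩
  have hex : 0 < exp (c₁ * z) := exp_pos _
  -- only frames of the event
  obtain ⟨f', hf'⟩ : ∃ f' : Fin (n + 1) × Fin (n + 1) → D.Ω → Polynomial ℝ, f' = fun p ω =>
    if TriN (P (bb D i j r ω)) then f p ω else 0 := ⟨_, rfl⟩
  obtain ⟨B, hB1, hB2, hB3⟩ := hrm D n K₁ J a₀ w₀ z M lam gt κ κ' C₁ q (by omega) hκ hO hTm j hj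
    A f' (fun p => by
      intro ω ω' hω hω' hw
      have e1 : bb D i j r ω = bb D i j r ω' := bb_wn hO hiM.le hj hω hω' hw
      have e2 : D.ln ω = D.ln ω' := (Prod.ext_iff.1 hw).1
      have e3 : D.wn J w₀ ω = D.wn J w₀ ω' := wn_co (Nat.le_add_right _ _) hwJ hw
      rw [hf', hf]
      simp only
      unfold sdp
      rw [e1, e2, e3]) (fun p ω hω => by
      rw [hf']
      simp only
      split_ifs with ht
      · rw [hf]
        simp only
        split_ifs with hc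
        · refine (Polynomial.natDegree_C_mul_le _ _).trans ?_
          unfold sdp
          refine (Polynomial.natDegree_C_mul_le _ _).trans ?_
          refine nd_aeval _ _ (hpd _) ?_
          have v1 := hU.varL (p.1 : ℕ) (D.wn J w₀ ω)
          have d1 : (U.UL (p.1 : ℕ) (D.wn J w₀ ω)).totalDegree ≤ K := (hU.degL _ _).trans hF.k1
          exact dj_deg ht (dP _) _ (Dj_vars ht v1 0) (dj_deg ht (dP _) 0 v1 d1)
        · rw [Polynomial.natDegree_zero]
          exact Nat.zero_le _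
      · rw [Polynomial.natDegree_zero]
        exact Nat.zero_le _) (fun p ω hω hAω => by
      rw [hf']
      simp only
      split_ifs with ht
      · rw [hf]
        simp only
        split_ifs with hc
        · rw [hcnd] at hc
          obtain ⟨hc1, hc2, hc3, hc4⟩ := hc
          rw [hA] at hAω
          have key := hq D U R K₁ J a₀ w₀ z M Q lam gt gam κ q hO hU hF.k1 hz1 hF.lam1 i (i - 1) j
            r r' a y (P (bb D i j r ω)) ω (p3_of hF hgn hPl hAω.1) (dP _) hAω.2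
            (hFr ω hAω.1) hiM hmg hgn p.1 hc1 hc2 hc3 p.2 hc4
          rw [Polynomial.eval_mul, Polynomial.eval_C, sdp_eval]
          have v1 := hU.varL (p.1 : ℕ) (D.wn J w₀ ω)
          have e1 : eval (pp D (D.ln ω) (D.X ω 0)) (Dj (P (bb D i j r ω)) p.2
              (Dj (P (bb D i j r ω)) 0 (U.UL p.1 (D.wn J w₀ ω)))) =
              eval (D.X ω) (Dj (P (bb D i j r ω)) p.2
                (Dj (P (bb D i j r ω)) 0 (U.UL p.1 (D.wn J w₀ ω)))) :=
            eval_vr (m := p.1) (Dj_vars ht (Dj_vars ht v1 0) _) fun k hk => pp_X hO hω (by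
              have := p.1.2
              omega)
          rw [e1, abs_mul, abs_mul, abs_of_pos (by positivity : (0 : ℝ) < 2 ^ (y * z) /
            exp (c₁ * z)), abs_of_pos (by positivity : (0 : ℝ) < 2 ^ g p.1 /
              (2 ^ g p.2 * 2 ^ g 0)), hg]
          refine (mul_le_mul_of_nonneg_left key (by positivity)).trans (le_of_eq ?_)
          field_simp
        · rw [Polynomial.eval_zero, abs_zero]
          exact zero_le_one
      · rw [Polynomial.eval_zero, abs_zero]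
        exact zero_le_one)
  refine ⟨B, fun ω hω => ?_, by rw [hA] at hB2; exact hB2⟩
  obtain ⟨hqω, hAω⟩ := hB1 ω hω
  rw [hA] at hAω
  refine ⟨hAω.1, hAω.2, fun l hl hgp k m hk => ?_⟩
  have hP := p3_of hF hgn hPl hAω.1
  obtain ⟨hL, hUt, s0, s1, s2⟩ := hu D U R K₁ J a₀ w₀ z M Q lam gt gam κ q hO hU hF.k1 hz1
    hF.lam1 i (i - 1) j r r' a y _ ω hP hAω.2
  have hln : l ≤ n := hl.2.1.le
  have m4 : exp (c₄ * z) ≤ exp (max c₄ c₅ * z) := ex_mono (le_max_left _ _) hzr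
  have m5 : exp (c₅ * z) ≤ exp (max c₄ c₅ * z) := ex_mono (le_max_right _ _) hzr
  have ms2 : exp (c₂ * z) ≤ exp (cs * z) := ex_mono (by rw [hcs]; exact le_max_left _ _) hzr
  have ms1 : exp ((c₁ + 2) * z) ≤ exp (cs * z) :=
    ex_mono (by rw [hcs]; exact le_max_right _ _) hzr
  have eU : uL U n R (P (bb D i j r ω)) (D.wn J w₀ ω) l = U.UL l (D.wn J w₀ ω) := by
    unfold uL
    exact sysU_ct hl
  by_cases h2r : 2 * (r : ℝ) < gt l * r + y
  · refine (hks z y r a (gp gam n) _ _ _ hz1 hL.lw (P (bb D i j r ω))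
      (uL U n R (P (bb D i j r ω)) (D.wn J w₀ ω)) hP.tg hUt (dP _) (s2.mono le_rfl ms2) l hl.1
      hln (fun t => pp D (D.ln ω) t) (D.X ω 0) (fun t => ?_) (fun t ht => ?_) k hk.1
      (fun t ht => ?_) (m + 1)).trans (div_le_div_of_nonneg_right m4 (by positivity))
    · unfold pp
      rw [if_pos rfl]
    · rw [hO.g_zero i j] at ht
      refine hbx z (D.g i j) (P (bb D i j r ω)) (D.Φ i j ω) hzr hP.tg
        ⟨hO.P_tri i j _, fun l _ => (hO.P_deg i j _ l).trans hF.k1⟩ hP.e0 l (by omega) _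
        fun u hu => ?_
      exact (hF.fr ω hAω.1).2.1.pc i hiM.le j hj u (by omega) t ht
    · have hln1 : l < n + 1 := by omega
      have hkn1 : k < n + 1 := by
        have := hk.2.1
        omega
      have key := hB3 ω hω t (by rw [hO.g_zero i j] at ht; exact ht) (⟨l, hln1⟩, ⟨k, hkn1⟩)
      rw [hf'] at key
      simp only at key
      rw [if_pos hP.tg.tri, hf] at key
      simp only at key
      rw [if_pos (by rw [hcnd]; exact ⟨hl, hgp, h2r, hk.1⟩), Polynomial.eval_mul,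
        Polynomial.eval_C, sdp_eval, abs_mul, abs_mul, abs_of_pos (by positivity : (0 : ℝ) <
          2 ^ (y * z) / exp (c₁ * z)), abs_of_pos (by positivity : (0 : ℝ) < 2 ^ g l /
            (2 ^ g k * 2 ^ g 0)), hg] at key
      rw [eU]
      refine le_trans ?_ (div_le_div_of_nonneg_right ms1 (by positivity))
      have e1 : exp ((c₁ + 2) * z) = exp (c₁ * z) * exp (2 * z) := by
        rw [← exp_add]
        ring_nf
      rw [e1, le_div_iff₀ (by positivity)]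
      rw [div_mul_eq_mul_div, div_le_iff₀ hex] at key
      linarith
  · refine (hkl z y _ _ (P (bb D i j r ω)) (uL U n R (P (bb D i j r ω)) (D.wn J w₀ ω)) hz1 hP.tg
      hUt s1 (by have := hL.lw.t1; omega) l hln k m ?_).trans
      (div_le_div_of_nonneg_right m5 (by positivity))
    push Not at h2r
    have hj1 := hP.rj
    have ejr : ((j - r : ℕ) : ℝ) = j - r := by rw [Nat.cast_sub hj1]
    have L1 : ∀ l, 1 ≤ l → l ≤ n →
        |(D.g i j l : ℝ) - D.g (i - 1) (j - r) l - (((i : ℝ) - (i - 1 : ℕ)) + gt l * r) * z| ≤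
          2 * C₁ * z := by
      intro l l1 ln
      have h := lv_ok hO hF.lam1 (i₁ := i) (j₁ := j) (i₂ := i - 1) (j₂ := j - r) hiM.le hj
        (by omega) (by omega) l1 ln
      rw [ejr] at h
      rw [show (j : ℝ) - (j - r) = r by ring] at h
      exact h
    have e1 := (abs_le.1 (L1 k hk.1 hk.2.1.le)).1
    have e3 := (abs_le.1 (L1 l hl.1 hln)).2
    have hcz : 4 * C₁ * z ≤ c₆ * z := mul_le_mul_of_nonneg_right hc₆ hz0
    have e5 : (gt l * r + y) * z ≤ (gt k * r + 2 * r) * z :=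
      mul_le_mul_of_nonneg_right (by
        have := mul_nonneg (hO.gam_ge k) (Nat.cast_nonneg r : (0 : ℝ) ≤ r)
        linarith) hz0
    have g0 : (D.g i j 0 : ℝ) = w₀ + j * z := by rw [hO.g_zero i j]; push_cast; ring
    have g1 : (D.g (i - 1) (j - r) 0 : ℝ) = w₀ + (j - r) * z := by
      rw [hO.g_zero (i - 1) (j - r)]
      push_cast
      rw [ejr]
    have e4 : (D.g (i - 1) (j - r) k : ℝ) + 2 * D.g (i - 1) (j - r) 0 + D.g i j l + y * z ≤
        D.g i j k + 2 * D.g i j 0 + D.g (i - 1) (j - r) l + c₆ * z := by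
      rw [g0, g1]
      linarith
    exact_mod_cast e4

end Pool.P4J
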