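import Pool.Agent.H25.P4J.Kq
import Pool.Agent.H25.P4J.Ks
import Pool.Agent.H25.P4J.GStm
import Pool.Agent.H52.P4.Nbt

/-!
# P4J: the labels with gain, static ties in the group

`gfS2`: the statement `GfS2` of the last assembly.
-/

set_option autoImplicit false

namespace Pool.P4J

open Finset Real MvPolynomial Matrix
open Pool.Agent.H49.Ent Pool.Agent.H32.Dense Pool.STK Pool.STAT Pool.MIC.Frm Pool.MIC7 Pool.FRM
open Pool.GSD
open Pool.LBL (Ld)
open Pool.BFL (Pb)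
open Pool.P4 hiding Stp Plc Geo LinStmt OwnStmt DepStmt GeoStmt Hyp EntOf H0Stmt H2Stmt YFStmt
  TFStmt NFStmt HsStmt enum_ex VOutD VCellS GfS P4XT dig_cell p4x_of lab_cell

/-- The good event with a larger constant. -/
theorem GoodU.mono {D : NDat2} {U : GnL D} {n J w₀ z M : ℕ} {R : ℕ → Prop} {C C' : ℝ} {ω : D.Ω}
    (h : GoodU D U n J w₀ z M R C ω) (hC : C ≤ C') (hz : 1 ≤ z) : GoodU D U n J w₀ z M R C' ω := by
  have hzr : (1 : ℝ) ≤ z := by exact_mod_cast hz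
  exact ⟨fun i hi j hj => (h.cl i hi j hj).mono le_rfl (ex_mono hC hzr), fun l hl t ht =>
    (h.pth l hl t ht).trans (div_le_div_of_nonneg_right (ex_mono hC hzr) (by positivity))⟩

open Classical in
/-- **(GF)**, static ties in the group. -/
theorem gfS2 : GfS2 := by
  intro n K K' c k C₀ C₁ gt gam hK1 hC₀ hC₁
  obtain ⟨cu, hcu, hgu⟩ := gu_ev n K C₁ hC₁
  obtain ⟨ck, hck, hkd⟩ := kd_ev n (max K K') C₀ cu C₁ (hK1.trans (le_max_right _ _)) hC₀ hcu hC₁
  obtain ⟨Cu, hCud⟩ : ∃ Cu : ℝ, Cu = max cu ck := ⟨_, rfl⟩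
  have hCu : 0 ≤ Cu := by rw [hCud]; exact hcu.trans (le_max_left _ _)
  have hcu' : cu ≤ Cu := by rw [hCud]; exact le_max_left _ _
  have hck' : ck ≤ Cu := by rw [hCud]; exact le_max_right _ _
  obtain ⟨B, hB, hbox⟩ := nbt_box n (max K K') C₀ C₁ hC₀ hC₁
  obtain ⟨C₂, hC₂, hgf⟩ := gf3 n (max K K') C₀ C₁ Cu B hC₀ hC₁ hCu (by linarith)
  refine ⟨C₂, hC₂, fun C hC => ?_⟩
  obtain ⟨C₃, hC₃⟩ : ∃ C₃ : ℝ, C₃ = C₂ + 2 * C₁ + 1 := ⟨_, rfl⟩
  refine ⟨C₃, by rw [hC₃]; linarith, ?_⟩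
  intro M e he
  obtain ⟨κ₁, z₁, hκ₁, hg1⟩ := hgu M (e / 2) (by positivity)
  obtain ⟨κ₂, z₂, hκ₂, hg2⟩ := hkd (e / 2) (by positivity)
  refine ⟨min κ₁ κ₂, max z₁ z₂, lt_min hκ₁ hκ₂, ?_⟩
  intro D U R J a₀ w₀ z w i j r r' r'' a y X Q lam κ κ' q E P S ys gs hz hκ hTm H hPl hmg hG hgd
    hFr hU Fz hFz
  have hF := H.fxI hPl hG hgd
  have hzr : (1 : ℝ) ≤ z := by exact_mod_cast hF.z1
  have hI : Ix3 n c k (sl gam n) (gp gam n) (ab gam n) ys gs :=
    { ys_sl := H.ys_sl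
      ys_in := H.ys_in
      ys_on := H.ys_on
      gs_gp := H.gs_gp
      gs_in := H.gs_in
      gs_on := H.gs_on
      dic := fun l h1 h2 => kinds H.gamn h1 h2
      s1 := fun l hl => ⟨hl.1, hl.2.1⟩
      g1 := fun l hl => ⟨hl.1.1, hl.1.2.1⟩
      a1 := fun l hl => ⟨hl.1, hl.2.1⟩
      sg := fun l hl h => sl_gr hl h.1
      sa := fun l hl => sl_ab hl
      ag := fun l hl => ab_gp hl }
  have haz : exp (C₂ * z) ≤ 2 ^ (a * z) := by
    have h1 := H.yX
    have h2 : exp (C * z) ≤ exp (C * z) * 2 ^ X :=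
      le_mul_of_one_le_right (exp_pos _).le (one_le_pow₀ one_le_two)
    have h3 : (2 : ℝ) ^ (y * z) ≤ 2 ^ (a * z) :=
      pow_le_pow_right₀ one_le_two (Nat.mul_le_mul_right z hF.ya)
    exact (ex_mono hC hzr).trans (h2.trans (h1.trans h3))
  have hq0 := hF.ok.isLaw.nonneg
  have hgP := hg1 D U R J a₀ w₀ z Q lam gt κ κ' q ((le_max_left _ _).trans hz)
    (hκ.trans (min_le_left _ _)) hF.ok hTm hU
  obtain ⟨Eg, hEg1, hEg2⟩ := hg2 D U R K K' J a₀ w₀ z M i j r r' r'' a y Q lam gt gam κ κ' q E P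
    ((le_max_right _ _).trans hz) (hκ.trans (min_le_right _ _)) hTm hF H.gamn hPl H.deg1 hmg hFr hU
  have hEg : ∀ ω, Eg ω → E ω ∧ GoodU D U n J w₀ z M R Cu ω ∧ ∀ v, Ct n R (gs v) →
      KmS D U n J w₀ z i j y gam R Cu (P (bb D i j r ω)) ω (gs v) := by
    intro ω hω
    obtain ⟨h1, h2, h3⟩ := hEg1 ω hω
    exact ⟨h1, GoodU.mono h2 hcu' hF.z1, fun v hv k m hk =>
      (h3 (gs v) hv (H.gs_gp v) k m hk).trans
        (div_le_div_of_nonneg_right (ex_mono hck' hzr) (by positivity))⟩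
  have hPb : Pb q (fun ω => E ω ∧ ¬ Eg ω) ≤ e := by
    refine (gf_Pb_or hq0 (fun ω => ¬ GoodU D U n J w₀ z M R cu ω)
      (fun ω => (E ω ∧ GoodU D U n J w₀ z M R cu ω) ∧ ¬ Eg ω) _ ?_).trans (by linarith)
    intro ω hω
    by_cases h : GoodU D U n J w₀ z M R cu ω
    · exact Or.inr ⟨⟨hω.1, h⟩, hω.2⟩
    · exact Or.inl h
  obtain ⟨fD, fL, p0, p1, hd⟩ := hgf D U R K K' J a₀ w₀ z M w i j r r' r'' a y Q c k lam gt gam κ q E
    P S ys gs hF H.gamn hPl hG hU hI H.w1 H.w2 haz Eg hEg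
  have hCt : ∀ g, g ∈ Fz → Ct n R (gs g) := fun g hg =>
    ⟨(hI.g1 _ (H.gs_gp g)).1, ((hFz g).1 hg).1, ((hFz g).1 hg).2⟩
  have he : exp (C₂ * z) ≤ exp (C₃ * z) := ex_mono (by rw [hC₃]; linarith) hzr
  have hs : (0 : ℝ) ≤ 1 / 2 ^ (y * z) + 1 / 2 ^ (Q * z) := by positivity
  refine ⟨Eg, fD, fL, p0, p1, fun ω hω => (hEg ω hω).1, hPb, ?_⟩
  refine
    { ldD := fun x g _ => ⟨(hd.ldD x g).1, fun u => ((hd.ldD x g).2 u).trans he⟩
      ldL := fun x g _ => ⟨(hd.ldL x g).1, fun u => ((hd.ldL x g).2 u).trans he⟩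
      pb := fun x g _ a => ⟨(hd.sz x g a).1.trans he, (hd.sz x g a).2.1.trans he⟩
      pz := fun x g _ a h => (hd.sz x g a).2.2 h
      cl := ?_
      af := ?_
      bx := ?_ }
  · intro ω hω' g hg l
    have hω := (hEg ω hω').1
    have h1 := hd.cl ω hω' g (hCt g hg) l
    have e1 : (fD (D.pt ω) g ᵥ*
        MF i j r E (rcd D i j r a) (cMx D J a₀ z i j r a E P gs) ω) l =
        ∑ v, fD (D.pt ω) g v * cM D J a₀ z i j r a E P (bb D i j r ω) (rcd D i j r a ω) (gs v)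
          (gs l) := by
      unfold MF
      rw [if_pos hω]
      unfold cMx
      simp only [Matrix.vecMul, dotProduct, Matrix.of_apply]
    rw [e1]
    exact h1.trans (mul_le_mul_of_nonneg_right he hs)
  · intro ω hω' g hg b
    refine (hd.af ω hω' g (hCt g hg) b).trans ?_
    rw [← mul_one_div]
    exact mul_le_mul he (le_add_of_nonneg_right (by positivity)) (by positivity) (exp_pos _).le
  · intro ω hω' l g hg hgl b hb
    have hω := (hEg ω hω').1
    have hgn := hI.g1 _ (H.gs_gp l)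
    have hct := hCt g hg
    have hr1 := hPl.stp.s8
    have hy1 := hPl.y1
    have hjr := hF.jM
    have hjM : j + 1 < M := by omega
    have hbx := hbox D K K' J a₀ w₀ z M i j r r' a y lam gt κ q E P _ _ hF hjM hF.ok.gam_ge U R Q hU ω
      hω (gs l) hgn.2 b hb
    have lv := lev2 hF.ok hF.iM.le hjM.le (i₂ := i) hF.iM.le (j₂ := j) (by omega) hct.1
      hct.2.1.le
    rw [abs_le] at lv
    push_cast at lv
    have hp : (2 : ℝ) ^ D.g i j (gs g) ≤ exp (2 * C₁ * z) * 2 ^ D.g i (j + 1) (gs g) := by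
      refine pw_le ?_ (by positivity)
      have : 0 ≤ gt (gs g) * z := mul_nonneg (hF.ok.gam_ge _) (by linarith)
      nlinarith [lv.1, lv.2]
    have key := hd.bx ω hω' g hct b
      (hb.1.trans (div_le_div_of_nonneg_right (one_le_exp (by positivity)) (by positivity)))
      (fun l' _ h2 => hbx l' (h2.trans hgl)) (exp (2 * C₁ * z) / 2 ^ (Q * z)) (by
        refine ((hb.2 (gs g) hct.1 hgl).2 hct.2.2).trans ?_
        rw [div_div, div_le_div_iff₀ (by positivity) (by positivity), one_mul, pow_add]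
        have := mul_le_mul_of_nonneg_right hp (show (0 : ℝ) ≤ 2 ^ (Q * z) by positivity)
        linarith)
    refine key.trans ?_
    have f1 : exp (2 * C₁ * z) / 2 ^ (Q * z) ≤
        exp (2 * C₁ * z) * (1 / 2 ^ (y * z) + 1 / 2 ^ (Q * z)) := by
      rw [← mul_one_div]
      exact mul_le_mul_of_nonneg_left (le_add_of_nonneg_left (by positivity)) (exp_pos _).le
    have f2 : exp (2 * C₁ * z) + exp (C₂ * z) ≤ exp (C₃ * z) := by
      have g1 : (1 : ℝ) ≤ exp (2 * C₁ * z) := one_le_exp (by positivity)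
      have g2 : (1 : ℝ) ≤ exp (C₂ * z) := one_le_exp (by positivity)
      have g3 : (2 : ℝ) ≤ exp (1 * z) := by
        have := Real.add_one_le_exp (1 * (z : ℝ))
        linarith
      calc exp (2 * C₁ * z) + exp (C₂ * z) ≤ 2 * (exp (2 * C₁ * z) * exp (C₂ * z)) := by nlinarith
        _ ≤ exp (1 * z) * (exp (2 * C₁ * z) * exp (C₂ * z)) :=
          mul_le_mul_of_nonneg_right g3 (by positivity)
        _ = _ := by
          rw [← exp_add, ← exp_add, hC₃]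
          ring_nf
    calc _ ≤ (exp (2 * C₁ * z) + exp (C₂ * z)) * (1 / 2 ^ (y * z) + 1 / 2 ^ (Q * z)) := by
          rw [add_mul]
          exact add_le_add f1 le_rfl
      _ ≤ _ := mul_le_mul_of_nonneg_right f2 hs

end Pool.P4J
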